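import Pool.Agent.Lib.H94G.BasicC

/-!
# Basic facts about types

Import file for `BasicA`, `BasicB`, `BasicC`.
-/
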