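import Pool.Agent.Lib.H94G.Basic

/-!
# Definability (chunk DEF)

Every set of types of depth `D` is defined by a formula of depth `≤ D` with modalities `< N`.
Induction on `D`: for a single type `t = (v, S)` of depth `D + 1` take
`lit(v) ∧ ⋀_k (⋀_{u ∈ S_k} ⟨k⟩χ_u ∧ [k] ⋁_{u ∈ S_k} χ_u)`; for a set of types take the (finite)
disjunction.
-/

namespace H94G

open Form

variable {α : Type} {N : ℕ}

/-- A family of subsets of a finite type which is closed under the Boolean operations and separates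
points contains all subsets. -/
theorem defin_boolean {X : Type} [Finite X] (D : Set X → Prop) (hc : ∀ P, D P → D Pᶜ)
    (hi : ∀ P Q, D P → D Q → D (P ∩ Q)) (hu : D Set.univ)
    (hs : ∀ x y, x ≠ y → ∃ Q, D Q ∧ x ∈ Q ∧ y ∉ Q) : ∀ P, D P := by
  classical
  have := Fintype.ofFinite X
  have hI : ∀ (s : Finset X) (f : X → Set X), (∀ i, D (f i)) → D (⋂ i ∈ s, f i) := by
    intro s f hf
    induction s using Finset.induction_on with
    | empty => simpa using hu
    | insert i s _ ih =>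
      rw [Finset.set_biInter_insert]
      exact hi _ _ (hf i) ih
  have h1 : ∀ x : X, D {x} := by
    intro x
    have h2 : ∀ y : X, ∃ Q, D Q ∧ x ∈ Q ∧ (y ≠ x → y ∉ Q) := by
      intro y
      by_cases hy : y = x
      · exact ⟨Set.univ, hu, trivial, fun h => absurd hy h⟩
      · obtain ⟨Q, q1, q2, q3⟩ := hs x y (Ne.symm hy)
        exact ⟨Q, q1, q2, fun _ => q3⟩
    choose f f1 f2 f3 using h2
    have h3 := hI Finset.univ f f1
    have h4 : (⋂ i ∈ (Finset.univ : Finset X), f i) = {x} := by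
      ext y
      simp only [Finset.mem_univ, Set.iInter_true, Set.mem_iInter, Set.mem_singleton_iff]
      constructor
      · intro h
        by_contra hy
        exact f3 y hy (h y)
      · rintro rfl i
        exact f2 i
    rw [h4] at h3
    exact h3
  intro P
  have h2 := hI Finset.univ (fun x => if x ∈ P then {x}ᶜ else Set.univ) (by
    intro x
    split_ifs
    · exact hc _ (h1 x)
    · exact hu)
  have h3 : (⋂ i ∈ (Finset.univ : Finset X), (if i ∈ P then ({i}ᶜ : Set X) else Set.univ)) = Pᶜ := by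
    ext y
    simp only [Finset.mem_univ, Set.iInter_true, Set.mem_iInter, Set.mem_compl_iff]
    constructor
    · intro h hy
      have := h y
      rw [if_pos hy] at this
      exact this rfl
    · intro h i
      split_ifs with hi'
      · intro hyi
        rw [Set.mem_singleton_iff] at hyi
        exact h (hyi ▸ hi')
      · trivial
  rw [h3] at h2
  have h4 := hc _ h2
  rwa [compl_compl] at h4

/-- The definable sets. -/
def Dfn (D : ℕ) (P : Set (Ty α N D)) : Prop :=
  ∃ φ : Form α, Form.depth φ ≤ D ∧ Form.ModLT N φ ∧ ∀ t : Ty α N D, Sat φ D t ↔ t ∈ P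

theorem dfn_compl {D : ℕ} (P : Set (Ty α N D)) (h : Dfn D P) : Dfn D Pᶜ := by
  obtain ⟨φ, h1, h2, h3⟩ := h
  refine ⟨neg φ, ?_, ⟨h2, trivial⟩, ?_⟩
  · show max (Form.depth φ) 0 ≤ D
    omega
  · intro t
    rw [Set.mem_compl_iff, ← h3 t]
    exact Iff.rfl

theorem dfn_inter {D : ℕ} (P Q : Set (Ty α N D)) (h : Dfn D P) (h' : Dfn D Q) :
    Dfn D (P ∩ Q) := by
  obtain ⟨φ, h1, h2, h3⟩ := h
  obtain ⟨ψ, k1, k2, k3⟩ := h'
  refine ⟨neg (imp φ (neg ψ)), ?_, ⟨⟨h2, k2, trivial⟩, trivial⟩, ?_⟩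
  · show max (max (Form.depth φ) (max (Form.depth ψ) 0)) 0 ≤ D
    omega
  · intro t
    rw [Set.mem_inter_iff, ← h3 t, ← k3 t]
    show ((Sat φ D t → Sat ψ D t → False) → False) ↔ _
    tauto

theorem dfn_univ {D : ℕ} : Dfn D (Set.univ : Set (Ty α N D)) := by
  refine ⟨neg bot, ?_, ⟨trivial, trivial⟩, ?_⟩
  · show max 0 0 ≤ D
    omega
  · intro t
    simp only [Set.mem_univ, iff_true]
    exact fun h => h

theorem dfn_val {D : ℕ} (a : α) : Dfn D {t : Ty α N D | a ∈ val D t} :=
  ⟨var a, Nat.zero_le _, trivial, fun _ => Iff.rfl⟩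

theorem dfn_suc {D : ℕ} (k : Fin N) (P : Set (Ty α N D)) (h : Dfn D P) :
    Dfn (D + 1) {t : Ty α N (D + 1) | ∀ u ∈ suc t k, u ∈ P} := by
  obtain ⟨φ, h1, h2, h3⟩ := h
  refine ⟨box k φ, ?_, ⟨k.isLt, h2⟩, ?_⟩
  · show Form.depth φ + 1 ≤ D + 1
    omega
  · intro t
    show (∀ h : (k : ℕ) < N, ∀ u ∈ suc t ⟨k, h⟩, Sat φ D u) ↔ ∀ u ∈ suc t k, u ∈ P
    constructor
    · intro h u hu
      exact (h3 u).1 (h k.isLt u hu)
    · intro h _ u hu
      exact (h3 u).2 (h u hu)

theorem dfn_sep_val {D : ℕ} {s t : Ty α N D} (h : val D s ≠ val D t) :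
    ∃ Q, Dfn D Q ∧ s ∈ Q ∧ t ∉ Q := by
  have h1 : ∃ a, ¬ (a ∈ val D s ↔ a ∈ val D t) := by
    by_contra hcon
    push Not at hcon
    exact h (Set.ext hcon)
  obtain ⟨a, ha⟩ := h1
  by_cases h2 : a ∈ val D s
  · refine ⟨_, dfn_val a, h2, fun h3 => ha ⟨fun _ => h3, fun _ => h2⟩⟩
  · refine ⟨_, dfn_compl _ (dfn_val a), h2, fun h3 => ?_⟩
    by_cases h4 : a ∈ val D t
    · exact h3 h4
    · exact ha ⟨fun h => absurd h h2, fun h => absurd h h4⟩

theorem dfn_all [Finite α] : ∀ (D : ℕ) (P : Set (Ty α N D)), Dfn D P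
  | 0 => by
    have := instFiniteTy (α := α) (N := N) 0
    refine defin_boolean (Dfn 0) dfn_compl dfn_inter dfn_univ fun s t hst => ?_
    exact dfn_sep_val hst
  | D + 1 => by
    have := instFiniteTy (α := α) (N := N) (D + 1)
    have ih := dfn_all D
    refine defin_boolean (Dfn (D + 1)) dfn_compl dfn_inter dfn_univ fun s t hst => ?_
    by_cases hv : val (D + 1) s = val (D + 1) t
    · have h1 : ∃ k, suc s k ≠ suc t k := by
        by_contra hcon
        push Not at hcon
        exact hst (Prod.ext hv (funext hcon))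
      obtain ⟨k, hk⟩ := h1
      have h2 : ∃ u, ¬ (u ∈ suc s k ↔ u ∈ suc t k) := by
        by_contra hcon
        push Not at hcon
        exact hk (Set.ext hcon)
      obtain ⟨u, hu⟩ := h2
      have h3 : Dfn (D + 1) {x : Ty α N (D + 1) | ∀ u' ∈ suc x k, u' ∈ ({u}ᶜ : Set _)} :=
        dfn_suc k _ (ih {u}ᶜ)
      by_cases h4 : u ∈ suc s k
      · refine ⟨_, dfn_compl _ h3, fun h5 => h5 u h4 rfl, fun h5 => h5 ?_⟩
        intro u' hu' hu''
        rw [Set.mem_singleton_iff] at hu''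
        subst hu''
        exact hu ⟨fun _ => hu', fun _ => h4⟩
      · refine ⟨_, h3, ?_, fun h5 => ?_⟩
        · intro u' hu' hu''
          rw [Set.mem_singleton_iff] at hu''
          subst hu''
          exact h4 hu'
        · by_cases h6 : u ∈ suc t k
          · exact h5 u h6 rfl
          · exact hu ⟨fun h => absurd h h4, fun h => absurd h h6⟩
    · exact dfn_sep_val hv

theorem definable [Finite α] (D : ℕ) (P : Set (Ty α N D)) :
    ∃ φ : Form α, Form.depth φ ≤ D ∧ Form.ModLT N φ ∧ ∀ t : Ty α N D, Sat φ D t ↔ t ∈ P :=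
  dfn_all D P

theorem sat_of_depth_zero {β : Type} : ∀ (φ : Form β), Form.depth φ = 0 →
    ∀ (N D : ℕ) (t : Ty β N D) (N' : ℕ), Sat φ D t ↔ Sat (N := N') φ 0 (val D t)
  | var _, _, _, _, _, _ => Iff.rfl
  | bot, _, _, _, _, _ => Iff.rfl
  | imp φ ψ, h, N, D, t, N' => by
    have h' : max (Form.depth φ) (Form.depth ψ) = 0 := h
    have h1 := sat_of_depth_zero φ (by omega) N D t N'
    have h2 := sat_of_depth_zero ψ (by omega) N D t N'
    exact imp_congr h1 h2
  | box j φ, h, _, _, _, _ => by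
    have h' : Form.depth φ + 1 = 0 := h
    omega

/-- Special case `D = 0`, for Boolean conditions on valuations. -/
theorem definable_zero {β : Type} [Finite β] (P : Set (Set β)) :
    ∃ φ : Form β, Form.depth φ = 0 ∧ ∀ (N D : ℕ) (t : Ty β N D), Sat φ D t ↔ val D t ∈ P := by
  obtain ⟨φ, h1, _, h3⟩ := definable (α := β) (N := 0) 0 P
  refine ⟨φ, by omega, fun N D t => ?_⟩
  rw [sat_of_depth_zero φ (by omega) N D t 0]
  exact h3 _

end H94G
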