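import Pool.Agent.Lib.H94G.Lift

/-!
# Soundness (chunk SO)

Induction on the derivation, statement for all `D ≥ depth φ` and all good `t` of depth `D`.
Taut: `Sat` is an evaluation (`evalP (fun χ => Sat χ D t)`). K: clear. mono: `GS.nested`.
negintro: `GS.suc_suc_lt` (the depth is `≥ 2`; `sat_rho`). Nec: `GS.good_suc`. MP: lift `t` several
times to a type whose depth is at least the depth of the cut formula, then `sat_rho` to come back.
(If `k ≥ N`, `[k]φ` is true everywhere; nothing is to be shown for `n ≥ N` in K, lob, negintro, mono.)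
Löb: by `GS.ind` one proves for `t` of depth `D + 1`, `depth φ ≤ D - 1` i.e. `depth [k]φ ≤ D`: if some
`u ∈ suc t k` refutes `φ`, then some `u ∈ suc t k` refutes `φ` and satisfies `[k]φ`: with
`suc t k = gen k A`, either `u ∈ suc s k` with `s ∈ A`: use the induction hypothesis for `s`; or
`u = rho s`, `s ∈ A`: if `s` satisfies `[k]φ`, so does `u` (`sat_rho`), take `u`; otherwise some
element of `suc s k` refutes `φ` and the induction hypothesis for `s` applies.
-/

namespace H94G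

open Form

variable {α : Type} {N : ℕ}

theorem sound_evalP {D : ℕ} (t : Ty α N D) :
    ∀ φ : Form α, evalP (fun χ => Sat χ D t) φ ↔ Sat φ D t
  | var _ => Iff.rfl
  | bot => Iff.rfl
  | imp φ ψ => imp_congr (sound_evalP t φ) (sound_evalP t ψ)
  | box _ _ => Iff.rfl

theorem sound_lob {D : ℕ} {φ : Form α} (hφ : Form.depth φ ≤ D) :
    ∀ t : Ty α N (D + 2), GS (D + 1) t → ∀ k : Fin N,
      (∃ u ∈ suc t k, ¬ Sat φ (D + 1) u) →
      ∃ u ∈ suc t k, ¬ Sat φ (D + 1) u ∧ ∀ w ∈ suc u k, Sat φ D w := by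
  refine GS.ind fun t _ ih k => ?_
  rintro ⟨u, hu, hu'⟩
  obtain ⟨A, hA, hgen⟩ := ih k
  have hsub : ∀ s ∈ A, suc s k ⊆ suc t k := by
    intro s hs w hw
    rw [hgen]
    exact Or.inr (Set.mem_iUnion₂.2 ⟨s, hs, hw⟩)
  have step : ∀ s ∈ A, (∃ u ∈ suc s k, ¬ Sat φ (D + 1) u) →
      ∃ u ∈ suc t k, ¬ Sat φ (D + 1) u ∧ ∀ w ∈ suc u k, Sat φ D w := by
    intro s hs h
    obtain ⟨w, hw, h1, h2⟩ := (hA s hs).2 k h
    exact ⟨w, hsub s hs hw, h1, h2⟩
  have hu2 := hu
  rw [hgen] at hu2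
  rcases hu2 with ⟨s, hs, hsu⟩ | hu2
  · by_cases h : ∃ w ∈ suc s k, ¬ Sat φ (D + 1) w
    · exact step s hs h
    · push Not at h
      refine ⟨u, hu, hu', ?_⟩
      intro w hw
      rw [← hsu, suc_rho] at hw
      obtain ⟨w', hw', rfl⟩ := hw
      exact (sat_rho φ D w' hφ).1 (h w' hw')
  · obtain ⟨s, hs, hw⟩ := Set.mem_iUnion₂.1 hu2
    exact step s hs ⟨u, hw, hu'⟩

theorem sound_liftN [Finite α] {D : ℕ} (t : Ty α N D) (ht : Good D t) : ∀ k : ℕ,
    ∃ t' : Ty α N (D + k), Good (D + k) t' ∧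
      ∀ ψ : Form α, Form.depth ψ ≤ D → (Sat ψ (D + k) t' ↔ Sat ψ D t)
  | 0 => ⟨t, ht, fun _ _ => Iff.rfl⟩
  | k + 1 => by
    obtain ⟨t', h1, h2⟩ := sound_liftN t ht k
    obtain ⟨t'', h3, h4⟩ := exists_lift (D + k) t' h1
    refine ⟨t'', h3, fun ψ hψ => ?_⟩
    rw [← h2 ψ hψ, ← h4]
    exact sat_rho ψ (D + k) t'' (by omega)

theorem sound_aux [Finite α] {φ : Form α} (h : GLP φ) : ∀ (D : ℕ) (t : Ty α N D), Good D t →
    Form.depth φ ≤ D → Sat φ D t := by
  induction h with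
  | taut φ hφ =>
    intro D t _ _
    exact (sound_evalP t φ).1 (hφ _)
  | K n φ ψ =>
    intro D t _ _
    cases D with
    | zero => exact fun _ _ => trivial
    | succ D =>
      intro h1 h2 hn u hu
      exact h1 hn u hu (h2 hn u hu)
  | lob n φ =>
    intro D t ht hd
    have hd' : max (max (Form.depth φ + 1) (Form.depth φ) + 1) (Form.depth φ + 1) ≤ D := hd
    obtain ⟨D, rfl⟩ : ∃ D', D = D' + 2 := ⟨D - 2, by omega⟩
    intro h1 hn u hu
    by_contra hcon
    obtain ⟨w, hw, h2, h3⟩ := sound_lob (D := D) (φ := φ) (by omega) t ht ⟨n, hn⟩ ⟨u, hu, hcon⟩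
    exact h2 (h1 hn w hw (fun _ v hv => h3 v hv))
  | mono m n φ hmn =>
    intro D t ht _
    cases D with
    | zero => exact fun _ => trivial
    | succ D =>
      intro h1 hn u hu
      have ht' : GS D t := ht
      have h2 := ht'.nested (j := ⟨m, hmn.trans hn⟩) (k := ⟨n, hn⟩) (by
        rw [Fin.mk_le_mk]
        exact hmn.le) hu
      exact h1 (hmn.trans hn) u h2
  | negintro m n φ hmn =>
    intro D t ht hd
    have hd' : max (max (max (Form.depth φ) 0 + 1) 0) (max (max (Form.depth φ) 0 + 1) 0 + 1) ≤ D :=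
      hd
    obtain ⟨D, rfl⟩ : ∃ D', D = D' + 2 := ⟨D - 2, by omega⟩
    intro h1 hn u hu h2
    apply h1
    intro hm w hw
    have ht' : GS (D + 1) t := ht
    have h3 := ht'.suc_suc_lt (j := ⟨m, hm⟩) (k := ⟨n, hn⟩) (by
      rw [Fin.mk_lt_mk]
      exact hmn) hu
    have h4 : rho D w ∈ suc u ⟨m, hm⟩ := by
      rw [h3]
      exact ⟨w, hw, rfl⟩
    have h5 := h2 hm (rho D w) h4
    refine (sat_rho (neg φ) D w ?_).2 h5
    show max (Form.depth φ) 0 ≤ D
    omega
  | mp φ ψ _ _ ih1 ih2 =>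
    intro D t ht hd
    obtain ⟨t', h1, h2⟩ := sound_liftN t ht (max (Form.depth φ) (Form.depth ψ))
    have h3 := ih1 _ t' h1 (by
      show max (Form.depth φ) (Form.depth ψ) ≤ _
      omega)
    have h4 := ih2 _ t' h1 (by omega)
    exact (h2 ψ hd).1 (h3 h4)
  | nec φ _ ih =>
    intro D t ht hd
    cases D with
    | zero => exact trivial
    | succ D =>
      intro hn u hu
      have ht' : GS D t := ht
      have hd' : Form.depth φ + 1 ≤ D + 1 := hd
      exact ih D u (ht'.good_suc hu) (by omega)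

/-- Soundness. -/
theorem sound [Finite α] {φ : Form α} (h : GLP φ) (D : ℕ) (t : Ty α N D) (ht : Good D t)
    (hd : Form.depth φ ≤ D) : Sat φ D t := sound_aux h D t ht hd

end H94G
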