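import Pool.Agent.Lib.H94G.Fix
import Pool.Agent.Lib.H94G.Defin
import Pool.Agent.Lib.H94G.Sound

/-!
# Semantic fixed points (chunk FXS)

Take for `B i` a box-free formula over `α ⊕ I` (`definable_zero`) which is true at a valuation `w`
iff `¬ β i {a | inl a ∈ w} {j | inr j ∉ w}`; let `θ` be the solution of `fixpoint`, `D₀` the maximum
of the depths of the `θ i`, and `ϑ u = {i | ¬ Sat (θ i) D₀ u}`. For `t` good of depth `D₀ + 1`, by
soundness at depth `D₀ + 1` (the formulas have depth `≤ D₀ + 1`):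
`Sat (θ i) D₀ (rho t) ↔ Sat (θ i) (D₀+1) t ↔ ∀ u ∈ suc t (κ i), Sat (B i)[θ] D₀ u`
`↔ ∀ u ∈ suc t (κ i), ¬ β i (val u) (ϑ u)`.
The depths: `B i` is box-free, so `(B i)[θ]` has depth `≤ D₀`; and truth of `(B i)[θ]` at `u` is truth
of the Boolean formula `B i` at the valuation `{inl a | a ∈ val u} ∪ {inr j | Sat (θ j) u}`.

`cut k` truncates from depth `D₀ + k` to depth `D₀`.
-/

namespace H94G

open Form

variable {α : Type} {N : ℕ}

/-- Iterated truncation. -/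
def cut (D₀ : ℕ) : (k : ℕ) → Ty α N (D₀ + k) → Ty α N D₀
  | 0, t => t
  | k + 1, t => cut D₀ k (rho (D₀ + k) t)

theorem fixSem_cut (φ : Form α) {D₀ : ℕ} (hφ : Form.depth φ ≤ D₀) :
    ∀ (k : ℕ) (t : Ty α N (D₀ + k)), Sat φ (D₀ + k) t ↔ Sat φ D₀ (cut D₀ k t)
  | 0, _ => Iff.rfl
  | k + 1, t => by
    have h1 := sat_rho φ (D₀ + k) t (by omega)
    have h2 := fixSem_cut φ hφ k (rho (D₀ + k) t)
    exact h1.trans h2

theorem fixSem_depth {β γ : Type} {σ : β → Form γ} {D₀ : ℕ}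
    (hσ : ∀ b, Form.depth (σ b) ≤ D₀) :
    ∀ F : Form β, Form.depth F = 0 → Form.depth (Form.subst σ F) ≤ D₀
  | var b, _ => hσ b
  | bot, _ => Nat.zero_le _
  | imp φ ψ, h => by
    have h' : max (Form.depth φ) (Form.depth ψ) = 0 := h
    have h1 := fixSem_depth hσ φ (by omega)
    have h2 := fixSem_depth hσ ψ (by omega)
    show max (Form.depth (Form.subst σ φ)) (Form.depth (Form.subst σ ψ)) ≤ D₀
    omega
  | box _ φ, h => by
    have h' : Form.depth φ + 1 = 0 := h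
    omega

theorem fixSem_subst {β γ : Type} {N : ℕ} {σ : β → Form γ} {D : ℕ} (u : Ty γ N D) :
    ∀ F : Form β, Form.depth F = 0 →
      (Sat (Form.subst σ F) D u ↔ Sat (N := N) F 0 {b | Sat (σ b) D u})
  | var _, _ => Iff.rfl
  | bot, _ => Iff.rfl
  | imp φ ψ, h => by
    have h' : max (Form.depth φ) (Form.depth ψ) = 0 := h
    exact imp_congr (fixSem_subst u φ (by omega)) (fixSem_subst u ψ (by omega))
  | box _ φ, h => by
    have h' : Form.depth φ + 1 = 0 := h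
    omega

theorem fixSem_bound {I : Type} [Finite I] (f : I → ℕ) : ∃ D, ∀ i, f i ≤ D := by
  have := Fintype.ofFinite I
  exact ⟨Finset.univ.sup f, fun i => Finset.le_sup (Finset.mem_univ i)⟩

theorem fixSem [Finite α] {I : Type} [Finite I] (κ : I → Fin N)
    (β : I → Set α → Set I → Prop) :
    ∃ (D₀ : ℕ) (ϑ : Ty α N D₀ → Set I), ∀ (k : ℕ) (t : Ty α N (D₀ + k + 1)), GS (D₀ + k) t →
      ∀ i, i ∈ ϑ (cut D₀ (k + 1) t) ↔
        ∃ u ∈ suc t (κ i), β i (val (D₀ + k) u) (ϑ (cut D₀ k u)) := by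
  have hdef := fun i => definable_zero
    {w : Set (α ⊕ I) | ¬ β i {a | Sum.inl a ∈ w} {j | Sum.inr j ∉ w}}
  choose B hB0 hB using hdef
  obtain ⟨θ, _, hθ⟩ := fixpoint (N := N) (fun i => ((κ i : Fin N) : ℕ)) B hB0
    (fun i => (κ i).isLt)
  obtain ⟨D₀, hD⟩ := fixSem_bound fun i => Form.depth (θ i)
  refine ⟨D₀, fun u => {i | ¬ Sat (θ i) D₀ u}, fun k t ht i => ?_⟩
  have hσ : ∀ b, Form.depth (Sum.elim Form.var θ b) ≤ D₀ := by
    intro b
    rcases b with a | j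
    · exact Nat.zero_le _
    · exact hD j
  have hds := fixSem_depth hσ (B i) (hB0 i)
  have s1 := sound (hθ i).1 (D₀ + k + 1) t ht (by
    show max (Form.depth (θ i)) (Form.depth (Form.subst _ (B i)) + 1) ≤ _
    have := hD i
    omega)
  have s2 := sound (hθ i).2 (D₀ + k + 1) t ht (by
    show max (Form.depth (Form.subst _ (B i)) + 1) (Form.depth (θ i)) ≤ _
    have := hD i
    omega)
  have h1 : Sat (θ i) (D₀ + (k + 1)) t ↔ Sat (θ i) D₀ (cut D₀ (k + 1) t) :=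
    fixSem_cut (θ i) (hD i) (k + 1) t
  have h2 : Sat (θ i) (D₀ + (k + 1)) t ↔
      ∀ h : ((κ i : Fin N) : ℕ) < N, ∀ u ∈ suc t ⟨κ i, h⟩,
        Sat (Form.subst (Sum.elim Form.var θ) (B i)) (D₀ + k) u := ⟨s1, s2⟩
  have h3 : ∀ u : Ty α N (D₀ + k), Sat (Form.subst (Sum.elim Form.var θ) (B i)) (D₀ + k) u ↔
      ¬ β i (val (D₀ + k) u) {i | ¬ Sat (θ i) D₀ (cut D₀ k u)} := by
    intro u
    rw [fixSem_subst u (B i) (hB0 i), hB i N 0]
    have e2 : {j | (Sum.inr j : α ⊕ I) ∉ {b | Sat (Sum.elim Form.var θ b) (D₀ + k) u}} =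
        {i | ¬ Sat (θ i) D₀ (cut D₀ k u)} := by
      ext j
      show ¬ Sat (θ j) (D₀ + k) u ↔ ¬ Sat (θ j) D₀ (cut D₀ k u)
      rw [fixSem_cut (θ j) (hD j) k u]
    show ¬ β i {a | a ∈ val (D₀ + k) u}
      {j | (Sum.inr j : α ⊕ I) ∉ {b | Sat (Sum.elim Form.var θ b) (D₀ + k) u}} ↔ _
    rw [e2]
    exact Iff.rfl
  show ¬ Sat (θ i) D₀ (cut D₀ (k + 1) t) ↔ _
  rw [← h1, h2]
  constructor
  · intro h
    by_contra hcon
    push Not at hcon
    exact h fun _ u hu => (h3 u).2 (hcon u hu)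
  · rintro ⟨u, hu, hb⟩ h
    exact (h3 u).1 (h (κ i).isLt u hu) hb

end H94G
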