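import Pool.Agent.Lib.H94G.Cert
import Pool.Agent.Lib.H94G.FixSem
import Pool.Agent.Lib.H94G.Basic

/-!
# From a certificate to a map on types: the assignment (definitions)

Variables: `V ⊕ C.Nd`. The variables `inl v` encode an element of `V` (`dec`), the variables `inr s`
are markers. Boxed atoms: `(m, inl w)`: some `[m]`-successor has value `w`;
`(m, inr (inl s))`: some `[m]`-successor carries the marker `s`;
`(m, inr (inr s))`: some `[m]`-successor is assigned to the node `s` of level `m + 1` and its value is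
not in `U _ (m+1)` of its leaf (then `s` must not be used any more).
-/

namespace H94G

open Classical

variable {N : ℕ} {V : Type} (C : PreCert N V)

/-- Variables of the constructed substitution. -/
abbrev Vr : Type := V ⊕ C.Nd

/-- Indices of the boxed atoms. -/
abbrev Ix : Type := Fin N × (V ⊕ (C.Nd ⊕ C.Nd))

/-- The element of `V` encoded by a valuation. -/
noncomputable def dec [Nonempty V] (w : Set (Vr C)) : V :=
  Classical.epsilon (fun v => Sum.inl v ∈ w)

/-- `x` is a candidate for the next node. -/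
def Cand (m : ℕ) (s : C.Nd) (S : Set V) (B E : Set C.Nd) (x : C.Nd) : Prop :=
  C.Child m s x ∧ C.T x = S ∧ x ∈ B ∧ x ∉ E

/-- Selection of the next node: the latest candidate if there is a candidate, otherwise a good child
with the right label. -/
noncomputable def Sel (m : ℕ) (s : C.Nd) (S : Set V) (B E : Set C.Nd) : C.Nd :=
  if h : ∃ x, Cand C m s S B E x ∧ ∀ y, Cand C m s S B E y → C.τ y ≤ C.τ x then choose h
  else if h' : ∃ x, C.Child m s x ∧ C.T x = S ∧ C.GoodAt m x then choose h' else s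

/-- The assigned node at level `m`, from the truth values `ϑ` of the boxed atoms. -/
noncomputable def nd (ϑ : Set (Ix C)) : ℕ → C.Nd
  | 0 => C.root
  | m + 1 => if h : m < N then
      Sel C m (nd ϑ m) {w | ((⟨m, h⟩, Sum.inl w) : Ix C) ∈ ϑ}
        {s | ((⟨m, h⟩, Sum.inr (Sum.inl s)) : Ix C) ∈ ϑ}
        {s | ((⟨m, h⟩, Sum.inr (Sum.inr s)) : Ix C) ∈ ϑ}
    else nd ϑ m

/-- The value, from the valuation `w` and the truth values of the boxed atoms. -/
noncomputable def vl [Nonempty V] (w : Set (Vr C)) (ϑ : Set (Ix C)) : V :=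
  if dec C w ∈ C.U (nd C ϑ N) 0 then dec C w
  else Classical.epsilon (fun v => v ∈ C.U (nd C ϑ N) 0)

/-- The modality of a boxed atom. -/
def kap (i : Ix C) : Fin N := i.1

/-- The equations of the boxed atoms. -/
def bet [Nonempty V] : Ix C → Set (Vr C) → Set (Ix C) → Prop
  | (_, Sum.inl v), w, ϑ => vl C w ϑ = v
  | (_, Sum.inr (Sum.inl s)), w, _ => Sum.inr s ∈ w
  | (m, Sum.inr (Sum.inr s)), w, ϑ =>
      nd C ϑ (m + 1) = s ∧ vl C w ϑ ∉ C.U (nd C ϑ N) (m + 1)

/-- A solution of the equations, as provided by `fixSem`. -/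
structure Sol [Nonempty V] where
  D₀ : ℕ
  ϑ : Ty (Vr C) N D₀ → Set (Ix C)
  eqn : ∀ (k : ℕ) (t : Ty (Vr C) N (D₀ + k + 1)), GS (D₀ + k) t →
      ∀ i, i ∈ ϑ (cut D₀ (k + 1) t) ↔
        ∃ u ∈ suc t (kap C i), bet C i (val (D₀ + k) u) (ϑ (cut D₀ k u))

namespace Sol

variable {C} [Nonempty V] (W : Sol C)

/-- The assigned node at level `m` of a type of depth `D₀ + k`. -/
noncomputable def node (k : ℕ) (t : Ty (Vr C) N (W.D₀ + k)) (m : ℕ) : C.Nd :=
  nd C (W.ϑ (cut W.D₀ k t)) m

/-- The value of a type of depth `D₀ + k`. -/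
noncomputable def g (k : ℕ) (t : Ty (Vr C) N (W.D₀ + k)) : V :=
  vl C (val (W.D₀ + k) t) (W.ϑ (cut W.D₀ k t))

end Sol

theorem exists_sol [Finite V] [Nonempty V] (hC : C.IsCert) : Nonempty (Sol C) := by
  haveI := hC.fin
  obtain ⟨D₀, ϑ, h⟩ := fixSem (α := Vr C) (N := N) (I := Ix C) (kap C) (bet C)
  exact ⟨⟨D₀, ϑ, h⟩⟩

end H94G
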