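import Pool.Agent.Lib.H94G.Real

/-!
# From a certificate to a map on types: assembly (chunk BK)

`V` is nonempty: by `legit` for `S = ∅` every node of level `m < N` has a child, so there is a leaf `l`
(start with the root), and `U l 0` is nonempty. Take `α = Vr C` (finite), `W` from `exists_sol`,
`D = D₀ + 1`, `g = W.g 1`. A good `t` of depth `D₀ + 2` has the leaf `l = W.node 2 t N`, and by `inv` and
`anc_node` its profile is `(W.g 2 t; T (anc l 1), ..., T (anc l N))`, `W.g 2 t ∈ U l 0`,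
`W.g 2 t = W.g 1 (rho t)`. Conversely `real` realizes every leaf and every value in `U l 0`.
-/

namespace H94G

theorem exists_leaf {N : ℕ} {V : Type} (C : PreCert N V) (hC : C.IsCert) :
    ∀ d m, m + d = N → ∀ s, C.lev s = m → ∃ l, C.lev l = N := by
  intro d
  induction d with
  | zero => intro m hm s hs; exact ⟨s, by omega⟩
  | succ d ih =>
    intro m hm s hs
    obtain ⟨x, hx, -⟩ := hC.legit s m ∅ hs (by omega) (fun w hw => absurd hw (Set.notMem_empty w))
    exact ih (m + 1) (by omega) x hx.1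

theorem back {N : ℕ} {V : Type} [Finite V] (C : PreCert N V) (hC : C.IsCert) :
    ∃ (α : Type) (_ : Finite α) (D : ℕ) (g : Ty α N D → V), realz g (le_refl N) = C.prof := by
  obtain ⟨l₀, hl₀⟩ := exists_leaf C hC N 0 (Nat.zero_add N) C.root hC.lev_root
  haveI : Nonempty V := ⟨(hC.U_ne l₀ hl₀).some⟩
  haveI := hC.fin
  obtain ⟨W⟩ := exists_sol C hC
  refine ⟨Vr C, inferInstance, W.D₀ + 1, W.g 1, ?_⟩
  have hkey : ∀ (t : Ty (Vr C) N (W.D₀ + 1 + 1)) (ht : GS (W.D₀ + 1) t) (k : Fin N),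
      W.g 1 '' suc t k = C.T (C.anc (W.node 2 t N) (k + 1)) := by
    intro t ht k
    have hI := ((inv W hC 0 t ht).1 k).2
    have hA := (anc_node W hC 0 t ht (k + 1) k.2).2
    have hA' : C.anc (W.node 2 t N) (k + 1) = W.node (0 + 2) t (k + 1) := hA
    rw [hA']
    exact hI.symm
  ext q
  constructor
  · rintro ⟨t, ht, hq1, hq2⟩
    refine ⟨W.node 2 t N, (anc_node W hC 0 t ht N le_rfl).1, ?_, ?_⟩
    · have h1 : W.g 2 t ∈ C.U (W.node 2 t N) 0 := (inv W hC 0 t ht).2.1
      have h2 : W.g 2 t = W.g 1 (rho _ t) := g_rho W 1 t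
      rw [hq1, ← h2]
      exact h1
    · intro k
      rw [hq2 k]
      exact hkey t ht k
  · rintro ⟨l, hl, hq1, hq2⟩
    obtain ⟨t, ht, h1, h2⟩ := real W hC l hl q.1 hq1
    refine ⟨t, ht, ?_, fun k => ?_⟩
    · rw [← h2]
      exact g_rho W 1 t
    · rw [hq2 k, ← h1]
      exact (hkey t ht k).symm

end H94G
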