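import Pool.Agent.Lib.H94G.Types

/-!
# Basic facts about types, I (chunk BA)

Elementary; `GS.ind` is the induction principle of `GS` in the form used everywhere.
-/

namespace H94G

open Form

variable {α : Type} {N D : ℕ}

instance instFiniteTy [Finite α] : ∀ D, Finite (Ty α N D) := by
  intro D
  induction D with
  | zero => exact inferInstanceAs (Finite (Set α))
  | succ D ih =>
    have := ih
    exact inferInstanceAs (Finite (Set α × (Fin N → Set (Ty α N D))))

theorem val_rho (t : Ty α N (D + 1)) : val D (rho D t) = val (D + 1) t := by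
  cases D <;> rfl

theorem suc_rho (t : Ty α N (D + 2)) (k : Fin N) : suc (rho (D + 1) t) k = rho D '' suc t k := rfl

theorem sat_rho (φ : Form α) : ∀ (D : ℕ) (t : Ty α N (D + 1)), Form.depth φ ≤ D →
    (Sat φ (D + 1) t ↔ Sat φ D (rho D t)) := by
  induction φ with
  | var a =>
    intro D t _
    show a ∈ val (D + 1) t ↔ a ∈ val D (rho D t)
    rw [val_rho]
  | bot => intro D t _; exact Iff.rfl
  | imp φ ψ ih1 ih2 =>
    intro D t h
    have h1 : Form.depth φ ≤ D := le_trans (le_max_left _ _) h
    have h2 : Form.depth ψ ≤ D := le_trans (le_max_right _ _) h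
    exact imp_congr (ih1 D t h1) (ih2 D t h2)
  | box k φ ih =>
    intro D t h
    cases D with
    | zero => exact absurd h (by simp [Form.depth])
    | succ D =>
      have h1 : Form.depth φ ≤ D := Nat.le_of_succ_le_succ h
      show (∀ hk : k < N, ∀ u ∈ suc t ⟨k, hk⟩, Sat φ (D + 1) u) ↔
        (∀ hk : k < N, ∀ u ∈ suc (rho (D + 1) t) ⟨k, hk⟩, Sat φ D u)
      refine forall_congr' fun hk => ?_
      rw [suc_rho]
      constructor
      · rintro h2 _ ⟨u, hu, rfl⟩
        exact (ih D u h1).1 (h2 u hu)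
      · intro h2 u hu
        exact (ih D u h1).2 (h2 _ ⟨u, hu, rfl⟩)

/-- The induction principle: a generated type `t` has, at every level `k`, a generating set of
realized types over the context of `t` for which the property is already known. -/
theorem GS.ind {P : Ty α N (D + 1) → Prop}
    (h : ∀ t, GS D t → (∀ k : Fin N, ∃ A : Set (Ty α N (D + 1)),
      (∀ s ∈ A, Realz (suc t) k s ∧ P s) ∧ suc t k = gen k A) → P t) :
    ∀ t, GS D t → P t := by
  intro t ht
  induction ht with
  | mk v c A hc hA ho hr ih =>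
    refine h _ (GS.mk v c A hc hA ho hr) fun k => ⟨A k, fun s hs => ⟨⟨⟨hA k s hs, ?_⟩, ?_⟩,
      ih k s hs⟩, hc k⟩
    · intro j hj
      exact ho k s hs j hj
    · intro j hj
      exact hr k s hs j hj

theorem GS.ctx {t : Ty α N (D + 1)} (h : GS D t) (m : ℕ) : Ctx (suc t) m := by
  cases h with
  | mk v c A hc hA ho hr =>
    intro k _
    exact ⟨A k, fun s hs => ⟨⟨hA k s hs, fun j hj => ho k s hs j hj⟩, fun j hj => hr k s hs j hj⟩,
      hc k⟩

theorem GS.of_ctx {c : Fin N → Set (Ty α N D)} {m : ℕ} (hm : N ≤ m) (h : Ctx c m) (v : Set α) :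
    GS D ((v, c) : Ty α N (D + 1)) := by
  have h' : ∀ k : Fin N, ∃ A : Set (Ty α N (D + 1)), (∀ t ∈ A, Realz c k t) ∧ c k = gen k A :=
    fun k => h k (lt_of_lt_of_le k.2 hm)
  choose A hA hc using h'
  exact GS.mk v c A hc (fun k t ht => (hA k t ht).1.1)
    (fun k t ht j hj => (hA k t ht).1.2 j hj) (fun k t ht j hj => (hA k t ht).2 j hj)

/-- Maximal elements: in a finite type every set with property `P` is contained in a maximal set with
property `P`. -/
theorem exists_maximal_set {X : Type} [Finite X] {P : Set X → Prop} {L : Set X} (h : P L) :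
    ∃ M, L ⊆ M ∧ P M ∧ ∀ M', P M' → M ⊆ M' → M' = M := by
  have hfin : {M : Set X | L ⊆ M ∧ P M}.Finite := Set.toFinite _
  obtain ⟨M, hM⟩ := hfin.exists_maximal ⟨L, subset_rfl, h⟩
  refine ⟨M, hM.prop.1, hM.prop.2, fun M' hM' hsub => ?_⟩
  exact (hM.eq_of_subset ⟨hM.prop.1.trans hsub, hM'⟩ hsub).symm

end H94G
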