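import Pool.Agent.Lib.H94G.BasicA

/-!
# Basic facts about types, II (chunk BB)

All by `GS.ind`: an element `u` of `suc t k = gen k A` is `rho s` or an element of `suc s k` for some
`s ∈ A`, where `suc s j = suc t j` and `rho s ∈ suc t j` for `j < k`.
-/

namespace H94G

open Form

variable {α : Type} {N D : ℕ}

theorem bb_mem_gen {k : Fin N} {A : Set (Ty α N (D + 1))} {u : Ty α N D} :
    u ∈ gen k A ↔ (∃ s ∈ A, rho D s = u) ∨ ∃ s ∈ A, u ∈ suc s k := by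
  unfold gen
  simp only [Set.mem_union, Set.mem_image, Set.mem_iUnion, exists_prop]

/-- The set generated by truncated types. -/
theorem bb_gen_rho (k : Fin N) (A : Set (Ty α N (D + 2))) :
    gen k (rho (D + 1) '' A) = rho D '' gen k A := by
  ext u
  rw [bb_mem_gen]
  constructor
  · rintro (⟨_, ⟨s, hs, rfl⟩, rfl⟩ | ⟨_, ⟨s, hs, rfl⟩, hu⟩)
    · exact ⟨_, bb_mem_gen.2 (Or.inl ⟨s, hs, rfl⟩), rfl⟩
    · rw [suc_rho] at hu
      obtain ⟨w, hw, rfl⟩ := hu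
      exact ⟨w, bb_mem_gen.2 (Or.inr ⟨s, hs, hw⟩), rfl⟩
  · rintro ⟨w, hw, rfl⟩
    rcases bb_mem_gen.1 hw with ⟨s, hs, rfl⟩ | ⟨s, hs, hw⟩
    · exact Or.inl ⟨_, ⟨s, hs, rfl⟩, rfl⟩
    · exact Or.inr ⟨_, ⟨s, hs, rfl⟩, by rw [suc_rho]; exact ⟨w, hw, rfl⟩⟩

/-- For `D = 0` trivial. For depth `D + 2` show by `GS.ind` both that `rho t` is good and that all
elements of `suc t k` are good (`rho t` has the generating sets `rho '' A k`). -/
theorem GS.good_both {t : Ty α N (D + 1)} (h : GS D t) :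
    Good D (rho D t) ∧ ∀ k, ∀ u ∈ suc t k, Good D u := by
  cases D with
  | zero => exact ⟨trivial, fun _ _ _ => trivial⟩
  | succ D =>
    refine GS.ind (P := fun t => Good (D + 1) (rho (D + 1) t) ∧
      ∀ k, ∀ u ∈ suc t k, Good (D + 1) u) ?_ t h
    intro t _ hA
    choose A hA hg using hA
    constructor
    · refine GS.mk t.1 (fun k => rho D '' (t.2 k)) (fun k => rho (D + 1) '' A k) ?_ ?_ ?_ ?_
      · intro k
        rw [bb_gen_rho, ← hg k]
        rfl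
      · rintro k _ ⟨s, hs, rfl⟩
        exact (hA k s hs).2.1
      · rintro k _ ⟨s, hs, rfl⟩ j hj
        rw [suc_rho, (hA k s hs).1.1.2 j hj]
        rfl
      · rintro k _ ⟨s, hs, rfl⟩ j hj
        exact ⟨_, (hA k s hs).1.2 j hj, rfl⟩
    · intro k u hu
      rw [hg k, bb_mem_gen] at hu
      rcases hu with ⟨s, hs, rfl⟩ | ⟨s, hs, hu⟩
      · exact (hA k s hs).2.1
      · exact (hA k s hs).2.2 k u hu

theorem GS.good_suc {t : Ty α N (D + 1)} (h : GS D t) {k : Fin N} {u : Ty α N D}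
    (hu : u ∈ suc t k) : Good D u := h.good_both.2 k u hu

theorem GS.good_rho {t : Ty α N (D + 1)} (h : GS D t) : Good D (rho D t) := h.good_both.1

/-- `S_k ⊆ S_j` for `j ≤ k`. -/
theorem GS.nested {t : Ty α N (D + 1)} (h : GS D t) {j k : Fin N} (hjk : j ≤ k) :
    suc t k ⊆ suc t j := by
  refine GS.ind (P := fun t => ∀ j k : Fin N, j ≤ k → suc t k ⊆ suc t j) ?_ t h j k hjk
  intro t _ hA j k hjk
  rcases hjk.eq_or_lt with rfl | hlt
  · exact subset_rfl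
  · obtain ⟨A, hA, hg⟩ := hA k
    intro u hu
    rw [hg, bb_mem_gen] at hu
    rcases hu with ⟨s, hs, rfl⟩ | ⟨s, hs, hu⟩
    · exact (hA s hs).1.2 j hlt
    · have h1 := (hA s hs).2 j k hjk hu
      rwa [(hA s hs).1.1.2 j hlt] at h1

theorem GS.suc_suc_lt {t : Ty α N (D + 2)} (h : GS (D + 1) t) {j k : Fin N} (hjk : j < k)
    {u : Ty α N (D + 1)} (hu : u ∈ suc t k) : suc u j = rho D '' suc t j := by
  refine GS.ind (P := fun t => ∀ j k : Fin N, j < k → ∀ u ∈ suc t k, suc u j = rho D '' suc t j)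
    ?_ t h j k hjk u hu
  intro t _ hA j k hjk u hu
  obtain ⟨A, hA, hg⟩ := hA k
  rw [hg, bb_mem_gen] at hu
  rcases hu with ⟨s, hs, rfl⟩ | ⟨s, hs, hu⟩
  · rw [suc_rho, (hA s hs).1.1.2 j hjk]
  · rw [(hA s hs).2 j k hjk u hu, (hA s hs).1.1.2 j hjk]

theorem GS.suc_suc_ge {t : Ty α N (D + 2)} (h : GS (D + 1) t) {j k : Fin N} (hjk : k ≤ j)
    {u : Ty α N (D + 1)} (hu : u ∈ suc t k) : suc u j ⊆ rho D '' suc t k := by
  refine GS.ind (P := fun t => ∀ j k : Fin N, k ≤ j → ∀ u ∈ suc t k, suc u j ⊆ rho D '' suc t k)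
    ?_ t h j k hjk u hu
  intro t _ hA j k hjk u hu
  obtain ⟨A, hA, hg⟩ := hA k
  have hsub : ∀ s ∈ A, suc s k ⊆ suc t k := by
    intro s hs w hw
    rw [hg, bb_mem_gen]
    exact Or.inr ⟨s, hs, hw⟩
  rw [hg, bb_mem_gen] at hu
  rcases hu with ⟨s, hs, rfl⟩ | ⟨s, hs, hu⟩
  · rw [suc_rho]
    exact Set.image_mono (((hA s hs).1.1.1.nested hjk).trans (hsub s hs))
  · exact ((hA s hs).2 j k hjk u hu).trans (Set.image_mono (hsub s hs))

end H94G
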