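import Pool.Agent.Lib.H94G.BasicB

/-!
# Basic facts about types, III: generated sets and contexts (chunk BC)
-/

namespace H94G

open Form

variable {α : Type} {N D : ℕ}

theorem bc_gen_union (k : Fin N) (A A' : Set (Ty α N (D + 1))) :
    gen k (A ∪ A') = gen k A ∪ gen k A' := by
  ext u
  simp only [bb_mem_gen, Set.mem_union]
  constructor
  · rintro (⟨s, hs | hs, h⟩ | ⟨s, hs | hs, h⟩)
    · exact Or.inl (Or.inl ⟨s, hs, h⟩)
    · exact Or.inr (Or.inl ⟨s, hs, h⟩)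
    · exact Or.inl (Or.inr ⟨s, hs, h⟩)
    · exact Or.inr (Or.inr ⟨s, hs, h⟩)
  · rintro ((⟨s, hs, h⟩ | ⟨s, hs, h⟩) | (⟨s, hs, h⟩ | ⟨s, hs, h⟩))
    · exact Or.inl ⟨s, Or.inl hs, h⟩
    · exact Or.inr ⟨s, Or.inl hs, h⟩
    · exact Or.inl ⟨s, Or.inr hs, h⟩
    · exact Or.inr ⟨s, Or.inr hs, h⟩

theorem bc_gen_single (k : Fin N) (t : Ty α N (D + 1)) :
    gen k {t} = {rho D t} ∪ suc t k := by
  ext u
  simp only [bb_mem_gen, Set.mem_union, Set.mem_singleton_iff, exists_eq_left]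
  exact or_congr eq_comm Iff.rfl

theorem GenAt.empty (c : Fin N → Set (Ty α N D)) (k : Fin N) : GenAt c k ∅ := by
  refine ⟨∅, fun t ht => absurd ht (Set.notMem_empty t), ?_⟩
  ext u
  simp [bb_mem_gen]

theorem GenAt.union {c : Fin N → Set (Ty α N D)} {k : Fin N} {L L' : Set (Ty α N D)}
    (h : GenAt c k L) (h' : GenAt c k L') : GenAt c k (L ∪ L') := by
  obtain ⟨A, hA, rfl⟩ := h
  obtain ⟨A', hA', rfl⟩ := h'
  refine ⟨A ∪ A', ?_, (bc_gen_union k A A').symm⟩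
  rintro t (ht | ht)
  · exact hA t ht
  · exact hA' t ht

theorem GenAt.insert {c : Fin N → Set (Ty α N D)} {k : Fin N} {L : Set (Ty α N D)}
    (h : GenAt c k L) {t : Ty α N (D + 1)} (ht : Realz c k t) :
    GenAt c k (L ∪ ({rho D t} ∪ suc t k)) := by
  refine h.union ⟨{t}, ?_, (bc_gen_single k t).symm⟩
  intro s hs
  rw [Set.mem_singleton_iff] at hs
  rw [hs]
  exact ht

theorem bc_realz_congr {c c' : Fin N → Set (Ty α N D)} {k : Fin N}
    (hc : ∀ j, j < k → c j = c' j) {t : Ty α N (D + 1)} (h : Realz c k t) : Realz c' k t := by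
  refine ⟨⟨h.1.1, fun j hj => ?_⟩, fun j hj => ?_⟩
  · rw [← hc j hj]; exact h.1.2 j hj
  · rw [← hc j hj]; exact h.2 j hj

theorem GenAt.congr {c c' : Fin N → Set (Ty α N D)} {k : Fin N}
    (hc : ∀ j, j < k → c j = c' j) (L : Set (Ty α N D)) : GenAt c k L ↔ GenAt c' k L := by
  constructor
  · rintro ⟨A, hA, h⟩
    exact ⟨A, fun t ht => bc_realz_congr hc (hA t ht), h⟩
  · rintro ⟨A, hA, h⟩
    exact ⟨A, fun t ht => bc_realz_congr (fun j hj => (hc j hj).symm) (hA t ht), h⟩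

theorem Ctx.congr {c c' : Fin N → Set (Ty α N D)} {m : ℕ}
    (hc : ∀ j : Fin N, (j : ℕ) < m → c j = c' j) : Ctx c m ↔ Ctx c' m := by
  refine forall_congr' fun k => forall_congr' fun hk => ?_
  rw [← hc k hk]
  exact GenAt.congr (fun j hj => hc j (lt_trans hj hk)) _

theorem Ctx.mono {c : Fin N → Set (Ty α N D)} {m m' : ℕ} (h : m' ≤ m) (hc : Ctx c m) :
    Ctx c m' := fun k hk => hc k (lt_of_lt_of_le hk h)

/-- A set generated at level `k` is contained in all earlier components of the context. -/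
theorem GenAt.subset {c : Fin N → Set (Ty α N D)} {j k : Fin N} (hjk : j < k)
    {L : Set (Ty α N D)} (h : GenAt c k L) : L ⊆ c j := by
  obtain ⟨A, hA, rfl⟩ := h
  intro u hu
  rcases bb_mem_gen.1 hu with ⟨s, hs, rfl⟩ | ⟨s, hs, hu⟩
  · exact (hA s hs).2 j hjk
  · have h1 := (hA s hs).1.1.nested hjk.le hu
    rwa [(hA s hs).1.2 j hjk] at h1

/-- Every element of a generated set is good. -/
theorem GenAt.good {c : Fin N → Set (Ty α N D)} {k : Fin N} {L : Set (Ty α N D)}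
    (h : GenAt c k L) {u : Ty α N D} (hu : u ∈ L) : Good D u := by
  obtain ⟨A, hA, rfl⟩ := h
  rcases bb_mem_gen.1 hu with ⟨s, hs, rfl⟩ | ⟨s, hs, hu⟩
  · exact (hA s hs).1.1.good_rho
  · exact (hA s hs).1.1.good_suc hu

/-- Extending the context by one more component. -/
theorem Ctx.update {c : Fin N → Set (Ty α N D)} {k : Fin N} (hc : Ctx c k)
    {L : Set (Ty α N D)} (h : GenAt c k L) : Ctx (Function.update c k L) (k + 1) := by
  intro k' hk'
  have hne : ∀ j : Fin N, j < k → c j = Function.update c k L j := fun j hj => by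
    rw [Function.update_of_ne hj.ne]
  rcases eq_or_ne k' k with rfl | hk
  · rw [Function.update_self]
    exact (GenAt.congr hne L).1 h
  · have hlt : k' < k := lt_of_le_of_ne (Nat.lt_succ_iff.1 hk') hk
    rw [Function.update_of_ne hk]
    exact (GenAt.congr (fun j hj => hne j (lt_trans hj hlt)) _).1 (hc k' hlt)

theorem bc_rep_aux (k : Fin N) (s : Ty α N (D + 1)) (hs : GS D s) :
    ∀ u ∈ suc s k, ∃ z : Ty α N (D + 1), Realz (suc s) k z ∧ rho D z = u ∧ suc z k ⊆ suc s k := by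
  refine GS.ind (P := fun s => ∀ u ∈ suc s k, ∃ z : Ty α N (D + 1),
    Realz (suc s) k z ∧ rho D z = u ∧ suc z k ⊆ suc s k) ?_ s hs
  intro s _ hA u hu
  obtain ⟨A, hA, hg⟩ := hA k
  have hsub : ∀ s' ∈ A, suc s' k ⊆ suc s k := by
    intro s' hs' w hw
    rw [hg, bb_mem_gen]
    exact Or.inr ⟨s', hs', hw⟩
  rw [hg, bb_mem_gen] at hu
  rcases hu with ⟨s', hs', rfl⟩ | ⟨s', hs', hu⟩
  · exact ⟨s', (hA s' hs').1, rfl, hsub s' hs'⟩
  · obtain ⟨z, hz1, hz2, hz3⟩ := (hA s' hs').2 u hu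
    exact ⟨z, bc_realz_congr (fun j hj => (hA s' hs').1.1.2 j hj) hz1, hz2,
      hz3.trans (hsub s' hs')⟩

/-- Every element of a generated set is the truncation of a realized generated type. With
`L = gen k A`: if `u = rho s`, `s ∈ A`, take `z = s`; if `u ∈ suc s k`, use (by `GS.ind` on `s`) the
statement for `suc s k`, which is generated over `suc s`, i.e. over `c`, at level `k`. -/
theorem GenAt.exists_rep {c : Fin N → Set (Ty α N D)} {k : Fin N} {L : Set (Ty α N D)}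
    (h : GenAt c k L) {u : Ty α N D} (hu : u ∈ L) :
    ∃ z : Ty α N (D + 1), Realz c k z ∧ rho D z = u ∧ suc z k ⊆ L := by
  obtain ⟨A, hA, rfl⟩ := h
  have hsub : ∀ s ∈ A, suc s k ⊆ gen k A := fun s hs w hw => bb_mem_gen.2 (Or.inr ⟨s, hs, hw⟩)
  rcases bb_mem_gen.1 hu with ⟨s, hs, rfl⟩ | ⟨s, hs, hu⟩
  · exact ⟨s, hA s hs, rfl, hsub s hs⟩
  · obtain ⟨z, hz1, hz2, hz3⟩ := bc_rep_aux k s (hA s hs).1.1 u hu
    exact ⟨z, bc_realz_congr (fun j hj => (hA s hs).1.2 j hj) hz1, hz2, hz3.trans (hsub s hs)⟩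

end H94G
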