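import Pool.Agent.Lib.H94G.Types

/-!
# Certificates: finite trees of contexts (definitions)

Nodes have levels `0, ..., N`. A node `x` of level `m + 1` carries the set `T x ⊆ V` (the set of the
valuations of the `[m]`-successors), a node `x` of level `N` (leaf) carries sets
`U x 0 ⊇ U x 1 ⊇ ... ⊇ U x N` of valuations (`U x j`: the points over `x` which are realized in the
levels `< j`).
-/

namespace H94G

/-- The data of a certificate. -/
structure PreCert (N : ℕ) (V : Type) where
  /-- nodes -/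
  Nd : Type
  /-- level of a node -/
  lev : Nd → ℕ
  /-- ancestor of `x` at level `j ≤ lev x` -/
  anc : Nd → ℕ → Nd
  /-- the root -/
  root : Nd
  /-- label of a node of positive level -/
  T : Nd → Set V
  /-- labels of a leaf -/
  U : Nd → ℕ → Set V
  /-- time -/
  τ : Nd → ℕ

namespace PreCert

variable {N : ℕ} {V : Type} (C : PreCert N V)

/-- `x` is a child, of level `m + 1`, of `s`. -/
def Child (m : ℕ) (s x : C.Nd) : Prop := C.lev x = m + 1 ∧ C.anc x m = s

/-- The set `S` is generated at the node `s` of level `m` by leaves with property `P`. -/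
def GenBy (P : C.Nd → Prop) (s : C.Nd) (m : ℕ) (S : Set V) : Prop :=
  ∀ w ∈ S, ∃ l v, P l ∧ C.lev l = N ∧ C.anc l m = s ∧ v ∈ C.U l m ∧ v ∈ S ∧
    C.T (C.anc l (m + 1)) ⊆ S ∧ (w = v ∨ w ∈ C.T (C.anc l (m + 1)))

/-- `x` is a good node of level `m + 1`. -/
def GoodAt (m : ℕ) (x : C.Nd) : Prop :=
  ∀ l, C.lev l = N → C.anc l (m + 1) = x → ∀ v, v ∈ C.U l m → v ∈ C.T x → v ∈ C.U l (m + 1)

/-- The profiles `(v; S_0, ..., S_{N-1})` of a certificate. -/
def prof : Set (V × (Fin N → Set V)) :=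
  {q | ∃ l, C.lev l = N ∧ q.1 ∈ C.U l 0 ∧ ∀ k : Fin N, q.2 k = C.T (C.anc l (k + 1))}

/-- The axioms of a certificate. -/
structure IsCert : Prop where
  fin : Finite C.Nd
  lev_le : ∀ x, C.lev x ≤ N
  lev_root : C.lev C.root = 0
  root_uniq : ∀ x, C.lev x = 0 → x = C.root
  anc_self : ∀ x, C.anc x (C.lev x) = x
  lev_anc : ∀ x j, j ≤ C.lev x → C.lev (C.anc x j) = j
  anc_anc : ∀ x i j, i ≤ j → j ≤ C.lev x → C.anc (C.anc x j) i = C.anc x i
  U_ne : ∀ l, C.lev l = N → (C.U l 0).Nonempty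
  U_anti : ∀ l j, C.lev l = N → j < N → C.U l (j + 1) ⊆ C.U l j
  U_sub : ∀ l j, C.lev l = N → j < N → C.U l (j + 1) ⊆ C.T (C.anc l (j + 1))
  /-- every generated set has a good child -/
  legit : ∀ s m S, C.lev s = m → m < N → C.GenBy (fun _ => True) s m S →
    ∃ x, C.Child m s x ∧ C.T x = S ∧ C.GoodAt m x
  /-- the child with empty label is unique -/
  empty_uniq : ∀ m s x y, C.Child m s x → C.Child m s y → C.T x = ∅ → C.T y = ∅ → x = y
  τ_inj : Function.Injective C.τ
  τ_anc : ∀ x m, C.lev x = m + 1 → C.τ (C.anc x m) < C.τ x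
  /-- every label is generated by leaves of smaller time -/
  avail : ∀ x m, C.lev x = m + 1 → C.GenBy (fun l => C.τ l < C.τ x) (C.anc x m) m (C.T x)

end PreCert

/-- The profiles `(g t; g '' S_0, ..., g '' S_{N-1})` of the good types `t` of depth `D + 1` (with
`N' ≥ N` modalities) under a map `g` defined on the types of depth `D`. -/
def realz {α : Type} {N' D : ℕ} {V : Type} (g : Ty α N' D → V) {N : ℕ} (h : N ≤ N') :
    Set (V × (Fin N → Set V)) :=
  {q | ∃ t : Ty α N' (D + 1), GS D t ∧ q.1 = g (rho D t) ∧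
    ∀ k : Fin N, q.2 k = g '' suc t (Fin.castLE h k)}

end H94G
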