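import Mathlib

/-!
# GLP: syntax, the Hilbert system, admissible rules, Goedel numbers

Everything the final statement uses is in this file.
-/

namespace H94G

/-- Modal formulas over the set `α` of variables: variables, falsum, implication and the modalities
`[n]`, `n : ℕ`. -/
inductive Form (α : Type) : Type
  | var : α → Form α
  | bot : Form α
  | imp : Form α → Form α → Form α
  | box : ℕ → Form α → Form α

namespace Form

variable {α β : Type}

/-- Negation. -/
def neg (φ : Form α) : Form α := imp φ bot

/-- `⟨n⟩φ = ¬[n]¬φ`. -/
def dia (n : ℕ) (φ : Form α) : Form α := neg (box n (neg φ))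

/-- Simultaneous substitution. -/
def subst (σ : α → Form β) : Form α → Form β
  | var a => σ a
  | bot => bot
  | imp φ ψ => imp (subst σ φ) (subst σ ψ)
  | box n φ => box n (subst σ φ)

/-- Truth value of a formula for a valuation `v` of the atoms, where all variables and all formulas
`[n]φ` count as atoms. -/
def evalP (v : Form α → Prop) : Form α → Prop
  | var a => v (var a)
  | bot => False
  | imp φ ψ => evalP v φ → evalP v ψ
  | box n φ => v (box n φ)

/-- Propositional tautologies (in the modal language). -/
def Taut (φ : Form α) : Prop := ∀ v : Form α → Prop, evalP v φ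

/-- Goedel number of a formula over the variables `p_0, p_1, ...` -/
def code : Form ℕ → ℕ
  | bot => 0
  | var i => 3 * i + 1
  | imp φ ψ => 3 * Nat.pair (code φ) (code ψ) + 2
  | box n φ => 3 * Nat.pair n (code φ) + 3

/-- The formula with a given Goedel number. -/
def ofCode : ℕ → Form ℕ
  | 0 => bot
  | (k + 1) =>
    if k % 3 = 0 then var (k / 3)
    else if k % 3 = 1 then imp (ofCode (k / 3).unpair.1) (ofCode (k / 3).unpair.2)
    else box (k / 3).unpair.1 (ofCode (k / 3).unpair.2)
termination_by k => k
decreasing_by
  · have h1 := Nat.unpair_left_le (k / 3)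
    omega
  · have h1 := Nat.unpair_right_le (k / 3)
    omega
  · have h1 := Nat.unpair_right_le (k / 3)
    omega

end Form

open Form

/-- Japaridze's polymodal provability logic GLP: the least set of formulas containing the
tautologies and the four axiom schemes, closed under modus ponens and `φ / [0]φ`. -/
inductive GLP {α : Type} : Form α → Prop
  | taut (φ : Form α) : Taut φ → GLP φ
  | K (n : ℕ) (φ ψ : Form α) : GLP (imp (box n (imp φ ψ)) (imp (box n φ) (box n ψ)))
  | lob (n : ℕ) (φ : Form α) : GLP (imp (box n (imp (box n φ) φ)) (box n φ))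
  | mono (m n : ℕ) (φ : Form α) : m < n → GLP (imp (box m φ) (box n φ))
  | negintro (m n : ℕ) (φ : Form α) : m < n → GLP (imp (dia m φ) (box n (dia m φ)))
  | mp (φ ψ : Form α) : GLP (imp φ ψ) → GLP φ → GLP ψ
  | nec (φ : Form α) : GLP φ → GLP (box 0 φ)

/-- The rule `φ / ψ` is admissible in GLP. -/
def Admissible (φ ψ : Form ℕ) : Prop :=
  ∀ σ : ℕ → Form ℕ, GLP (subst σ φ) → GLP (subst σ ψ)

end H94G
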