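import Pool.Agent.Lib.H94G.Cert
import Pool.Agent.Lib.H94G.Syntax

/-!
# Digits, coherent values and certificates for rules (definitions)

Values are numbers `v < 2 ^ (M + 1)`, read as sets of numbers `≤ M` by their binary digits (`mem v i`);
the numbers `≤ M` are the codes of formulas.
-/

namespace H94G

open Form

/-- The digit of `c` at place `i` in base `b`. -/
def dig (b c i : ℕ) : ℕ := c / b ^ i % b

/-- `i` belongs to the set coded by `v`. -/
def mem (v i : ℕ) : Prop := dig 2 v i = 1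

/-- The value `v` is coherent with the successor sets `S`. -/
def Coh (M : ℕ) (v : Fin (2 ^ (M + 1))) (S : Fin (M + 1) → Set (Fin (2 ^ (M + 1)))) : Prop :=
  ¬ mem v 0 ∧
  (∀ x y : ℕ, 3 * Nat.pair x y + 2 ≤ M →
    (mem v (3 * Nat.pair x y + 2) ↔ (mem v x → mem v y))) ∧
  (∀ (k : Fin (M + 1)) (y : ℕ), 3 * Nat.pair k y + 3 ≤ M →
    (mem v (3 * Nat.pair k y + 3) ↔ ∀ u ∈ S k, mem u y))

/-- `C` certifies that the rule with the codes `a / b` is not admissible (`a, b ≤ M`). -/
def CertFor (M a b : ℕ) (C : PreCert (M + 1) (Fin (2 ^ (M + 1)))) : Prop :=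
  C.IsCert ∧ (∀ q ∈ C.prof, Coh M q.1 q.2 ∧ mem q.1 a) ∧ ∃ q ∈ C.prof, ¬ mem q.1 b

end H94G
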