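import Pool.Agent.Lib.H94G.Cert

/-!
# Small certificates: nested codes (chunk CA)

For a node `x` of level `N - k` let `cd k x : NT k` be
`cd 0 x = (T x, U x 0, ..., U x N)`, `cd (k+1) x = (T x, {cd k y | y child of x})`.
Let `x ~ y` (`Rel x y`) iff `lev x = lev y` and `cd (N - j) (anc x j) = cd (N - j) (anc y j)` for all
`j ≤ lev x`. LIFTING: if `s ~ s'`, `lev s = m`, `anc z m = s` (`m ≤ lev z`), there is `z' ~ z` with
`anc z' m = s'` (for children by the definition of `cd (k+1)`, then by induction on `lev z - m`).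
-/

namespace H94G

/-- Nested codes. -/
def NT (V : Type) (N : ℕ) : ℕ → Type
  | 0 => Set V × (Fin (N + 1) → Set V)
  | k + 1 => Set V × Set (NT V N k)

namespace PreCert

variable {N : ℕ} {V : Type} (C : PreCert N V)

/-- The nested code of a node of level `N - k`. -/
def cd : (k : ℕ) → C.Nd → NT V N k
  | 0, x => (C.T x, fun j => C.U x j)
  | k + 1, x => (C.T x, cd k '' {y | C.Child (N - (k + 1)) x y})

/-- Equivalent nodes. -/
def Rel (x y : C.Nd) : Prop :=
  C.lev x = C.lev y ∧ ∀ j ≤ C.lev x, C.cd (N - j) (C.anc x j) = C.cd (N - j) (C.anc y j)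

variable {C}

theorem Rel.refl (x : C.Nd) : C.Rel x x := ⟨rfl, fun _ _ => rfl⟩

theorem Rel.symm {x y : C.Nd} (h : C.Rel x y) : C.Rel y x :=
  ⟨h.1.symm, fun j hj => (h.2 j (by rw [h.1]; exact hj)).symm⟩

theorem Rel.trans {x y z : C.Nd} (h : C.Rel x y) (h' : C.Rel y z) : C.Rel x z :=
  ⟨h.1.trans h'.1, fun j hj => (h.2 j hj).trans (h'.2 j (by rw [← h.1]; exact hj))⟩

theorem Rel.anc (hC : C.IsCert) {x y : C.Nd} (h : C.Rel x y) {j : ℕ} (hj : j ≤ C.lev x) :
    C.Rel (C.anc x j) (C.anc y j) := by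
  have hj' : j ≤ C.lev y := by rw [← h.1]; exact hj
  refine ⟨by rw [hC.lev_anc x j hj, hC.lev_anc y j hj'], fun i hi => ?_⟩
  rw [hC.lev_anc x j hj] at hi
  rw [hC.anc_anc x i j hi hj, hC.anc_anc y i j hi hj']
  exact h.2 i (hi.trans hj)

theorem cd_T {k : ℕ} {x y : C.Nd} (h : C.cd k x = C.cd k y) : C.T x = C.T y := by
  cases k with
  | zero => exact congrArg Prod.fst h
  | succ k => exact congrArg Prod.fst h

theorem Rel.T_eq (hC : C.IsCert) {x y : C.Nd} (h : C.Rel x y) : C.T x = C.T y := by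
  have h1 := h.2 (C.lev x) le_rfl
  rw [hC.anc_self x] at h1
  have h2 : C.anc y (C.lev x) = y := by rw [h.1]; exact hC.anc_self y
  rw [h2] at h1
  exact cd_T h1

theorem Rel.U_eq (hC : C.IsCert) {x y : C.Nd} (h : C.Rel x y) (hx : C.lev x = N) {j : ℕ}
    (hj : j ≤ N) : C.U x j = C.U y j := by
  have h1 := h.2 (C.lev x) le_rfl
  rw [hC.anc_self x] at h1
  have h2 : C.anc y (C.lev x) = y := by rw [h.1]; exact hC.anc_self y
  rw [h2, hx, Nat.sub_self] at h1
  have h3 := congrFun (congrArg Prod.snd h1) ⟨j, Nat.lt_succ_of_le hj⟩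
  exact h3

theorem Rel.lift_child (hC : C.IsCert) {s s' : C.Nd} (h : C.Rel s s') {m : ℕ} {x : C.Nd}
    (hx : C.Child m s x) : ∃ x', C.Child m s' x' ∧ C.Rel x x' := by
  obtain ⟨hx1, hx2⟩ := hx
  have hs : C.lev s = m := by
    rw [← hx2]
    exact hC.lev_anc x m (by omega)
  have hs' : C.lev s' = m := by rw [← h.1]; exact hs
  have hmN : m + 1 ≤ N := by rw [← hx1]; exact hC.lev_le x
  obtain ⟨k, hk⟩ : ∃ k, N = k + (m + 1) := ⟨N - (m + 1), by omega⟩
  have h1 := h.2 m (by omega)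
  have ha : C.anc s m = s := by conv_lhs => rw [← hs]; exact hC.anc_self s
  have ha' : C.anc s' m = s' := by conv_lhs => rw [← hs']; exact hC.anc_self s'
  rw [ha, ha'] at h1
  have hk1 : N - m = k + 1 := by omega
  have hk2 : N - (k + 1) = m := by omega
  have hk3 : N - (m + 1) = k := by omega
  rw [hk1] at h1
  have h2 : C.cd k '' {y | C.Child (N - (k + 1)) s y} = C.cd k '' {y | C.Child (N - (k + 1)) s' y} :=
    congrArg Prod.snd h1
  rw [hk2] at h2
  have h3 : C.cd k x ∈ C.cd k '' {y | C.Child m s y} := ⟨x, ⟨hx1, hx2⟩, rfl⟩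
  rw [h2] at h3
  obtain ⟨x', ⟨hx'1, hx'2⟩, hx'3⟩ := h3
  refine ⟨x', ⟨hx'1, hx'2⟩, ⟨by rw [hx1, hx'1], fun j hj => ?_⟩⟩
  rw [hx1] at hj
  rcases Nat.lt_or_ge j (m + 1) with hj2 | hj2
  · have h4 : C.anc x j = C.anc s j := by
      rw [← hx2, hC.anc_anc x j m (by omega) (by omega)]
    have h5 : C.anc x' j = C.anc s' j := by
      rw [← hx'2, hC.anc_anc x' j m (by omega) (by omega)]
    rw [h4, h5]
    exact h.2 j (by omega)
  · have h4 : j = m + 1 := by omega
    subst h4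
    have h5 : C.anc x (m + 1) = x := by conv_lhs => rw [← hx1]; exact hC.anc_self x
    have h6 : C.anc x' (m + 1) = x' := by conv_lhs => rw [← hx'1]; exact hC.anc_self x'
    rw [h5, h6, hk3]
    exact hx'3.symm

theorem Rel.lift (hC : C.IsCert) {s s' z : C.Nd} (h : C.Rel s s') (hz : C.lev s ≤ C.lev z)
    (hs : C.anc z (C.lev s) = s) : ∃ z', C.Rel z z' ∧ C.anc z' (C.lev s) = s' := by
  obtain ⟨d, hd⟩ := Nat.exists_eq_add_of_le hz
  induction d generalizing s s' with
  | zero =>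
    have h1 : z = s := by
      have h2 := hC.anc_self z
      rw [hd, Nat.add_zero, hs] at h2
      exact h2.symm
    subst h1
    refine ⟨s', h, ?_⟩
    rw [h.1]
    exact hC.anc_self s'
  | succ d ih =>
    have hc : C.Child (C.lev s) s (C.anc z (C.lev s + 1)) := by
      refine ⟨hC.lev_anc z _ (by omega), ?_⟩
      rw [hC.anc_anc z _ _ (by omega) (by omega)]
      exact hs
    obtain ⟨x', hx', hr⟩ := h.lift_child hC hc
    have hl : C.lev (C.anc z (C.lev s + 1)) = C.lev s + 1 := hc.1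
    obtain ⟨z', hz', hz2⟩ := ih hr (by omega) (by rw [hl]) (by omega)
    refine ⟨z', hz', ?_⟩
    rw [hl] at hz2
    have h3 : C.lev z' = C.lev z := hz'.1.symm
    rw [← hC.anc_anc z' (C.lev s) (C.lev s + 1) (by omega) (by omega), hz2]
    exact hx'.2

/-- Representatives: the node of an equivalence class with the least time. -/
theorem exists_rep (C : PreCert N V) (x : C.Nd) :
    ∃ y, C.Rel x y ∧ ∀ z, C.Rel x z → C.τ y ≤ C.τ z := by
  have h : ∃ n, ∃ y, C.Rel x y ∧ C.τ y = n := ⟨_, x, Rel.refl x, rfl⟩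
  classical
  obtain ⟨y, hy, hy2⟩ := Nat.find_spec h
  exact ⟨y, hy, fun z hz => by rw [hy2]; exact Nat.find_min' h ⟨z, hz, rfl⟩⟩

/-- The representative of `x`. -/
noncomputable def rep (C : PreCert N V) (x : C.Nd) : C.Nd := Classical.choose (C.exists_rep x)

theorem rel_rep (x : C.Nd) : C.Rel x (C.rep x) := (Classical.choose_spec (C.exists_rep x)).1

theorem rep_min {x y : C.Nd} (h : C.Rel x y) : C.τ (C.rep x) ≤ C.τ y :=
  (Classical.choose_spec (C.exists_rep x)).2 y h

theorem rep_eq (hC : C.IsCert) {x y : C.Nd} (h : C.Rel x y) : C.rep x = C.rep y :=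
  hC.τ_inj (le_antisymm (rep_min (h.trans (rel_rep y))) (rep_min (h.symm.trans (rel_rep x))))

theorem rel_of_rep {x y : C.Nd} (h : C.rep x = C.rep y) : C.Rel x y := by
  have h1 := rel_rep (C := C) x
  rw [h] at h1
  exact h1.trans (rel_rep y).symm

end PreCert

end H94G
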