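import Pool.Agent.Lib.H94G.CollA

/-!
# Small certificates: the collapsed certificate (chunk CB)

Nodes: the representatives `x = rep x`; `anc' x j = rep (anc x j)`, the other data restricted.
- `anc' (anc' x j) i = rep (anc (rep (anc x j)) i) = rep (anc (anc x j) i)`.
- legit: `GenBy` at `s` in `C'` gives `GenBy` at `s` in `C` (a leaf `l` with `rep (anc l m) = s` is
  lifted to `l' ~ l` with `anc l' m = s`); a good child `x` of `s` in `C` gives the good child `rep x`
  in `C'` (`GoodAt`: a leaf `l` with `anc l (m+1) ~ x` is lifted to `l' ~ l` with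
  `anc l' (m+1) = x`).
- empty_uniq: lift both children to children of `s` in `C`; they are equal, so the given ones are
  equivalent, hence equal.
- τ_anc: `τ (rep (anc x m)) ≤ τ (anc x m) < τ x`.
- avail: replace every leaf `l` by `rep l`, `τ (rep l) ≤ τ l < τ x`.
- profiles: replace `l` by `rep l`.
-/

namespace H94G

namespace PreCert

variable {N : ℕ} {V : Type}

/-- The collapsed certificate. -/
noncomputable def coll (C : PreCert N V) (hC : C.IsCert) : PreCert N V where
  Nd := {x : C.Nd // C.rep x = x}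
  lev x := C.lev x.1
  anc x j := ⟨C.rep (C.anc x.1 j), rep_eq hC (rel_rep _).symm⟩
  root := ⟨C.rep C.root, rep_eq hC (rel_rep _).symm⟩
  T x := C.T x.1
  U x := C.U x.1
  τ x := C.τ x.1

theorem coll_isCert (C : PreCert N V) (hC : C.IsCert) : (C.coll hC).IsCert where
  fin := by
    have := hC.fin
    exact Subtype.finite
  lev_le x := hC.lev_le x.1
  lev_root := by
    show C.lev (C.rep C.root) = 0
    rw [← (rel_rep C.root).1]
    exact hC.lev_root
  root_uniq x hx := by
    apply Subtype.ext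
    show x.1 = C.rep C.root
    have h1 : x.1 = C.root := hC.root_uniq x.1 hx
    rw [← h1]
    exact x.2.symm
  anc_self x := by
    apply Subtype.ext
    show C.rep (C.anc x.1 (C.lev x.1)) = x.1
    rw [hC.anc_self]
    exact x.2
  lev_anc x j hj := by
    show C.lev (C.rep (C.anc x.1 j)) = j
    rw [← (rel_rep (C.anc x.1 j)).1]
    exact hC.lev_anc x.1 j hj
  anc_anc x i j hij hj := by
    apply Subtype.ext
    show C.rep (C.anc (C.rep (C.anc x.1 j)) i) = C.rep (C.anc x.1 i)
    have h1 : C.lev (C.anc x.1 j) = j := hC.lev_anc x.1 j hj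
    have h2 := (rel_rep (C.anc x.1 j)).anc hC (j := i) (by omega)
    rw [← rep_eq hC h2, hC.anc_anc x.1 i j hij hj]
  U_ne l hl := hC.U_ne l.1 hl
  U_anti l j hl hj := hC.U_anti l.1 j hl hj
  U_sub l j hl hj := by
    show C.U l.1 (j + 1) ⊆ C.T (C.rep (C.anc l.1 (j + 1)))
    rw [← (rel_rep (C.anc l.1 (j + 1))).T_eq hC]
    exact hC.U_sub l.1 j hl hj
  legit s m S hs hm hG := by
    have hs1 : C.lev s.1 = m := hs
    have h1 : C.GenBy (fun _ => True) s.1 m S := by
      intro w hw
      obtain ⟨l, v, -, hl, hls, hv, hvS, hT, hwv⟩ := hG w hw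
      have hl1 : C.lev l.1 = N := hl
      have h2 : C.rep (C.anc l.1 m) = s.1 := congrArg Subtype.val hls
      have h3 : C.Rel (C.anc l.1 m) s.1 := by
        have h4 := rel_rep (C := C) (C.anc l.1 m)
        rw [h2] at h4
        exact h4
      have h5 : C.lev (C.anc l.1 m) = m := hC.lev_anc l.1 m (by omega)
      obtain ⟨z', hz1, hz2⟩ := h3.lift hC (z := l.1) (by omega) (by rw [h5])
      rw [h5] at hz2
      have h6 : C.lev z' = N := by rw [← hz1.1]; exact hl1
      have h7 : C.T (C.anc z' (m + 1)) = C.T (C.rep (C.anc l.1 (m + 1))) := by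
        rw [← (rel_rep (C.anc l.1 (m + 1))).T_eq hC]
        exact ((hz1.anc hC (j := m + 1) (by omega)).T_eq hC).symm
      refine ⟨z', v, trivial, h6, hz2, ?_, hvS, ?_, ?_⟩
      · rw [← hz1.U_eq hC hl1 hm.le]
        exact hv
      · rw [h7]
        exact hT
      · rw [h7]
        exact hwv
    obtain ⟨x, hx, hxT, hxG⟩ := hC.legit s.1 m S hs1 hm h1
    have hrx := rel_rep (C := C) x
    refine ⟨⟨C.rep x, (rep_eq hC hrx).symm⟩, ⟨?_, ?_⟩, ?_, ?_⟩
    · show C.lev (C.rep x) = m + 1
      rw [← hrx.1]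
      exact hx.1
    · apply Subtype.ext
      show C.rep (C.anc (C.rep x) m) = s.1
      rw [← rep_eq hC (hrx.anc hC (j := m) (by rw [hx.1]; omega)), hx.2]
      exact s.2
    · show C.T (C.rep x) = S
      rw [← hrx.T_eq hC]
      exact hxT
    · intro l hl hlx v hv hvT
      have hl1 : C.lev l.1 = N := hl
      have h2 : C.rep (C.anc l.1 (m + 1)) = C.rep x := congrArg Subtype.val hlx
      have h3 : C.Rel (C.anc l.1 (m + 1)) x := rel_of_rep h2
      have h5 : C.lev (C.anc l.1 (m + 1)) = m + 1 := hC.lev_anc l.1 (m + 1) (by omega)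
      obtain ⟨z', hz1, hz2⟩ := h3.lift hC (z := l.1) (by omega) (by rw [h5])
      rw [h5] at hz2
      have h6 : C.lev z' = N := by rw [← hz1.1]; exact hl1
      show v ∈ C.U l.1 (m + 1)
      rw [hz1.U_eq hC hl1 (by omega)]
      apply hxG z' h6 hz2 v
      · rw [← hz1.U_eq hC hl1 hm.le]
        exact hv
      · rw [hrx.T_eq hC]
        exact hvT
  empty_uniq m s x y hx hy hTx hTy := by
    have key : ∀ z : (C.coll hC).Nd, (C.coll hC).Child m s z → ∃ z1, C.Rel z.1 z1 ∧
        C.Child m s.1 z1 ∧ C.T z1 = C.T z.1 := by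
      intro z hz
      have h1 : C.lev z.1 = m + 1 := hz.1
      have h2 : C.rep (C.anc z.1 m) = s.1 := congrArg Subtype.val hz.2
      have h3 : C.Rel (C.anc z.1 m) s.1 := by
        have h4 := rel_rep (C := C) (C.anc z.1 m)
        rw [h2] at h4
        exact h4
      have h5 : C.lev (C.anc z.1 m) = m := hC.lev_anc z.1 m (by omega)
      obtain ⟨z', hz1, hz2⟩ := h3.lift hC (z := z.1) (by omega) (by rw [h5])
      rw [h5] at hz2
      exact ⟨z', hz1, ⟨by rw [← hz1.1]; exact h1, hz2⟩, (hz1.T_eq hC).symm⟩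
    obtain ⟨x1, hx1, hx2, hx3⟩ := key x hx
    obtain ⟨y1, hy1, hy2, hy3⟩ := key y hy
    have h1 : x1 = y1 := hC.empty_uniq m s.1 x1 y1 hx2 hy2 (by rw [hx3]; exact hTx)
      (by rw [hy3]; exact hTy)
    subst h1
    apply Subtype.ext
    rw [← x.2, ← y.2]
    exact rep_eq hC (hx1.trans hy1.symm)
  τ_inj x y h := Subtype.ext (hC.τ_inj h)
  τ_anc x m hx := by
    show C.τ (C.rep (C.anc x.1 m)) < C.τ x.1
    exact lt_of_le_of_lt (rep_min (Rel.refl _)) (hC.τ_anc x.1 m hx)
  avail x m hx := by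
    intro w hw
    have hx1 : C.lev x.1 = m + 1 := hx
    have hmN : m + 1 ≤ N := by rw [← hx1]; exact hC.lev_le x.1
    obtain ⟨l, v, hτ, hl, hls, hv, hvS, hT, hwv⟩ := hC.avail x.1 m hx w hw
    have hrl := rel_rep (C := C) l
    have hlr : C.lev (C.rep l) = N := by rw [← hrl.1]; exact hl
    have h7 : C.T (C.rep (C.anc (C.rep l) (m + 1))) = C.T (C.anc l (m + 1)) := by
      rw [← (rel_rep (C.anc (C.rep l) (m + 1))).T_eq hC]
      exact ((hrl.anc hC (j := m + 1) (by omega)).T_eq hC).symm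
    refine ⟨⟨C.rep l, (rep_eq hC hrl).symm⟩, v, ?_, hlr, ?_, ?_, hvS, ?_, ?_⟩
    · show C.τ (C.rep l) < C.τ x.1
      exact lt_of_le_of_lt (rep_min (Rel.refl _)) hτ
    · apply Subtype.ext
      show C.rep (C.anc (C.rep l) m) = C.rep (C.anc x.1 m)
      rw [← rep_eq hC (hrl.anc hC (j := m) (by omega)), hls]
    · show v ∈ C.U (C.rep l) m
      rw [← hrl.U_eq hC hl (by omega)]
      exact hv
    · show C.T (C.rep (C.anc (C.rep l) (m + 1))) ⊆ C.T x.1
      rw [h7]
      exact hT
    · show w = v ∨ w ∈ C.T (C.rep (C.anc (C.rep l) (m + 1)))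
      rw [h7]
      exact hwv

theorem coll_prof (C : PreCert N V) (hC : C.IsCert) : (C.coll hC).prof = C.prof := by
  ext q
  constructor
  · rintro ⟨l, hl, hq1, hq2⟩
    refine ⟨l.1, hl, hq1, fun k => ?_⟩
    rw [hq2 k]
    exact ((rel_rep (C.anc l.1 (k + 1))).T_eq hC).symm
  · rintro ⟨l, hl, hq1, hq2⟩
    have hrl := rel_rep (C := C) l
    refine ⟨⟨C.rep l, (rep_eq hC hrl).symm⟩, ?_, ?_, fun k => ?_⟩
    · show C.lev (C.rep l) = N
      rw [← hrl.1]
      exact hl
    · show q.1 ∈ C.U (C.rep l) 0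
      rw [← hrl.U_eq hC hl (Nat.zero_le _)]
      exact hq1
    · rw [hq2 k]
      show C.T (C.anc l (k + 1)) = C.T (C.rep (C.anc (C.rep l) (k + 1)))
      rw [← (rel_rep (C.anc (C.rep l) (k + 1))).T_eq hC]
      exact (hrl.anc hC (j := k + 1) (by have := k.2; omega)).T_eq hC

end PreCert

end H94G
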