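import Pool.Agent.Lib.H94G.CollB

/-!
# Small certificates: the number of nodes (chunk CC)

The map `x ↦ (lev x, j ↦ cd (N - j) (anc x j))` is injective on the representatives, with values in
`Fin (N + 1) × Π j : Fin (N + 1), NT (N - j)`; `NT V N k` has at most `nt (card V) N k` elements, which
is increasing in `k`.
-/

namespace H94G

/-- Numbers of the nested codes, `w` is the number of the values. -/
def nt (w N : ℕ) : ℕ → ℕ
  | 0 => 2 ^ w * (2 ^ w) ^ (N + 1)
  | k + 1 => 2 ^ w * 2 ^ nt w N k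

/-- Bound for the number of nodes. -/
def bnd (N w : ℕ) : ℕ := (N + 1) * nt w N N ^ (N + 1)

theorem nt_mono (w N : ℕ) : Monotone (nt w N) := by
  apply monotone_nat_of_le_succ
  intro k
  show nt w N k ≤ 2 ^ w * 2 ^ nt w N k
  calc nt w N k ≤ 2 ^ nt w N k := (Nat.lt_two_pow_self).le
    _ ≤ 2 ^ w * 2 ^ nt w N k := Nat.le_mul_of_pos_left _ (by positivity)

theorem NT_fin (V : Type) [Finite V] (N : ℕ) : ∀ k, Finite (NT V N k)
  | 0 => by
    show Finite (Set V × (Fin (N + 1) → Set V))
    infer_instance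
  | k + 1 => by
    have := NT_fin V N k
    show Finite (Set V × Set (NT V N k))
    infer_instance

theorem card_set (W : Type) [Finite W] : Nat.card (Set W) = 2 ^ Nat.card W := by
  have : Nat.card (Set W) = Nat.card (W → Prop) := rfl
  rw [this, Nat.card_fun]
  simp

theorem NT_card (V : Type) [Finite V] (N : ℕ) : ∀ k, Nat.card (NT V N k) = nt (Nat.card V) N k
  | 0 => by
    show Nat.card (Set V × (Fin (N + 1) → Set V)) = 2 ^ Nat.card V * (2 ^ Nat.card V) ^ (N + 1)
    rw [Nat.card_prod, Nat.card_fun, card_set]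
    simp
  | k + 1 => by
    have := NT_fin V N k
    show Nat.card (Set V × Set (NT V N k)) = 2 ^ Nat.card V * 2 ^ nt (Nat.card V) N k
    rw [Nat.card_prod, card_set, card_set, NT_card V N k]

theorem card_le {N : ℕ} {V : Type} [Finite V] (C : PreCert N V) (hC : C.IsCert) :
    Nat.card (C.coll hC).Nd ≤ bnd N (Nat.card V) := by
  classical
  have hNT := NT_fin V N
  let f : (C.coll hC).Nd → Fin (N + 1) × ((j : Fin (N + 1)) → NT V N (N - j)) := fun x =>
    (⟨C.lev x.1, Nat.lt_succ_of_le (hC.lev_le x.1)⟩, fun j => C.cd (N - j) (C.anc x.1 j))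
  have hf : Function.Injective f := by
    intro x y h
    have h1 : C.lev x.1 = C.lev y.1 := congrArg (fun z => (z.1 : ℕ)) h
    have h2 : ∀ j : Fin (N + 1), C.cd (N - j) (C.anc x.1 j) = C.cd (N - j) (C.anc y.1 j) :=
      fun j => congrFun (congrArg Prod.snd h) j
    have h3 : C.Rel x.1 y.1 := ⟨h1, fun j hj => h2 ⟨j, by have := hC.lev_le x.1; omega⟩⟩
    apply Subtype.ext
    rw [← x.2, ← y.2]
    exact PreCert.rep_eq hC h3
  have h1 := Nat.card_le_card_of_injective f hf
  refine h1.trans ?_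
  rw [Nat.card_prod, Nat.card_pi]
  simp only [NT_card, Nat.card_eq_fintype_card, Fintype.card_fin]
  unfold bnd
  refine Nat.mul_le_mul le_rfl ?_
  calc ∏ j : Fin (N + 1), nt (Nat.card V) N (N - j)
      ≤ ∏ _j : Fin (N + 1), nt (Nat.card V) N N :=
        Finset.prod_le_prod' fun j _ => nt_mono _ _ (Nat.sub_le _ _)
    _ = nt (Nat.card V) N N ^ (N + 1) := by simp

theorem collapse {N : ℕ} {V : Type} [Finite V] (C : PreCert N V) (hC : C.IsCert) :
    ∃ C' : PreCert N V, C'.IsCert ∧ C'.prof = C.prof ∧ Nat.card C'.Nd ≤ bnd N (Nat.card V) :=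
  ⟨C.coll hC, C.coll_isCert hC, C.coll_prof hC, card_le C hC⟩

end H94G
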