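import Pool.Agent.Lib.H94G.Derive

/-!
# Maximal consistent sets (chunk MC)

`MCS x` : `x` contains the theorems of GLP, does not contain `bot` and satisfies
`(φ → ψ) ∈ x ↔ (φ ∈ x → ψ ∈ x)`. Lindenbaum by Zorn's lemma (`zorn_subset_nonempty`), or since the
formulas may be uncountably many, in any case no enumeration is needed.
-/

namespace H94G

open Form

variable {α : Type}

/-- `φ₁ → (φ₂ → ... → (φₙ → ψ))`. -/
def chain (l : List (Form α)) (ψ : Form α) : Form α := l.foldr imp ψ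

/-- Maximal consistent sets. -/
structure MCS (x : Set (Form α)) : Prop where
  bot : Form.bot ∉ x
  thm : ∀ φ, GLP φ → φ ∈ x
  imp : ∀ φ ψ, Form.imp φ ψ ∈ x ↔ (φ ∈ x → ψ ∈ x)

/-- The canonical accessibility relations. -/
def Rk (k : ℕ) (x y : Set (Form α)) : Prop := ∀ φ, box k φ ∈ x → φ ∈ y

/-! ### derivability from a set -/

theorem mc_evalP_chain (v : Form α → Prop) (l : List (Form α)) (ψ : Form α) :
    evalP v (chain l ψ) ↔ ((∀ χ ∈ l, evalP v χ) → evalP v ψ) := by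
  induction l with
  | nil => simp [chain]
  | cons χ l ih =>
    have h : chain (χ :: l) ψ = Form.imp χ (chain l ψ) := rfl
    rw [h]
    show (evalP v χ → evalP v (chain l ψ)) ↔ _
    rw [ih]
    simp only [List.mem_cons, forall_eq_or_imp]
    tauto

/-- derivability from a set of formulas -/
def McDer (M : Set (Form α)) (ψ : Form α) : Prop := ∃ l, (∀ χ ∈ l, χ ∈ M) ∧ GLP (chain l ψ)

theorem McDer.mem {M : Set (Form α)} {ψ : Form α} (h : ψ ∈ M) : McDer M ψ := by
  refine ⟨[ψ], by simpa using h, GLP.taut _ fun v => ?_⟩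
  rw [mc_evalP_chain]
  intro h
  exact h ψ (by simp)

theorem McDer.thm {M : Set (Form α)} {ψ : Form α} (h : GLP ψ) : McDer M ψ :=
  ⟨[], by simp, h⟩

theorem McDer.mp {M : Set (Form α)} {φ ψ : Form α} (h : McDer M (Form.imp φ ψ))
    (h' : McDer M φ) : McDer M ψ := by
  obtain ⟨l, hl, h1⟩ := h
  obtain ⟨l', hl', h2⟩ := h'
  refine ⟨l ++ l', fun χ hχ => ?_, GLP.of_taut2 (fun v => ?_) h1 h2⟩
  · rcases List.mem_append.1 hχ with h | h
    · exact hl χ h
    · exact hl' χ h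
  · show evalP v (chain l (Form.imp φ ψ)) → evalP v (chain l' φ) → evalP v (chain (l ++ l') ψ)
    rw [mc_evalP_chain, mc_evalP_chain, mc_evalP_chain]
    intro g1 g2 g3
    have g4 : evalP v φ → evalP v ψ := g1 fun χ hχ => g3 χ (List.mem_append.2 (Or.inl hχ))
    exact g4 (g2 fun χ hχ => g3 χ (List.mem_append.2 (Or.inr hχ)))

theorem McDer.ded {M : Set (Form α)} {φ ψ : Form α} (h : McDer (insert φ M) ψ) :
    McDer M (Form.imp φ ψ) := by
  classical
  obtain ⟨l, hl, h1⟩ := h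
  refine ⟨l.filter (fun χ => χ ≠ φ), fun χ hχ => ?_, GLP.of_taut1 (fun v => ?_) h1⟩
  · have h2 := List.mem_filter.1 hχ
    have h3 : χ ≠ φ := by simpa using h2.2
    rcases hl χ h2.1 with h | h
    · exact absurd h h3
    · exact h
  · show evalP v (chain l ψ) → evalP v (chain (l.filter (fun χ => χ ≠ φ)) (Form.imp φ ψ))
    rw [mc_evalP_chain, mc_evalP_chain]
    intro g1 g2 g3
    refine g1 fun χ hχ => ?_
    by_cases hc : χ = φ
    · rw [hc]; exact g3
    · exact g2 χ (List.mem_filter.2 ⟨hχ, by simpa using hc⟩)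

theorem McDer.mono {M M' : Set (Form α)} (hM : M ⊆ M') {ψ : Form α} (h : McDer M ψ) :
    McDer M' ψ := by
  obtain ⟨l, hl, h1⟩ := h
  exact ⟨l, fun χ hχ => hM (hl χ hχ), h1⟩

theorem mc_lindenbaum (Γ : Set (Form α)) (h : ¬ McDer Γ Form.bot) : ∃ x, MCS x ∧ Γ ⊆ x := by
  obtain ⟨M, hΓM, hM⟩ := zorn_subset_nonempty {Δ : Set (Form α) | ¬ McDer Δ Form.bot} (by
    intro c hc hchain hne
    refine ⟨⋃₀ c, ?_, fun s hs => Set.subset_sUnion_of_mem hs⟩
    rintro ⟨l, hl, hG⟩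
    -- a finite list lies in one member of the chain
    have hfin : ∀ l : List (Form α), (∀ χ ∈ l, χ ∈ ⋃₀ c) → ∃ s ∈ c, ∀ χ ∈ l, χ ∈ s := by
      intro l
      induction l with
      | nil =>
        intro _
        obtain ⟨s, hs⟩ := hne
        exact ⟨s, hs, by simp⟩
      | cons χ l ih =>
        intro hl
        obtain ⟨s, hs, hls⟩ := ih fun χ' h' => hl χ' (List.mem_cons_of_mem _ h')
        obtain ⟨s', hs', hχ⟩ := hl χ (List.mem_cons_self ..)
        rcases hchain.total hs hs' with hss | hss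
        · refine ⟨s', hs', fun χ' h' => ?_⟩
          rcases List.mem_cons.1 h' with rfl | h'
          · exact hχ
          · exact hss (hls χ' h')
        · refine ⟨s, hs, fun χ' h' => ?_⟩
          rcases List.mem_cons.1 h' with rfl | h'
          · exact hss hχ
          · exact hls χ' h'
    obtain ⟨s, hs, hls⟩ := hfin l hl
    exact hc hs ⟨l, hls, hG⟩) Γ h
  have hcon : ¬ McDer M Form.bot := hM.prop
  have hneg : ∀ φ, φ ∉ M → McDer M (Form.imp φ Form.bot) := by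
    intro φ hφ
    apply McDer.ded
    by_contra hc
    have h1 : insert φ M ⊆ M := hM.le_of_ge hc (Set.subset_insert _ _)
    exact hφ (h1 (Set.mem_insert _ _))
  have hclosed : ∀ φ, McDer M φ → φ ∈ M := by
    intro φ hφ
    by_contra hc
    exact hcon ((hneg φ hc).mp hφ)
  refine ⟨M, ⟨fun hb => hcon (McDer.mem hb), fun φ hφ => hclosed φ (McDer.thm hφ),
    fun φ ψ => ⟨fun h1 h2 => hclosed ψ ((McDer.mem h1).mp (McDer.mem h2)), fun h1 => ?_⟩⟩, hΓM⟩
  apply hclosed
  by_cases hφ : φ ∈ M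
  · have h2 : GLP (Form.imp ψ (Form.imp φ ψ)) := GLP.taut _ fun v => by
      simp only [evalP]; tauto
    exact (McDer.thm h2).mp (McDer.mem (h1 hφ))
  · have h2 : GLP (Form.imp (Form.imp φ Form.bot) (Form.imp φ ψ)) := GLP.taut _ fun v => by
      simp only [evalP]; tauto
    exact (McDer.thm h2).mp (hneg φ hφ)

theorem lindenbaum (Γ : Set (Form α))
    (h : ∀ l : List (Form α), (∀ φ ∈ l, φ ∈ Γ) → ¬ GLP (chain l bot)) : ∃ x, MCS x ∧ Γ ⊆ x :=
  mc_lindenbaum Γ fun ⟨l, hl, hG⟩ => h l hl hG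

theorem MCS.neg {x : Set (Form α)} (hx : MCS x) (φ : Form α) : Form.neg φ ∈ x ↔ φ ∉ x := by
  have h1 : Form.neg φ ∈ x ↔ (φ ∈ x → Form.bot ∈ x) := hx.imp φ Form.bot
  rw [h1]
  exact ⟨fun h h' => hx.bot (h h'), fun h h' => absurd h' h⟩

theorem exists_mcs {φ : Form α} (h : ¬ GLP φ) : ∃ x, MCS x ∧ φ ∉ x := by
  have h1 : ¬ McDer {Form.neg φ} Form.bot := by
    intro hd
    have h2 : McDer (∅ : Set (Form α)) (Form.imp (Form.neg φ) Form.bot) := by
      apply McDer.ded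
      rwa [insert_empty_eq]
    obtain ⟨l, hl, hG⟩ := h2
    have h3 : l = [] := List.eq_nil_iff_forall_not_mem.2 fun χ hχ => hl χ hχ
    rw [h3] at hG
    exact h (GLP.of_taut1 (fun v => by simp only [chain, List.foldr, evalP, Form.neg]; tauto) hG)
  obtain ⟨x, hx, hsub⟩ := mc_lindenbaum _ h1
  exact ⟨x, hx, (hx.neg φ).1 (hsub rfl)⟩

/-- modus ponens with a theorem -/
theorem MCS.mc_mp {x : Set (Form α)} (hx : MCS x) {φ ψ : Form α} (h : GLP (Form.imp φ ψ))
    (h' : φ ∈ x) : ψ ∈ x := (hx.imp φ ψ).1 (hx.thm _ h) h'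

theorem MCS.mc_box {x : Set (Form α)} (hx : MCS x) {k : ℕ} {φ : Form α}
    (h : McDer {χ | box k χ ∈ x} φ) : box k φ ∈ x := by
  obtain ⟨l, hl, hG⟩ := h
  have key : ∀ l : List (Form α), (∀ χ ∈ l, box k χ ∈ x) → box k (chain l φ) ∈ x →
      box k φ ∈ x := by
    intro l
    induction l with
    | nil => intro _ h; exact h
    | cons χ l ih =>
      intro hl h
      refine ih (fun χ' h' => hl χ' (List.mem_cons_of_mem _ h')) ?_
      have h1 : box k (Form.imp χ (chain l φ)) ∈ x := h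
      have h2 := hx.mc_mp (GLP.K k χ (chain l φ)) h1
      exact (hx.imp _ _).1 h2 (hl χ (List.mem_cons_self ..))
  exact key l hl (hx.thm _ (GLP.necn k hG))

/-- Existence lemma. -/
theorem MCS.exists_rel {x : Set (Form α)} (hx : MCS x) {k : ℕ} {φ : Form α} (h : box k φ ∉ x) :
    ∃ y, MCS y ∧ Rk k x y ∧ φ ∉ y := by
  have h1 : ¬ McDer (insert (Form.neg φ) {χ | box k χ ∈ x}) Form.bot := by
    intro hd
    apply h
    apply hx.mc_box
    have h2 : GLP (Form.imp (Form.imp (Form.neg φ) Form.bot) φ) := GLP.taut _ fun v => by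
      simp only [evalP, Form.neg]; tauto
    exact (McDer.thm h2).mp hd.ded
  obtain ⟨y, hy, hsub⟩ := mc_lindenbaum _ h1
  exact ⟨y, hy, fun χ hχ => hsub (Or.inr hχ), (hy.neg φ).1 (hsub (Or.inl rfl))⟩

/-- Existence lemma with Löb's axiom. -/
theorem MCS.exists_last {x : Set (Form α)} (hx : MCS x) {k : ℕ} {φ : Form α} (h : box k φ ∉ x) :
    ∃ y, MCS y ∧ Rk k x y ∧ φ ∉ y ∧ box k φ ∈ y := by
  have h1 : ¬ McDer (insert (Form.neg φ) (insert (box k φ) {χ | box k χ ∈ x})) Form.bot := by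
    intro hd
    apply h
    refine hx.mc_mp (GLP.lob k φ) (hx.mc_box ?_)
    have h2 : GLP (Form.imp (Form.imp (box k φ) (Form.imp (Form.neg φ) Form.bot))
        (Form.imp (box k φ) φ)) := GLP.taut _ fun v => by
      simp only [evalP, Form.neg]; tauto
    exact (McDer.thm h2).mp hd.ded.ded
  obtain ⟨y, hy, hsub⟩ := mc_lindenbaum _ h1
  exact ⟨y, hy, fun χ hχ => hsub (Or.inr (Or.inr hχ)), (hy.neg φ).1 (hsub (Or.inl rfl)),
    hsub (Or.inr (Or.inl rfl))⟩

theorem Rk.trans {x y z : Set (Form α)} (hx : MCS x) {k : ℕ} (h : Rk k x y) (h' : Rk k y z) :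
    Rk k x z := fun φ hφ => h' φ (h _ (hx.mc_mp (GLP.four k φ) hφ))

theorem Rk.mono {x y : Set (Form α)} (hx : MCS x) {j k : ℕ} (hjk : j ≤ k) (h : Rk k x y) :
    Rk j x y := fun φ hφ => h φ (hx.mc_mp (GLP.mono' hjk φ) hφ)

/-- `R_j(x) = R_j(y)` for `x R_k y`, `j < k`. -/
theorem Rk.iff_of_lt {x y z : Set (Form α)} (hx : MCS x) (hy : MCS y) {j k : ℕ} (hjk : j < k)
    (h : Rk k x y) : Rk j x z ↔ Rk j y z := by
  have h1 : ∀ φ, box j φ ∈ x ↔ box j φ ∈ y := by
    intro φ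
    constructor
    · intro hφ
      exact h _ (hx.mc_mp (GLP.four' hjk.le φ) hφ)
    · intro hφ
      by_contra hc
      have h2 : Form.neg (box j φ) ∈ x := (hx.neg _).2 hc
      have h3 := h _ (hx.mc_mp (GLP.negintro' hjk φ) h2)
      exact (hy.neg _).1 h3 hφ
  exact forall_congr' fun φ => by rw [h1 φ]

end H94G
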