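import Pool.Agent.Lib.H94G.Basic
import Pool.Agent.Lib.H94G.Defin
import Pool.Agent.Lib.H94G.MCS

/-!
# Completeness (chunk CO)

`x`, `y`, `z` are maximal GLP-consistent sets (`MCS`).
Define the type `tp D x : Ty α N D` by recursion: `tp 0 x = {a | var a ∈ x}`,
`tp (D+1) x = ({a | var a ∈ x}, fun k => tp D '' {y | MCS y ∧ Rk k x y})`.
(a) For `depth φ ≤ D` and `ModLT N φ`: `Sat φ D (tp D x) ↔ φ ∈ x` (`MCS.exists_rel`).
(b) `rho (tp (D+1) x) = tp D x`.
(c) `GS D (tp (D+1) x)` for all `x`. Let `χ` be a formula defining the set of the good types of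
depth `D + 1` (`definable`), so `χ ∈ x ↔ GS D (tp (D+1) x)` by (a). CLAIM: if all
`R_k`-successors (`k < N`) `y` of `x` satisfy `GS D (tp (D+1) y)`, then so does `x`.
Suppose `χ ∉ x`. If `[0]χ ∈ x`, then all `R_k`-successors of `x` contain `χ` (`Rk.mono`), so the claim
gives `χ ∈ x`. If `[0]χ ∉ x`, by `MCS.exists_last` there is `y` with `χ ∉ y`, `[0]χ ∈ y`, and the claim
for `y` gives a contradiction. Proof of the claim: `GS.mk` with
`A k = tp (D+1) '' {y | MCS y ∧ Rk k x y}`: `gen k (A k) = tp D '' {y | MCS y ∧ Rk k x y}` because of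
(b) and `Rk.trans`; for `x R_k y` and `j < k`, `R_j(x) = R_j(y)` (`Rk.iff_of_lt`), so
`suc (tp (D+1) y) j = suc (tp (D+1) x) j`; and `x R_j y` (`Rk.mono`) gives
`rho (tp (D+1) y) = tp D y ∈ tp D '' {y | MCS y ∧ Rk j x y}`.
Completeness: if `⊬ φ`, take `x` with `φ ∉ x` (`exists_mcs`) and `t = tp D x`.
-/

namespace H94G

open Form

variable {α : Type} {N : ℕ}

/-- The type of depth `D` of a set of formulas. -/
def tp (N : ℕ) : (D : ℕ) → Set (Form α) → Ty α N D
  | 0, x => {a | var a ∈ x}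
  | D + 1, x => ({a | var a ∈ x}, fun k : Fin N => tp N D '' {y | MCS y ∧ Rk k x y})

theorem val_tp (D : ℕ) (x : Set (Form α)) : val D (tp N D x) = {a | var a ∈ x} := by
  cases D <;> rfl

theorem suc_tp (D : ℕ) (x : Set (Form α)) (k : Fin N) :
    suc (tp N (D + 1) x) k = tp N D '' {y | MCS y ∧ Rk k x y} := rfl

theorem rho_tp (D : ℕ) (x : Set (Form α)) : rho D (tp N (D + 1) x) = tp N D x := by
  induction D generalizing x with
  | zero => rfl
  | succ D ih =>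
    have h : (fun k : Fin N => rho D '' (tp N (D + 1) '' {y | MCS y ∧ Rk k x y})) =
        fun k : Fin N => tp N D '' {y | MCS y ∧ Rk k x y} := by
      funext k
      rw [Set.image_image]
      simp only [ih]
    show (({a | var a ∈ x}, fun k : Fin N => rho D '' (tp N (D + 1) '' {y | MCS y ∧ Rk k x y})) :
      Ty α N (D + 1)) = ({a | var a ∈ x}, fun k : Fin N => tp N D '' {y | MCS y ∧ Rk k x y})
    rw [h]

theorem truth_tp (φ : Form α) : ∀ (D : ℕ) (x : Set (Form α)), MCS x → Form.ModLT N φ →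
    Form.depth φ ≤ D → (Sat φ D (tp N D x) ↔ φ ∈ x) := by
  induction φ with
  | var a =>
    intro D x _ _ _
    show a ∈ val D (tp N D x) ↔ _
    rw [val_tp]
    exact Iff.rfl
  | bot =>
    intro D x hx _ _
    exact ⟨fun h => h.elim, fun h => hx.bot h⟩
  | imp φ ψ ih1 ih2 =>
    intro D x hx hN hD
    simp only [Form.depth] at hD
    rw [hx.imp, ← ih1 D x hx hN.1 (by omega), ← ih2 D x hx hN.2 (by omega)]
    exact Iff.rfl
  | box k φ ih =>
    intro D x hx hN hD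
    simp only [Form.depth] at hD
    obtain ⟨D, rfl⟩ : ∃ D', D = D' + 1 := ⟨D - 1, by omega⟩
    constructor
    · intro h
      by_contra hn
      obtain ⟨y, hy, hxy, hφ⟩ := hx.exists_rel hn
      have h1 := h hN.1 (tp N D y) ⟨y, ⟨hy, hxy⟩, rfl⟩
      exact hφ ((ih D y hy hN.2 (by omega)).1 h1)
    · rintro h hk _ ⟨y, ⟨hy, hxy⟩, rfl⟩
      exact (ih D y hy hN.2 (by omega)).2 (hxy φ h)

theorem gs_of_succ (D : ℕ) {x : Set (Form α)} (hx : MCS x)
    (h : ∀ (k : Fin N) (y : Set (Form α)), MCS y → Rk k x y → GS D (tp N (D + 1) y)) :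
    GS D (tp N (D + 1) x) := by
  refine GS.mk {a | var a ∈ x} (fun k => tp N D '' {y | MCS y ∧ Rk k x y})
    (fun k => tp N (D + 1) '' {y | MCS y ∧ Rk k x y}) ?_ ?_ ?_ ?_
  · intro k
    apply Set.Subset.antisymm
    · rintro _ ⟨y, hy, rfl⟩
      exact Or.inl ⟨tp N (D + 1) y, ⟨y, hy, rfl⟩, rho_tp D y⟩
    · rintro u (⟨_, ⟨y, hy, rfl⟩, rfl⟩ | hu)
      · exact ⟨y, hy, (rho_tp D y).symm⟩
      · simp only [Set.mem_iUnion] at hu
        obtain ⟨_, ⟨y, hy, rfl⟩, z, hz, rfl⟩ := hu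
        exact ⟨z, ⟨hz.1, Rk.trans hx hy.2 hz.2⟩, rfl⟩
  · rintro k _ ⟨y, hy, rfl⟩
    exact h k y hy.1 hy.2
  · rintro k _ ⟨y, hy, rfl⟩ j hj
    show tp N D '' {z | MCS z ∧ Rk j y z} = tp N D '' {z | MCS z ∧ Rk j x z}
    congr 1
    ext z
    constructor
    · rintro ⟨h1, h2⟩
      exact ⟨h1, (Rk.iff_of_lt hx hy.1 hj hy.2).2 h2⟩
    · rintro ⟨h1, h2⟩
      exact ⟨h1, (Rk.iff_of_lt hx hy.1 hj hy.2).1 h2⟩
  · rintro k _ ⟨y, hy, rfl⟩ j hj
    rw [rho_tp]
    exact ⟨y, ⟨hy.1, Rk.mono hx (le_of_lt hj) hy.2⟩, rfl⟩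

theorem gs_tp [Finite α] (D : ℕ) {x : Set (Form α)} (hx : MCS x) : GS D (tp N (D + 1) x) := by
  obtain ⟨χ, h1, h2, h3⟩ := definable (α := α) (N := N) (D + 1) {t | GS D t}
  have key : ∀ y : Set (Form α), MCS y → (χ ∈ y ↔ GS D (tp N (D + 1) y)) := by
    intro y hy
    rw [← truth_tp χ (D + 1) y hy h2 h1, h3]
    exact Iff.rfl
  have claim : ∀ y : Set (Form α), MCS y → box 0 χ ∈ y → GS D (tp N (D + 1) y) := by
    intro y hy hb
    refine gs_of_succ D hy fun k z hz hyz => ?_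
    exact (key z hz).1 (Rk.mono hy (Nat.zero_le _) hyz χ hb)
  by_cases hb : box 0 χ ∈ x
  · exact claim x hx hb
  · exfalso
    obtain ⟨y, hy, _, hn, hby⟩ := hx.exists_last hb
    exact hn ((key y hy).2 (claim y hy hby))

/-- Completeness. -/
theorem complete [Finite α] {φ : Form α} (hN : Form.ModLT N φ) (D : ℕ) (hD : Form.depth φ ≤ D)
    (h : ∀ t : Ty α N D, Good D t → Sat φ D t) : GLP φ := by
  by_contra hn
  obtain ⟨x, hx, hφ⟩ := exists_mcs hn
  apply hφ
  rw [← truth_tp (N := N) φ D x hx hN hD]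
  apply h
  cases D with
  | zero => trivial
  | succ D => exact gs_tp D hx

end H94G
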