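import Pool.Agent.Lib.H94G.Syntax

/-!
# Finite types for GLP (definitions)

A type of depth `D + 1` (for `N` modalities `[0], ..., [N-1]` and variables `α`) is a valuation
together with, for every modality `k`, the set of the types of depth `D` of the `k`-successors.
`GS D t` says that the type `t` of depth `D + 1` is generated (this is an inductive definition; the
main theorem is that the generated types are exactly the GLP-consistent ones).
-/

namespace H94G

open Form

/-- Types of depth `D` for `N` modalities over the variables `α`. -/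
def Ty (α : Type) (N : ℕ) : ℕ → Type
  | 0 => Set α
  | D + 1 => Set α × (Fin N → Set (Ty α N D))

variable {α : Type} {N : ℕ}

/-- Truncation. -/
def rho : (D : ℕ) → Ty α N (D + 1) → Ty α N D
  | 0, t => t.1
  | D + 1, t => (t.1, fun k => rho D '' (t.2 k))

/-- The valuation of a type. -/
def val : (D : ℕ) → Ty α N D → Set α
  | 0, t => t
  | _ + 1, t => t.1

/-- The set of the types of the `k`-successors. -/
def suc {D : ℕ} (t : Ty α N (D + 1)) (k : Fin N) : Set (Ty α N D) := t.2 k

/-- The set of successor types generated at level `k` by a set `A` of types. -/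
def gen {D : ℕ} (k : Fin N) (A : Set (Ty α N (D + 1))) : Set (Ty α N D) :=
  rho D '' A ∪ ⋃ t ∈ A, suc t k

/-- Generated types of depth `D + 1`. -/
inductive GS (D : ℕ) : Ty α N (D + 1) → Prop
  | mk (v : Set α) (c : Fin N → Set (Ty α N D)) (A : Fin N → Set (Ty α N (D + 1)))
      (hc : ∀ k, c k = gen k (A k))
      (hA : ∀ k, ∀ t ∈ A k, GS D t)
      (ho : ∀ k, ∀ t ∈ A k, ∀ j, j < k → suc t j = c j)
      (hr : ∀ k, ∀ t ∈ A k, ∀ j, j < k → rho D t ∈ c j) : GS D (v, c)

/-- Good types: all types of depth `0`, the generated types of positive depth. -/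
def Good : (D : ℕ) → Ty α N D → Prop
  | 0, _ => True
  | D + 1, t => GS D t

/-- `t` is a generated type over the context `c` up to level `m`. -/
def Over {D : ℕ} (c : Fin N → Set (Ty α N D)) (m : ℕ) (t : Ty α N (D + 1)) : Prop :=
  GS D t ∧ ∀ j : Fin N, (j : ℕ) < m → suc t j = c j

/-- `t` is over the context `c` up to level `m` and realized in it. -/
def Realz {D : ℕ} (c : Fin N → Set (Ty α N D)) (m : ℕ) (t : Ty α N (D + 1)) : Prop :=
  Over c m t ∧ ∀ j : Fin N, (j : ℕ) < m → rho D t ∈ c j

/-- `L` is generated, at level `k`, over the context `c`. -/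
def GenAt {D : ℕ} (c : Fin N → Set (Ty α N D)) (k : Fin N) (L : Set (Ty α N D)) : Prop :=
  ∃ A : Set (Ty α N (D + 1)), (∀ t ∈ A, Realz c k t) ∧ L = gen k A

/-- `c` is a generated context up to level `m`. -/
def Ctx {D : ℕ} (c : Fin N → Set (Ty α N D)) (m : ℕ) : Prop :=
  ∀ k : Fin N, (k : ℕ) < m → GenAt c k (c k)

/-- Truth of a formula at a type (formulas of too large depth get a meaningless value, formulas
`[k]φ` with `k ≥ N` are counted as true). -/
def Sat : Form α → (D : ℕ) → Ty α N D → Prop
  | var a, D, t => a ∈ val D t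
  | bot, _, _ => False
  | imp φ ψ, D, t => Sat φ D t → Sat ψ D t
  | box _ _, 0, _ => True
  | box k φ, D + 1, t => ∀ h : k < N, ∀ u ∈ suc t ⟨k, h⟩, Sat φ D u

/-- Modal depth. -/
def Form.depth : Form α → ℕ
  | var _ => 0
  | bot => 0
  | imp φ ψ => max (Form.depth φ) (Form.depth ψ)
  | box _ φ => Form.depth φ + 1

/-- All modalities are `< n`. -/
def Form.ModLT (n : ℕ) : Form α → Prop
  | var _ => True
  | bot => True
  | imp φ ψ => Form.ModLT n φ ∧ Form.ModLT n ψ
  | box k φ => k < n ∧ Form.ModLT n φ

end H94G
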