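import Pool.Agent.Lib.H94G.Syntax
import Pool.Agent.Lib.H94G.Types

/-!
# Derived rules of GLP (chunk DER)
-/

namespace H94G

open Form

variable {α β : Type}

theorem Form.subst_subst {γ : Type} (σ : α → Form β) (τ : β → Form γ) (φ : Form α) :
    Form.subst τ (Form.subst σ φ) = Form.subst (fun a => Form.subst τ (σ a)) φ := by
  induction φ with
  | var a => rfl
  | bot => rfl
  | imp φ ψ ih1 ih2 => simp only [Form.subst, ih1, ih2]
  | box n φ ih => simp only [Form.subst, ih]

theorem Form.subst_var (φ : Form α) : Form.subst Form.var φ = φ := by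
  induction φ with
  | var a => rfl
  | bot => rfl
  | imp φ ψ ih1 ih2 => simp only [Form.subst, ih1, ih2]
  | box n φ ih => simp only [Form.subst, ih]

theorem de_evalP_subst (σ : α → Form β) (v : Form β → Prop) (φ : Form α) :
    evalP v (Form.subst σ φ) ↔ evalP (fun χ => evalP v (Form.subst σ χ)) φ := by
  induction φ with
  | var a => exact Iff.rfl
  | bot => exact Iff.rfl
  | imp φ ψ ih1 ih2 => exact imp_congr ih1 ih2
  | box n φ _ => exact Iff.rfl

/-- GLP is closed under substitution. -/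
theorem GLP.subst (σ : α → Form β) {φ : Form α} (h : GLP φ) : GLP (Form.subst σ φ) := by
  induction h with
  | taut φ h => exact GLP.taut _ fun v => (de_evalP_subst σ v φ).2 (h _)
  | K n φ ψ => exact GLP.K n _ _
  | lob n φ => exact GLP.lob n _
  | mono m n φ h => exact GLP.mono m n _ h
  | negintro m n φ h => exact GLP.negintro m n _ h
  | mp φ ψ _ _ ih1 ih2 => exact GLP.mp _ _ ih1 ih2
  | nec φ _ ih => exact GLP.nec _ ih

/-- Necessitation for all modalities. -/
theorem GLP.necn (n : ℕ) {φ : Form α} (h : GLP φ) : GLP (box n φ) := by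
  rcases Nat.eq_zero_or_pos n with rfl | hn
  · exact GLP.nec _ h
  · exact GLP.mp _ _ (GLP.mono 0 n φ hn) (GLP.nec _ h)

/-- `GLP φ → GLP ψ` if `φ → ψ` is a tautology modulo provable formulas. -/
theorem GLP.of_taut1 {φ ψ : Form α} (h : Taut (imp φ ψ)) (h1 : GLP φ) : GLP ψ :=
  GLP.mp _ _ (GLP.taut _ h) h1

theorem GLP.of_taut2 {φ₁ φ₂ ψ : Form α} (h : Taut (imp φ₁ (imp φ₂ ψ))) (h1 : GLP φ₁)
    (h2 : GLP φ₂) : GLP ψ :=
  GLP.mp _ _ (GLP.mp _ _ (GLP.taut _ h) h1) h2

theorem GLP.of_taut3 {φ₁ φ₂ φ₃ ψ : Form α} (h : Taut (imp φ₁ (imp φ₂ (imp φ₃ ψ)))) (h1 : GLP φ₁)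
    (h2 : GLP φ₂) (h3 : GLP φ₃) : GLP ψ :=
  GLP.mp _ _ (GLP.mp _ _ (GLP.mp _ _ (GLP.taut _ h) h1) h2) h3

/-- composition of implications -/
theorem GLP.de_trans {φ ψ χ : Form α} (h1 : GLP (imp φ ψ)) (h2 : GLP (imp ψ χ)) :
    GLP (imp φ χ) :=
  GLP.of_taut2 (fun v => by simp only [evalP]; tauto) h1 h2

/-- Monotonicity of `[n]`. -/
theorem GLP.box_mono (n : ℕ) {φ ψ : Form α} (h : GLP (imp φ ψ)) :
    GLP (imp (box n φ) (box n ψ)) :=
  GLP.mp _ _ (GLP.K n φ ψ) (GLP.necn n h)

/-- Transitivity, derived from Löb's axiom. -/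
theorem GLP.four (n : ℕ) (φ : Form α) : GLP (imp (box n φ) (box n (box n φ))) := by
  -- `ψ` is the conjunction of `φ` and `[n]φ`
  let ψ : Form α := neg (imp φ (neg (box n φ)))
  have h1 : GLP (imp ψ φ) := GLP.taut _ fun v => by
    simp only [ψ, evalP, Form.neg]
    tauto
  have h2 : GLP (imp (box n ψ) (box n φ)) := GLP.box_mono n h1
  have h3 : GLP (imp φ (imp (box n ψ) ψ)) := GLP.of_taut1 (fun v => by
    simp only [ψ, evalP, Form.neg]
    tauto) h2
  have h4 : GLP (imp (box n φ) (box n ψ)) := (GLP.box_mono n h3).de_trans (GLP.lob n ψ)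
  have h5 : GLP (imp ψ (box n φ)) := GLP.taut _ fun v => by
    simp only [ψ, evalP, Form.neg]
    tauto
  exact h4.de_trans (GLP.box_mono n h5)

theorem GLP.mono' {m n : ℕ} (h : m ≤ n) (φ : Form α) : GLP (imp (box m φ) (box n φ)) := by
  rcases h.eq_or_lt with rfl | h
  · exact GLP.taut _ fun v => by simp only [evalP]; tauto
  · exact GLP.mono m n φ h

/-- `[m]φ → [n][m]φ` for `m ≤ n`. -/
theorem GLP.four' {m n : ℕ} (h : m ≤ n) (φ : Form α) :
    GLP (imp (box m φ) (box n (box m φ))) :=
  (GLP.four m φ).de_trans (GLP.mono' h (box m φ))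

/-- `[m]φ → [m][n]φ` for `m ≤ n`. -/
theorem GLP.four'' {m n : ℕ} (h : m ≤ n) (φ : Form α) :
    GLP (imp (box m φ) (box m (box n φ))) :=
  (GLP.four m φ).de_trans (GLP.box_mono m (GLP.mono' h φ))

/-- `¬[m]φ → [n]¬[m]φ` for `m < n`. -/
theorem GLP.negintro' {m n : ℕ} (h : m < n) (φ : Form α) :
    GLP (imp (neg (box m φ)) (box n (neg (box m φ)))) := by
  have h0 := GLP.negintro m n (neg φ) h
  have h1 : GLP (imp (box m φ) (box m (neg (neg φ)))) :=
    GLP.box_mono m (GLP.taut _ fun v => by simp only [evalP, Form.neg]; tauto)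
  have h2 : GLP (imp (box m (neg (neg φ))) (box m φ)) :=
    GLP.box_mono m (GLP.taut _ fun v => by simp only [evalP, Form.neg]; tauto)
  have h3 : GLP (imp (neg (box m φ)) (dia m (neg φ))) := GLP.of_taut1 (fun v => by
    simp only [evalP, Form.neg, Form.dia]
    tauto) h2
  have h4 : GLP (imp (dia m (neg φ)) (neg (box m φ))) := GLP.of_taut1 (fun v => by
    simp only [evalP, Form.neg, Form.dia]
    tauto) h1
  exact (h3.de_trans h0).de_trans (GLP.box_mono n h4)

/-- Renaming variables along an injection reflects provability (substitute `var a` for `var (f a)` and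
`bot` for the other variables). -/
theorem GLP.of_rename {f : α → β} (hf : Function.Injective f) {φ : Form α}
    (h : GLP (Form.subst (fun a => Form.var (f a)) φ)) : GLP φ := by
  classical
  have h1 := h.subst (Function.extend f Form.var (fun _ => (Form.bot : Form α)))
  rw [Form.subst_subst] at h1
  have h2 : (fun a => Form.subst (Function.extend f Form.var (fun _ => (Form.bot : Form α)))
      (Form.var (f a))) = Form.var := by
    funext a
    show Function.extend f Form.var (fun _ => (Form.bot : Form α)) (f a) = Form.var a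
    rw [hf.extend_apply]
  rw [h2, Form.subst_var] at h1
  exact h1

end H94G
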