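import Pool.Agent.Lib.H94G.Coh

/-!
# Digits and Goedel numbers (chunk DI)
-/

namespace H94G

open Form

/-- All functions with values `< b` are given by digits. Induction on `K`. -/
theorem exists_dig {b : ℕ} (hb : 0 < b) (K : ℕ) (f : ℕ → ℕ) (hf : ∀ i, f i < b) :
    ∃ c, c < b ^ K ∧ ∀ i < K, dig b c i = f i := by
  induction K with
  | zero => exact ⟨0, by simp, fun i hi => absurd hi (Nat.not_lt_zero i)⟩
  | succ K ih =>
    obtain ⟨c, hc, hd⟩ := ih
    refine ⟨c + b ^ K * f K, ?_, ?_⟩
    · have h1 : f K + 1 ≤ b := hf K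
      calc c + b ^ K * f K < b ^ K + b ^ K * f K := by omega
        _ = b ^ K * (f K + 1) := by ring
        _ ≤ b ^ K * b := Nat.mul_le_mul_left _ h1
        _ = b ^ (K + 1) := by ring
    · intro i hi
      have hbi : 0 < b ^ i := Nat.pow_pos hb
      rcases Nat.lt_succ_iff_lt_or_eq.mp hi with h | h
      · have h1 : b ^ K * f K = b ^ i * (b * (b ^ (K - i - 1) * f K)) := by
          have : b ^ K = b ^ i * (b * b ^ (K - i - 1)) := by
            rw [← pow_succ', ← pow_add]
            congr 1
            omega
          rw [this]; ring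
        unfold dig
        rw [h1, Nat.add_mul_div_left _ _ hbi, Nat.add_mul_mod_self_left]
        exact hd i h
      · subst h
        unfold dig
        rw [Nat.add_mul_div_left _ _ hbi, Nat.div_eq_of_lt hc, Nat.zero_add]
        exact Nat.mod_eq_of_lt (hf i)

/-- All sets of numbers `< K` are coded. -/
theorem exists_mem (K : ℕ) (P : ℕ → Prop) : ∃ c, c < 2 ^ K ∧ ∀ i < K, (mem c i ↔ P i) := by
  classical
  obtain ⟨c, hc, hd⟩ := exists_dig (b := 2) (by norm_num) K (fun i => if P i then 1 else 0)
    (fun i => by by_cases h : P i <;> simp [h])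
  refine ⟨c, hc, fun i hi => ?_⟩
  unfold mem
  rw [hd i hi]
  by_cases h : P i <;> simp [h]

theorem mem_iff_testBit (c i : ℕ) : mem c i ↔ Nat.testBit c i = true := by
  unfold mem dig
  rw [Nat.testBit_eq_decide_div_mod_eq, decide_eq_true_iff]

theorem mem_ext {K c c' : ℕ} (hc : c < 2 ^ K) (hc' : c' < 2 ^ K)
    (h : ∀ i < K, (mem c i ↔ mem c' i)) : c = c' := by
  apply Nat.eq_of_testBit_eq
  intro i
  by_cases hi : i < K
  · have := h i hi
    rw [mem_iff_testBit, mem_iff_testBit] at this
    exact Bool.eq_iff_iff.mpr this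
  · have h1 : 2 ^ K ≤ 2 ^ i := Nat.pow_le_pow_right (by norm_num) (by omega)
    rw [Nat.testBit_lt_two_pow (lt_of_lt_of_le hc h1), Nat.testBit_lt_two_pow (lt_of_lt_of_le hc' h1)]

theorem dig_lt {b : ℕ} (hb : 0 < b) (c i : ℕ) : dig b c i < b := Nat.mod_lt _ hb

theorem ofCode_code (φ : Form ℕ) : ofCode (code φ) = φ := by
  induction φ with
  | bot => simp [code, ofCode]
  | var i =>
    simp only [code]
    rw [ofCode]
    simp
  | imp φ ψ h1 h2 =>
    simp only [code]
    rw [ofCode]
    have e1 : (3 * Nat.pair (code φ) (code ψ) + 1) % 3 = 1 := by omega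
    have e2 : (3 * Nat.pair (code φ) (code ψ) + 1) / 3 = Nat.pair (code φ) (code ψ) := by omega
    simp [e1, e2, Nat.unpair_pair, h1, h2]
  | box n φ h =>
    simp only [code]
    rw [ofCode]
    have e1 : (3 * Nat.pair n (code φ) + 2) % 3 = 2 := by omega
    have e2 : (3 * Nat.pair n (code φ) + 2) / 3 = Nat.pair n (code φ) := by omega
    simp [e1, e2, Nat.unpair_pair, h]

theorem code_ofCode (n : ℕ) : code (ofCode n) = n := by
  induction n using Nat.strong_induction_on with
  | _ n ih =>
    rcases n with _ | k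
    · simp [code, ofCode]
    · have h1 := Nat.unpair_left_le (k / 3)
      have h2 := Nat.unpair_right_le (k / 3)
      rw [ofCode]
      by_cases c0 : k % 3 = 0
      · rw [if_pos c0]
        simp only [code]
        omega
      · rw [if_neg c0]
        by_cases c1 : k % 3 = 1
        · rw [if_pos c1]
          simp only [code]
          rw [ih _ (by omega), ih _ (by omega), Nat.pair_unpair]
          omega
        · rw [if_neg c1]
          simp only [code]
          rw [ih _ (by omega), Nat.pair_unpair]
          omega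

end H94G
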