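import Pool.Agent.Lib.H94G.FixOne

/-!
# Simultaneous fixed points in GLP (chunk FI)

Let `I` be the (finite) set of the unknowns, `κ : I → ℕ`. For `S : Finset I` let `P S` be:
for all `B : I → Form (α ⊕ I)` with `OutOf (κ l) (inr l) (B b)` for all `b, l ∈ S` (and `ModLT N (B b)`)
there is `θ : I → Form (α ⊕ I)` (with `ModLT N (θ i)`) such that `θ l = var (inr l)` for `l ∉ S` and
`⊢ θ l ↔ [κ l] (B l)[θ]` for `l ∈ S`, where `[θ]` is the substitution `inl a ↦ var (inl a)`,
`inr l ↦ θ l`. `P S` is proved by `Finset.induction_on_max_value κ`: Let `i ∉ S`, `κ l ≤ κ i` for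
`l ∈ S`. Given `B`, let `H = [κ i] rep (inr i) ⊤ (B i)`, `B' l = rep (inr i) H (B l)` (`OutOf.rep`), let
`θ'` be the solution for `S`, `B'`, and put `θ i = H[θ']`, `θ l = θ' l` for `l ≠ i`. For `l ∈ S`:
`(B' l)[θ'] = (B l)[θ]` (`Form.subst_subst`; `θ'` maps `inr i` to itself but `B'` replaces it first). For
`i`: `⊢ H ↔ [κ i] rep (inr i) H (B i)` (`one_fix`); apply `[θ']` (`GLP.subst`).
At the end (`S = univ`) substitute `bot` for the unknowns: `Sum.elim var (fun _ => bot)`, applied to
`θ i`, gives formulas over `α` with the same property.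
-/

namespace H94G

open Form

variable {α : Type}

theorem fix_modLT_subst {β γ : Type} {N : ℕ} {σ : β → Form γ} (hσ : ∀ b, Form.ModLT N (σ b)) :
    ∀ {φ : Form β}, Form.ModLT N φ → Form.ModLT N (Form.subst σ φ)
  | var b, _ => hσ b
  | bot, _ => trivial
  | imp φ ψ, h => ⟨fix_modLT_subst hσ h.1, fix_modLT_subst hσ h.2⟩
  | box j φ, h => ⟨h.1, fix_modLT_subst hσ h.2⟩

theorem fix_modLT_zero {β : Type} {N : ℕ} : ∀ {φ : Form β}, Form.depth φ = 0 → Form.ModLT N φ
  | var _, _ => trivial
  | bot, _ => trivial
  | imp φ ψ, h => by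
    have h' : max (Form.depth φ) (Form.depth ψ) = 0 := h
    exact ⟨fix_modLT_zero (by omega), fix_modLT_zero (by omega)⟩
  | box j φ, h => by
    have h' : Form.depth φ + 1 = 0 := h
    omega

open Classical in
theorem fix_aux {I : Type} [Finite I] {N : ℕ} (κ : I → ℕ) (hκ : ∀ i, κ i < N) (S : Finset I) :
    ∀ B : I → Form (α ⊕ I),
      (∀ b ∈ S, ∀ l ∈ S, Form.OutOf (κ l) (Sum.inr l) (B b)) →
      (∀ b, Form.ModLT N (B b)) →
      ∃ θ : I → Form (α ⊕ I), (∀ i, Form.ModLT N (θ i)) ∧
        (∀ l, l ∉ S → θ l = var (Sum.inr l)) ∧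
        ∀ l ∈ S, GLP (imp (θ l)
            (box (κ l) (Form.subst (Sum.elim (fun a => var (Sum.inl a)) θ) (B l)))) ∧
          GLP (imp (box (κ l) (Form.subst (Sum.elim (fun a => var (Sum.inl a)) θ) (B l)))
            (θ l)) := by
  induction S using Finset.induction_on_max_value κ with
  | empty =>
    intro B _ _
    exact ⟨fun l => var (Sum.inr l), fun _ => trivial, fun _ _ => rfl,
      fun l hl => absurd hl (Finset.notMem_empty l)⟩
  | insert i S hi hmax ih =>
    intro B hB hM
    set E : Form (α ⊕ I) := Form.rep (Sum.inr i) (neg bot) (B i) with hE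
    set H : Form (α ⊕ I) := box (κ i) E with hH
    have hHM : Form.ModLT N H := by
      refine ⟨hκ i, ?_⟩
      refine fix_modLT_subst (fun b => ?_) (hM i)
      split_ifs
      · exact ⟨trivial, trivial⟩
      · trivial
    obtain ⟨θ', h1, h2, h3⟩ := ih (fun l => Form.rep (Sum.inr i) H (B l)) (by
      intro b hb l hl
      exact OutOf.rep (hmax l hl)
        (hB b (Finset.mem_insert_of_mem hb) l (Finset.mem_insert_of_mem hl))
        (hB b (Finset.mem_insert_of_mem hb) i (Finset.mem_insert_self _ _))
        (hB i (Finset.mem_insert_self _ _) l (Finset.mem_insert_of_mem hl))) (by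
      intro b
      refine fix_modLT_subst (fun c => ?_) (hM b)
      split_ifs
      · exact hHM
      · trivial)
    set σ' : α ⊕ I → Form (α ⊕ I) := Sum.elim (fun a => var (Sum.inl a)) θ' with hσ'
    set θ : I → Form (α ⊕ I) := Function.update θ' i (Form.subst σ' H) with hθ
    have hθi : θ i = Form.subst σ' H := by
      rw [hθ, Function.update_self]
    have hθl : ∀ l, l ≠ i → θ l = θ' l := by
      intro l hl
      rw [hθ, Function.update_of_ne hl]
    have key : ∀ F : Form (α ⊕ I), Form.subst σ' (Form.rep (Sum.inr i) H F) =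
        Form.subst (Sum.elim (fun a => var (Sum.inl a)) θ) F := by
      intro F
      unfold Form.rep
      rw [Form.subst_subst]
      congr 1
      funext b
      rcases b with a | j
      · simp [Form.subst, hσ']
      · by_cases hj : j = i
        · subst hj
          simp only [if_true, Sum.elim_inr]
          exact hθi.symm
        · have hne : ¬ (Sum.inr j : α ⊕ I) = Sum.inr i := fun h => hj (Sum.inr_injective h)
          rw [if_neg hne]
          simp only [Form.subst, hσ', Sum.elim_inr]
          exact (hθl j hj).symm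
    refine ⟨θ, ?_, ?_, ?_⟩
    · intro l
      by_cases hl : l = i
      · subst hl
        rw [hθi]
        refine fix_modLT_subst (fun b => ?_) hHM
        rcases b with a | j
        · trivial
        · exact h1 j
      · rw [hθl l hl]
        exact h1 l
    · intro l hl
      rw [Finset.mem_insert, not_or] at hl
      rw [hθl l hl.1]
      exact h2 l hl.2
    · intro l hl
      rw [Finset.mem_insert] at hl
      by_cases hli : l = i
      · subst hli
        obtain ⟨f1, f2⟩ := one_fix (κ l) (Sum.inr l) (B l)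
          (hB l (Finset.mem_insert_self _ _) l (Finset.mem_insert_self _ _))
        have g1 := GLP.subst σ' f1
        have g2 := GLP.subst σ' f2
        rw [hθi]
        rw [← key (B l)]
        exact ⟨g1, g2⟩
      · have hlS : l ∈ S := hl.resolve_left hli
        rw [hθl l hli, ← key (B l)]
        exact h3 l hlS

/-- Simultaneous fixed points `θ i ↔ [κ i] (B i)[θ]` for box-free `B i`. -/
theorem fixpoint {I : Type} [Finite I] {N : ℕ} (κ : I → ℕ) (B : I → Form (α ⊕ I))
    (hB : ∀ i, Form.depth (B i) = 0) (hκ : ∀ i, κ i < N) :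
    ∃ θ : I → Form α, (∀ i, Form.ModLT N (θ i)) ∧
      ∀ i, GLP (imp (θ i) (box (κ i) (Form.subst (Sum.elim Form.var θ) (B i)))) ∧
        GLP (imp (box (κ i) (Form.subst (Sum.elim Form.var θ) (B i))) (θ i)) := by
  classical
  have := Fintype.ofFinite I
  obtain ⟨θ, h1, _, h3⟩ := fix_aux κ hκ Finset.univ B (fun b _ l _ => OutOf.of_depth (hB b))
    (fun b => fix_modLT_zero (hB b))
  set τ : α ⊕ I → Form α := Sum.elim var fun _ => bot with hτ
  have key : ∀ F : Form (α ⊕ I),
      Form.subst τ (Form.subst (Sum.elim (fun a => var (Sum.inl a)) θ) F) =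
        Form.subst (Sum.elim Form.var fun i => Form.subst τ (θ i)) F := by
    intro F
    rw [Form.subst_subst]
    congr 1
    funext b
    rcases b with a | j
    · rfl
    · rfl
  refine ⟨fun i => Form.subst τ (θ i), ?_, ?_⟩
  · intro i
    refine fix_modLT_subst (fun b => ?_) (h1 i)
    rcases b with a | j
    · trivial
    · trivial
  · intro i
    obtain ⟨g1, g2⟩ := h3 i (Finset.mem_univ i)
    rw [← key (B i)]
    exact ⟨GLP.subst τ g1, GLP.subst τ g2⟩

end H94G
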