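import Pool.Agent.Lib.H94G.Derive

/-!
# One fixed point in GLP (chunk FO)

`OutOf K r B`: the variable `r` occurs in `B` only outside of the scope of all boxes `[j]`, `j < K`.
REPLACEMENT. Let `⊢ H → [j]H` for all `j ≥ K`, `OutOf K r B`. Then `⊢ H → (B[H/r] ↔ B[⊤/r])`
(induction on `B`; for `[j]E` with `j ≥ K`: necessitate the induction hypothesis, distribute, and use
`H → [j]H`; if `r` does not occur in `E` nothing is to be proved).
ONE FIXED POINT. Let `H := [K]B[⊤/r]`. Then `⊢ H ↔ [K]B[H/r]`.
`H → [j]H` for `j ≥ K` (`GLP.four'`), so by REPLACEMENT `⊢ H → (B[H/r] ↔ B[⊤/r])`.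
(→) `H → [K]H ∧ [K]B[⊤/r] → [K]B[H/r]`.
(←) `[K]B[H/r] → [K](H → B[⊤/r]) = [K]([K]B[⊤/r] → B[⊤/r]) → [K]B[⊤/r] = H` (Löb!).
-/

namespace H94G

open Form

variable {β : Type} [DecidableEq β]

/-- The variable `r` does not occur. -/
def Form.FreeOf (r : β) : Form β → Prop
  | var a => a ≠ r
  | bot => True
  | imp φ ψ => Form.FreeOf r φ ∧ Form.FreeOf r ψ
  | box _ φ => Form.FreeOf r φ

/-- The variable `r` occurs only outside of the scope of all boxes `[j]`, `j < K`. -/
def Form.OutOf (K : ℕ) (r : β) : Form β → Prop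
  | var _ => True
  | bot => True
  | imp φ ψ => Form.OutOf K r φ ∧ Form.OutOf K r ψ
  | box j φ => Form.OutOf K r φ ∧ (j < K → Form.FreeOf r φ)

/-- Replacement of one variable. -/
def Form.rep (r : β) (H : Form β) (B : Form β) : Form β :=
  Form.subst (fun b => if b = r then H else var b) B

theorem fixOne_free {r : β} {H H' : Form β} : ∀ {B : Form β}, Form.FreeOf r B →
    Form.rep r H B = Form.rep r H' B
  | var a, h => by
    have h' : a ≠ r := h
    simp [Form.rep, Form.subst, h']
  | bot, _ => rfl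
  | imp φ ψ, h => by
    have h1 := fixOne_free (H := H) (H' := H') h.1
    have h2 := fixOne_free (H := H) (H' := H') h.2
    unfold Form.rep at h1 h2 ⊢
    simp only [Form.subst, h1, h2]
  | box j φ, h => by
    have h1 := fixOne_free (H := H) (H' := H') (B := φ) h
    unfold Form.rep at h1 ⊢
    simp only [Form.subst, h1]

theorem fixOne_free_self {r : β} {H : Form β} : ∀ {B : Form β}, Form.FreeOf r B →
    Form.rep r H B = B
  | var a, h => by
    have h' : a ≠ r := h
    simp [Form.rep, Form.subst, h']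
  | bot, _ => rfl
  | imp φ ψ, h => by
    have h1 := fixOne_free_self (H := H) h.1
    have h2 := fixOne_free_self (H := H) h.2
    unfold Form.rep at h1 h2 ⊢
    simp only [Form.subst, h1, h2]
  | box j φ, h => by
    have h1 := fixOne_free_self (H := H) (B := φ) h
    unfold Form.rep at h1 ⊢
    simp only [Form.subst, h1]

theorem fixOne_rep_imp (r : β) (H φ ψ : Form β) :
    Form.rep r H (imp φ ψ) = imp (Form.rep r H φ) (Form.rep r H ψ) := rfl

theorem fixOne_rep_box (r : β) (H φ : Form β) (j : ℕ) :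
    Form.rep r H (box j φ) = box j (Form.rep r H φ) := rfl

/-- Replacement. -/
theorem fixOne_replace {K : ℕ} {r : β} {H : Form β} (hH : ∀ j, K ≤ j → GLP (imp H (box j H))) :
    ∀ {B : Form β}, Form.OutOf K r B →
    GLP (imp H (imp (Form.rep r H B) (Form.rep r (neg bot) B))) ∧
      GLP (imp H (imp (Form.rep r (neg bot) B) (Form.rep r H B)))
  | var b, _ => by
    by_cases hb : b = r
    · have e1 : Form.rep r H (var b) = H := by simp [Form.rep, Form.subst, hb]
      have e2 : Form.rep r (neg bot) (var b) = neg bot := by simp [Form.rep, Form.subst, hb]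
      rw [e1, e2]
      refine ⟨GLP.taut _ fun v => ?_, GLP.taut _ fun v => ?_⟩
      · intro _ _
        exact fun h => h
      · intro h _
        exact h
    · have e1 : ∀ H' : Form β, Form.rep r H' (var b) = var b := by
        intro H'
        simp [Form.rep, Form.subst, hb]
      rw [e1, e1]
      exact ⟨GLP.taut _ fun v _ h => h, GLP.taut _ fun v _ h => h⟩
  | bot, _ => ⟨GLP.taut _ fun v _ h => h, GLP.taut _ fun v _ h => h⟩
  | imp φ ψ, h => by
    obtain ⟨a1, a2⟩ := fixOne_replace hH h.1
    obtain ⟨b1, b2⟩ := fixOne_replace hH h.2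
    rw [fixOne_rep_imp, fixOne_rep_imp]
    refine ⟨GLP.of_taut2 (fun v => ?_) a2 b1, GLP.of_taut2 (fun v => ?_) a1 b2⟩
    · intro h1 h2 h3 h4 h5
      exact h2 h3 (h4 (h1 h3 h5))
    · intro h1 h2 h3 h4 h5
      exact h2 h3 (h4 (h1 h3 h5))
  | box j φ, h => by
    rw [fixOne_rep_box, fixOne_rep_box]
    by_cases hj : j < K
    · have e := fixOne_free (H := H) (H' := neg bot) (h.2 hj)
      rw [e]
      exact ⟨GLP.taut _ fun v _ h => h, GLP.taut _ fun v _ h => h⟩
    · obtain ⟨a1, a2⟩ := fixOne_replace hH h.1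
      have h1 := hH j (not_lt.1 hj)
      refine ⟨GLP.of_taut3 (fun v => ?_) h1 (GLP.box_mono j a1)
          (GLP.K j (Form.rep r H φ) (Form.rep r (neg bot) φ)),
        GLP.of_taut3 (fun v => ?_) h1 (GLP.box_mono j a2)
          (GLP.K j (Form.rep r (neg bot) φ) (Form.rep r H φ))⟩
      · intro k1 k2 k3 k4 k5
        exact k3 (k2 (k1 k4)) k5
      · intro k1 k2 k3 k4 k5
        exact k3 (k2 (k1 k4)) k5

/-- The one-variable fixed point. -/
theorem one_fix (K : ℕ) (r : β) (B : Form β) (hB : Form.OutOf K r B) :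
    GLP (imp (box K (Form.rep r (neg bot) B))
      (box K (Form.rep r (box K (Form.rep r (neg bot) B)) B))) ∧
    GLP (imp (box K (Form.rep r (box K (Form.rep r (neg bot) B)) B))
      (box K (Form.rep r (neg bot) B))) := by
  obtain ⟨r1, r2⟩ := fixOne_replace (K := K) (r := r) (H := box K (Form.rep r (neg bot) B))
    (fun j hj => GLP.four' hj _) hB
  constructor
  · -- H → [K]H, [K]H → [K](B⊤ → BH), K
    have h1 : GLP (imp (box K (Form.rep r (neg bot) B))
        (box K (box K (Form.rep r (neg bot) B)))) := GLP.four' le_rfl _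
    have h2 := GLP.box_mono K r2
    refine GLP.of_taut3 (fun v => ?_) h1 h2 (GLP.K K (Form.rep r (neg bot) B)
      (Form.rep r (box K (Form.rep r (neg bot) B)) B))
    intro k1 k2 k3 k4
    exact k3 (k2 (k1 k4)) k4
  · have h1 : GLP (imp (Form.rep r (box K (Form.rep r (neg bot) B)) B)
        (imp (box K (Form.rep r (neg bot) B)) (Form.rep r (neg bot) B))) := by
      refine GLP.of_taut1 (fun v => ?_) r1
      intro k1 k2 k3
      exact k1 k3 k2
    have h2 := GLP.box_mono K h1
    refine GLP.of_taut2 (fun v => ?_) h2 (GLP.lob K (Form.rep r (neg bot) B))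
    intro k1 k2 k3
    exact k2 (k1 k3)

omit [DecidableEq β] in
theorem fixOne_of_depth {K : ℕ} {r : β} : ∀ {B : Form β} (_ : Form.depth B = 0),
    Form.OutOf K r B
  | var _, _ => trivial
  | bot, _ => trivial
  | imp φ ψ, h => by
    have h' : max (Form.depth φ) (Form.depth ψ) = 0 := h
    exact ⟨fixOne_of_depth (by omega), fixOne_of_depth (by omega)⟩
  | box j φ, h => by
    have h' : Form.depth φ + 1 = 0 := h
    omega

omit [DecidableEq β] in
theorem OutOf.of_depth {K : ℕ} {r : β} {B : Form β} (h : Form.depth B = 0) :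
    Form.OutOf K r B := fixOne_of_depth h

theorem fixOne_freeOf_top {r s : β} : ∀ {E : Form β}, Form.FreeOf s E →
    Form.FreeOf s (Form.rep r (neg bot) E)
  | var b, h => by
    by_cases hb : b = r
    · have e : Form.rep r (neg bot) (var b) = neg bot := by simp [Form.rep, Form.subst, hb]
      rw [e]
      exact ⟨trivial, trivial⟩
    · have e : Form.rep r (neg bot) (var b) = var b := by simp [Form.rep, Form.subst, hb]
      rw [e]
      exact h
  | bot, _ => trivial
  | imp φ ψ, h => ⟨fixOne_freeOf_top h.1, fixOne_freeOf_top h.2⟩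
  | box j φ, h => fixOne_freeOf_top (E := φ) h

theorem fixOne_outOf_top {k : ℕ} {r s : β} : ∀ {E : Form β}, Form.OutOf k s E →
    Form.OutOf k s (Form.rep r (neg bot) E)
  | var b, _ => by
    by_cases hb : b = r
    · have e : Form.rep r (neg bot) (var b) = neg bot := by simp [Form.rep, Form.subst, hb]
      rw [e]
      exact ⟨trivial, trivial⟩
    · have e : Form.rep r (neg bot) (var b) = var b := by simp [Form.rep, Form.subst, hb]
      rw [e]
      trivial
  | bot, _ => trivial
  | imp φ ψ, h => ⟨fixOne_outOf_top h.1, fixOne_outOf_top h.2⟩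
  | box j φ, h => ⟨fixOne_outOf_top h.1, fun hj => fixOne_freeOf_top (h.2 hj)⟩

theorem fixOne_outOf_rep {k K : ℕ} (hkK : k ≤ K) {r s : β} {H : Form β}
    (hH : Form.OutOf k s H) : ∀ {B : Form β}, Form.OutOf k s B → Form.OutOf K r B →
    Form.OutOf k s (Form.rep r H B)
  | var b, _, _ => by
    by_cases hb : b = r
    · have e : Form.rep r H (var b) = H := by simp [Form.rep, Form.subst, hb]
      rw [e]
      exact hH
    · have e : Form.rep r H (var b) = var b := by simp [Form.rep, Form.subst, hb]
      rw [e]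
      trivial
  | bot, _, _ => trivial
  | imp φ ψ, h1, h2 =>
    ⟨fixOne_outOf_rep hkK hH h1.1 h2.1, fixOne_outOf_rep hkK hH h1.2 h2.2⟩
  | box j φ, h1, h2 => by
    refine ⟨fixOne_outOf_rep hkK hH h1.1 h2.1, fun hj => ?_⟩
    rw [show Form.subst _ φ = Form.rep r H φ from rfl,
      fixOne_free_self (H := H) (h2.2 (by omega))]
    exact h1.2 hj

/-- Preservation of `OutOf` under the elimination of the variable `r`, `k ≤ K`. -/
theorem OutOf.rep {k K : ℕ} (hkK : k ≤ K) {r s : β} {B E : Form β} (h1 : Form.OutOf k s B)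
    (h2 : Form.OutOf K r B) (h3 : Form.OutOf k s E) :
    Form.OutOf k s (Form.rep r (box K (Form.rep r (neg bot) E)) B) := by
  refine fixOne_outOf_rep hkK ?_ h1 h2
  exact ⟨fixOne_outOf_top h3, fun h => absurd h (by omega)⟩

end H94G
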