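import Mathlib

/-!
# Enumerations of a least fixed point (chunk TAU)

Greedy: if the elements listed so far do not form all of `X`, some new element can be added (the set
of listed elements is not closed). Formally: induction on the number of the listed elements, or:
among all pairs (finite set `A`, injective `τ` on `A` with values `< A.card`, every `x ∈ A` satisfies
`Add {y ∈ A | τ y < τ x} x`) take one with `A` of maximal cardinality.
-/

namespace H94G

theorem exists_enum {X : Type} [Finite X] (Add : Set X → X → Prop)
    (mono : ∀ A B x, A ⊆ B → Add A x → Add B x)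
    (h : ∀ A : Set X, (∀ x, Add A x → x ∈ A) → A = Set.univ) :
    ∃ τ : X → ℕ, Function.Injective τ ∧ ∀ x, Add {y | τ y < τ x} x := by
  classical
  have := Fintype.ofFinite X
  have key : ∀ n, n ≤ Fintype.card X → ∃ (A : Finset X) (τ : X → ℕ), A.card = n ∧
      (∀ x ∈ A, ∀ y ∈ A, τ x = τ y → x = y) ∧ (∀ x ∈ A, τ x < n) ∧
      ∀ x ∈ A, Add {y | y ∈ A ∧ τ y < τ x} x := by
    intro n
    induction n with
    | zero => exact fun _ => ⟨∅, fun _ => 0, rfl, by simp, by simp, by simp⟩
    | succ n ih =>
      intro hn
      obtain ⟨A, τ, hA, h1, h2, h3⟩ := ih (by omega)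
      have h4 : ∃ x, Add (A : Set X) x ∧ x ∉ A := by
        by_contra hcon
        push Not at hcon
        have h5 := h (A : Set X) (fun x hx => Finset.mem_coe.2 (hcon x hx))
        have h6 : A = Finset.univ := by
          rw [← Finset.coe_univ] at h5
          exact_mod_cast h5
        rw [h6, Finset.card_univ] at hA
        omega
      obtain ⟨x, hx, hxA⟩ := h4
      have hne : ∀ y ∈ A, y ≠ x := fun y hy he => hxA (he ▸ hy)
      have hu : ∀ y ∈ A, Function.update τ x n y = τ y := fun y hy =>
        Function.update_of_ne (hne y hy) _ _
      have hux : Function.update τ x n x = n := Function.update_self _ _ _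
      refine ⟨insert x A, Function.update τ x n, ?_, ?_, ?_, ?_⟩
      · rw [Finset.card_insert_of_notMem hxA, hA]
      · intro y hy0 z hz0 hyz
        rcases Finset.mem_insert.1 hy0 with hy | hy
        · rcases Finset.mem_insert.1 hz0 with hz | hz
          · rw [hy, hz]
          · rw [hy, hux, hu z hz] at hyz
            exact absurd (h2 z hz) (by omega)
        · rcases Finset.mem_insert.1 hz0 with hz | hz
          · rw [hz, hux, hu y hy] at hyz
            exact absurd (h2 y hy) (by omega)
          · rw [hu y hy, hu z hz] at hyz
            exact h1 y hy z hz hyz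
      · intro y hy
        rcases Finset.mem_insert.1 hy with rfl | hy
        · rw [hux]; omega
        · rw [hu y hy]
          exact (h2 y hy).trans (by omega)
      · intro y hy
        rcases Finset.mem_insert.1 hy with rfl | hy
        · refine mono _ _ _ ?_ hx
          intro z hz
          have hz' : z ∈ A := hz
          refine ⟨Finset.mem_insert_of_mem hz', ?_⟩
          rw [hux, hu z hz']
          exact h2 z hz'
        · refine mono _ _ _ ?_ (h3 y hy)
          rintro z ⟨hz1, hz2⟩
          refine ⟨Finset.mem_insert_of_mem hz1, ?_⟩
          rw [hu y hy, hu z hz1]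
          exact hz2
  obtain ⟨A, τ, hA, h1, h2, h3⟩ := key _ le_rfl
  have hA' : A = Finset.univ := Finset.eq_univ_of_card A hA
  subst hA'
  refine ⟨τ, fun x y hxy => h1 x (Finset.mem_univ _) y (Finset.mem_univ _) hxy, fun x => ?_⟩
  refine mono _ _ _ ?_ (h3 x (Finset.mem_univ _))
  rintro y ⟨-, hy⟩
  exact hy

end H94G
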