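import Pool.Agent.Lib.H94G.ForwA
import Pool.Agent.Lib.H94G.Tau

/-!
# From a map on types to a certificate: the times (chunk FC)

`exists_enum` with `Add X x := x.level = 0 ∨ ∃ m, x.level = m + 1 ∧ anc x m ∈ X ∧
GenBy (· ∈ X) (anc x m) m (T x)`. If `A` is closed under `Add` then by `GS.ind` every good `t`
satisfies: the contexts `nodeOf t m`, `m ≤ N`, are in `A`. Induction on `m`; for `m + 1`: the generating
set `A_m` of `suc t m` consists of realized points `s` over `suc t` up to `m`; `w ∈ g '' suc t m` is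
`g (rho s)` or in `g '' suc s m` for some `s ∈ A_m`; take the leaf `nodeOf s N ∈ A` (induction
hypothesis) and `v = g (rho s)`. Every node is `nodeOf t m` for `t = (∅, c)` (`exists_type`).
-/

namespace H94G

variable {α : Type} {N N' D : ℕ} {V : Type}

theorem f_closed [Finite α] (g : Ty α N' D → V) (h : N ≤ N') (A : Set (FN α N' D N))
    (hA : ∀ x : FN α N' D N, (x.1.1 = 0 ∨ ∃ m, x.1.1 = m + 1 ∧ fanc x m ∈ A ∧
      (fcert N g fun _ => 0).GenBy (fun l => l ∈ A) (fanc x m) m (fT g x)) → x ∈ A) :
    A = Set.univ := by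
  have key : ∀ t : Ty α N' (D + 1), GS D t → ∀ (ht : GS D t) (m : ℕ) (hm : m ≤ N),
      nodeOf t ht m hm ∈ A := by
    refine GS.ind (P := fun t => ∀ (ht : GS D t) (m : ℕ) (hm : m ≤ N), nodeOf t ht m hm ∈ A) ?_
    intro t _ hgen ht m
    induction m with
    | zero =>
      intro hm
      exact hA _ (Or.inl rfl)
    | succ m ih =>
      intro hm
      refine hA _ (Or.inr ⟨m, rfl, ?_, ?_⟩)
      · rw [fanc_nodeOf t ht (m + 1) hm m (Nat.le_succ m)]
        exact ih _
      · rw [fanc_nodeOf t ht (m + 1) hm m (Nat.le_succ m)]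
        let k : Fin N' := ⟨m, by omega⟩
        have hT : fT g (nodeOf t ht (m + 1) hm) = g '' suc t k := fT_nodeOf g t ht k hm
        rw [hT]
        obtain ⟨B, hB, hgB⟩ := hgen k
        intro w hw
        obtain ⟨u, hu, rfl⟩ := hw
        have hu2 : ∃ s ∈ B, u = rho D s ∨ u ∈ suc s k := by
          rw [hgB] at hu
          rcases hu with ⟨s, hs, rfl⟩ | hu
          · exact ⟨s, hs, Or.inl rfl⟩
          · simp only [Set.mem_iUnion] at hu
            obtain ⟨s, hs, hu⟩ := hu
            exact ⟨s, hs, Or.inr hu⟩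
        obtain ⟨s, hs, hus⟩ := hu2
        obtain ⟨⟨⟨hsG, hso⟩, hsr⟩, hsP⟩ := hB s hs
        have h1 : nodeOf s hsG m (Nat.le_of_succ_le hm) = nodeOf t ht m (Nat.le_of_succ_le hm) := by
          apply Subtype.ext
          show (m, cutc (suc s) m) = (m, cutc (suc t) m)
          refine Prod.ext rfl ?_
          funext j
          simp only [cutc]
          split_ifs with hj
          · exact hso j hj
          · rfl
        have h2 : fT g (fanc (nodeOf s hsG N (le_refl N)) (m + 1)) = g '' suc s k := by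
          rw [fanc_nodeOf s hsG N (le_refl N) (m + 1) hm]
          exact fT_nodeOf g s hsG k hm
        have h3 : suc s k ⊆ suc t k := by
          rw [hgB]
          intro z hz
          refine Or.inr ?_
          simp only [Set.mem_iUnion]
          exact ⟨s, hs, hz⟩
        have h4 : rho D s ∈ suc t k := by
          rw [hgB]
          exact Or.inl ⟨s, hs, rfl⟩
        refine ⟨nodeOf s hsG N (le_refl N), g (rho D s), hsP hsG N (le_refl N), rfl, ?_, ?_,
          ⟨_, h4, rfl⟩, ?_, ?_⟩
        · show fanc (nodeOf s hsG N (le_refl N)) m = _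
          rw [fanc_nodeOf s hsG N (le_refl N) m (by omega)]
          exact h1
        · refine mem_fU g s hsG h m (by omega) fun i hi => ?_
          rw [hso i hi]
          exact hsr i hi
        · show fT g (fanc (nodeOf s hsG N (le_refl N)) (m + 1)) ⊆ g '' suc t k
          rw [h2]
          exact Set.image_mono h3
        · show g u = g (rho D s) ∨ g u ∈ fT g (fanc (nodeOf s hsG N (le_refl N)) (m + 1))
          rw [h2]
          rcases hus with rfl | hus
          · exact Or.inl rfl
          · exact Or.inr ⟨u, hus, rfl⟩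
  apply Set.eq_univ_of_forall
  intro x
  have h1 : GS D ((∅, x.1.2) : Ty α N' (D + 1)) := exists_type x.2.2.1 x.2.2.2 ∅
  have h2 := key _ h1 h1 x.1.1 x.2.1
  have h3 : nodeOf ((∅, x.1.2) : Ty α N' (D + 1)) h1 x.1.1 x.2.1 = x := by
    apply Subtype.ext
    show (x.1.1, cutc x.1.2 x.1.1) = x.1
    rw [x.2.2.2]
  rw [h3] at h2
  exact h2

/-- The times. Note that `GenBy` in `fcert N g τ` does not depend on `τ`. -/
theorem f_time [Finite α] (g : Ty α N' D → V) (h : N ≤ N') :
    ∃ τ : FN α N' D N → ℕ, Function.Injective τ ∧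
      (∀ (x : FN α N' D N) (m : ℕ), x.1.1 = m + 1 → τ (fanc x m) < τ x) ∧
      ∀ (x : FN α N' D N) (m : ℕ), x.1.1 = m + 1 →
        (fcert N g τ).GenBy (fun l => τ l < τ x) (fanc x m) m (fT g x) := by
  obtain ⟨τ, hτ, hadd⟩ := exists_enum (X := FN α N' D N)
    (fun A x => x.1.1 = 0 ∨ ∃ m, x.1.1 = m + 1 ∧ fanc x m ∈ A ∧
      (fcert N g fun _ => 0).GenBy (fun l => l ∈ A) (fanc x m) m (fT g x)) (by
      intro A B x hAB hx
      rcases hx with hx | ⟨m, hx1, hx2, hx3⟩
      · exact Or.inl hx
      · refine Or.inr ⟨m, hx1, hAB hx2, fun w hw => ?_⟩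
        obtain ⟨l, v, hl, hrest⟩ := hx3 w hw
        exact ⟨l, v, hAB hl, hrest⟩) (fun A hA => f_closed g h A hA)
  refine ⟨τ, hτ, fun x m hx => ?_, fun x m hx => ?_⟩
  · rcases hadd x with h1 | ⟨m', h1, h2, -⟩
    · omega
    · have h3 : m' = m := by omega
      rw [h3] at h2
      exact h2
  · rcases hadd x with h1 | ⟨m', h1, -, h2⟩
    · omega
    · have h3 : m' = m := by omega
      rw [h3] at h2
      exact h2

end H94G
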