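import Pool.Agent.Lib.H94G.ForwB
import Pool.Agent.Lib.H94G.ForwC

/-!
# From a map on types to a certificate: assembly (chunk FD)

Take `fcert N g τ` with `τ` from `f_time`. The profiles: a leaf `l` and `v ∈ U l 0` are given by a type
`t` (`of_mem_fU`), whose profile is `(g (rho t); g '' suc t 0, ...)` (`fT_nodeOf`), and conversely.
-/

namespace H94G

theorem f_lev {α : Type} {N' D N : ℕ} (x : FN α N' D N) (j : ℕ) :
    (fanc x j).1.1 = min j x.1.1 := rfl

theorem forw {α : Type} [Finite α] {N' D : ℕ} {V : Type} (g : Ty α N' D → V) {N : ℕ}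
    (h : N ≤ N') : ∃ C : PreCert N V, C.IsCert ∧ C.prof = realz g h := by
  obtain ⟨τ, hτ, hτa, hτg⟩ := f_time (N := N) g h
  refine ⟨fcert N g τ, ?_, ?_⟩
  · exact {
      fin := inferInstanceAs (Finite (FN α N' D N))
      lev_le := fun x => x.2.1
      lev_root := rfl
      root_uniq := fun x hx => by
        have hx' : x.1.1 = 0 := hx
        apply Subtype.ext
        refine Prod.ext hx' ?_
        show x.1.2 = fun _ => ∅
        rw [← x.2.2.2, hx']
        funext j
        simp [cutc]
      anc_self := fun x => fanc_self x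
      lev_anc := fun x j hj => min_eq_left hj
      anc_anc := fun x i j hij _ => fanc_fanc x i j hij
      U_ne := fun l _ => fU_ne g l
      U_anti := fun l j _ _ => fU_anti g l j
      U_sub := fun l j hl hj => fU_sub g l hl h j hj
      legit := fun s m S hs hm hg => f_legit g h τ s m S hs hm hg
      empty_uniq := fun m s x y hx hy hTx hTy =>
        f_empty g h m x y hx.1 hy.1 (hx.2.trans hy.2.symm) hTx hTy
      τ_inj := hτ
      τ_anc := hτa
      avail := hτg }
  · ext q
    constructor
    · rintro ⟨l, hl, hq1, hq2⟩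
      obtain ⟨t, ht, hnode, hgv, -⟩ := of_mem_fU g l hl 0 (Nat.zero_le _) q.1 hq1
      refine ⟨t, ht, hgv.symm, fun k => ?_⟩
      rw [hq2 k, ← hnode]
      show fT g (fanc (nodeOf t ht N (le_refl N)) (k + 1)) = _
      have hk : (k : ℕ) + 1 ≤ N := k.2
      rw [fanc_nodeOf t ht N (le_refl N) (k + 1) hk]
      exact fT_nodeOf g t ht (Fin.castLE h k) hk
    · rintro ⟨t, ht, hq1, hq2⟩
      refine ⟨nodeOf t ht N (le_refl N), rfl, ?_, fun k => ?_⟩
      · rw [hq1]
        exact mem_fU g t ht h 0 (Nat.zero_le _) fun i hi => absurd hi (Nat.not_lt_zero _)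
      · rw [hq2 k]
        show _ = fT g (fanc (nodeOf t ht N (le_refl N)) (k + 1))
        have hk : (k : ℕ) + 1 ≤ N := k.2
        rw [fanc_nodeOf t ht N (le_refl N) (k + 1) hk]
        exact (fT_nodeOf g t ht (Fin.castLE h k) hk).symm

end H94G
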