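import Pool.Agent.Lib.H94G.Basic
import Pool.Agent.Lib.H94G.Cert

/-!
# From a map on types to a certificate: the certificate (chunk FA)

Let `g : Ty α N' D → V`, `N ≤ N'`. NODES of level `m ≤ N`: the generated contexts
`c : Fin N' → Set (Ty α N' D)` up to level `m` (`Ctx c m`), normalized by `c j = ∅` for `j ≥ m`.
`anc (m, c) j = (j, c cut off at j)`. `T (m+1, c) = g '' c m`.
Leaves (level `N`): `U (N, c) j = {g (rho t) | Over c N t, rho t ∈ c i for all i < j}`.
-/

namespace H94G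

variable {α : Type} {N' D : ℕ} {V : Type}

/-- The context `c` cut off at level `m`. -/
def cutc (c : Fin N' → Set (Ty α N' D)) (m : ℕ) : Fin N' → Set (Ty α N' D) :=
  fun j => if (j : ℕ) < m then c j else ∅

/-- Nodes: pairs (level, context). -/
def FN (α : Type) (N' D N : ℕ) : Type :=
  {p : ℕ × (Fin N' → Set (Ty α N' D)) // p.1 ≤ N ∧ Ctx p.2 p.1 ∧ cutc p.2 p.1 = p.2}

theorem cutc_apply (c : Fin N' → Set (Ty α N' D)) {m : ℕ} {j : Fin N'} (h : (j : ℕ) < m) :
    cutc c m j = c j := by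
  simp [cutc, h]

theorem cutc_cutc (c : Fin N' → Set (Ty α N' D)) {m m' : ℕ} (h : m ≤ m') :
    cutc (cutc c m') m = cutc c m := by
  funext j
  simp only [cutc]
  by_cases h1 : (j : ℕ) < m
  · simp [h1, h1.trans_le h]
  · simp [h1]

theorem ctx_cutc {c : Fin N' → Set (Ty α N' D)} {m m' : ℕ} (h : m ≤ m') (hc : Ctx c m') :
    Ctx (cutc c m) m := by
  exact (Ctx.congr (fun j hj => cutc_apply c hj)).2 (hc.mono h)

/-- All normalized contexts are of the form `cutc (suc t) m`. -/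
theorem exists_type {c : Fin N' → Set (Ty α N' D)} {m : ℕ} (hc : Ctx c m) (h : cutc c m = c)
    (v : Set α) : GS D ((v, c) : Ty α N' (D + 1)) := by
  refine GS.of_ctx (le_refl N') (fun k _ => ?_) v
  by_cases h1 : (k : ℕ) < m
  · exact hc k h1
  · have h2 : c k = ∅ := by
      rw [← h]
      simp [cutc, h1]
    rw [h2]
    exact GenAt.empty c k

/-- The node of level `m` given by the type `t`. -/
def nodeOf {N : ℕ} (t : Ty α N' (D + 1)) (ht : GS D t) (m : ℕ) (hm : m ≤ N) : FN α N' D N :=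
  ⟨(m, cutc (suc t) m), hm, ctx_cutc (le_refl m) (ht.ctx m), cutc_cutc _ (le_refl m)⟩

/-- Ancestors. -/
def fanc {N : ℕ} (x : FN α N' D N) (j : ℕ) : FN α N' D N :=
  ⟨(min j x.1.1, cutc x.1.2 (min j x.1.1)), (min_le_right _ _).trans x.2.1,
    ctx_cutc (min_le_right _ _) x.2.2.1, cutc_cutc _ (le_refl _)⟩

/-- The label `T`. -/
def fT {N : ℕ} (g : Ty α N' D → V) (x : FN α N' D N) : Set V :=
  {v | ∃ k : Fin N', (k : ℕ) + 1 = x.1.1 ∧ v ∈ g '' x.1.2 k}

/-- The label `U`. -/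
def fU {N : ℕ} (g : Ty α N' D → V) (x : FN α N' D N) (j : ℕ) : Set V :=
  {v | ∃ t : Ty α N' (D + 1), Over x.1.2 N t ∧ (∀ i : Fin N', (i : ℕ) < j → rho D t ∈ x.1.2 i) ∧
    g (rho D t) = v}

/-- The certificate (with arbitrary times). -/
def fcert (N : ℕ) (g : Ty α N' D → V) (τ : FN α N' D N → ℕ) : PreCert N V where
  Nd := FN α N' D N
  lev x := x.1.1
  anc := fanc
  root := ⟨(0, fun _ => ∅), Nat.zero_le _, fun k hk => absurd hk (Nat.not_lt_zero _), by
    funext j; simp [cutc]⟩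
  T := fT g
  U := fU g
  τ := τ

variable {N : ℕ}

instance [Finite α] : Finite (FN α N' D N) := by
  have : Finite (Ty α N' D) := instFiniteTy D
  let f : FN α N' D N → Fin (N + 1) × (Fin N' → Set (Ty α N' D)) := fun x =>
    (⟨x.1.1, Nat.lt_succ_of_le x.2.1⟩, x.1.2)
  refine Finite.of_injective f fun x y h => ?_
  apply Subtype.ext
  apply Prod.ext
  · exact congrArg (fun z => (z.1 : ℕ)) h
  · exact congrArg (fun z => z.2) h

theorem fanc_self (x : FN α N' D N) : fanc x x.1.1 = x := by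
  apply Subtype.ext
  show (min x.1.1 x.1.1, cutc x.1.2 (min x.1.1 x.1.1)) = x.1
  rw [min_self, x.2.2.2]

theorem fanc_fanc (x : FN α N' D N) (i j : ℕ) (h : i ≤ j) : fanc (fanc x j) i = fanc x i := by
  apply Subtype.ext
  show (min i (min j x.1.1), cutc (cutc x.1.2 (min j x.1.1)) (min i (min j x.1.1))) =
    (min i x.1.1, cutc x.1.2 (min i x.1.1))
  have h1 : min i (min j x.1.1) = min i x.1.1 := by omega
  rw [h1, cutc_cutc _ (by omega)]

theorem fanc_nodeOf (t : Ty α N' (D + 1)) (ht : GS D t) (m : ℕ) (hm : m ≤ N) (j : ℕ)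
    (hj : j ≤ m) : fanc (nodeOf t ht m hm) j = nodeOf t ht j (hj.trans hm) := by
  apply Subtype.ext
  show (min j m, cutc (cutc (suc t) m) (min j m)) = (j, cutc (suc t) j)
  have h1 : min j m = j := by omega
  rw [h1, cutc_cutc _ hj]

theorem fT_nodeOf (g : Ty α N' D → V) (t : Ty α N' (D + 1)) (ht : GS D t) (k : Fin N')
    (hk : (k : ℕ) + 1 ≤ N) : fT g (nodeOf t ht (k + 1) hk) = g '' suc t k := by
  ext v
  constructor
  · rintro ⟨k', hk', hv⟩
    have h1 : (k' : ℕ) + 1 = (k : ℕ) + 1 := hk'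
    have h2 : k' = k := Fin.ext (by omega)
    subst h2
    have h3 : v ∈ g '' cutc (suc t) ((k' : ℕ) + 1) k' := hv
    rw [cutc_apply _ (Nat.lt_succ_self _)] at h3
    exact h3
  · intro hv
    refine ⟨k, rfl, ?_⟩
    show v ∈ g '' cutc (suc t) ((k : ℕ) + 1) k
    rw [cutc_apply _ (Nat.lt_succ_self _)]
    exact hv

/-- `t` gives a leaf and an element of its label `U _ j`. -/
theorem mem_fU (g : Ty α N' D → V) (t : Ty α N' (D + 1)) (ht : GS D t) (h : N ≤ N') (j : ℕ)
    (hj : j ≤ N) (hr : ∀ i : Fin N', (i : ℕ) < j → rho D t ∈ suc t i) :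
    g (rho D t) ∈ fU g (nodeOf t ht N (le_refl N)) j := by
  refine ⟨t, ⟨ht, fun i hi => (cutc_apply _ hi).symm⟩, fun i hi => ?_, rfl⟩
  show rho D t ∈ cutc (suc t) N i
  rw [cutc_apply _ (by omega)]
  exact hr i hi

/-- Every element of a label of a leaf is given by a type. -/
theorem of_mem_fU (g : Ty α N' D → V) (l : FN α N' D N) (hl : l.1.1 = N) (j : ℕ) (hj : j ≤ N)
    (v : V) (hv : v ∈ fU g l j) : ∃ (t : Ty α N' (D + 1)) (ht : GS D t),
      nodeOf t ht N (le_refl N) = l ∧ g (rho D t) = v ∧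
      ∀ i : Fin N', (i : ℕ) < j → rho D t ∈ suc t i := by
  obtain ⟨t, ⟨ht, ho⟩, hr, hg⟩ := hv
  refine ⟨t, ht, ?_, hg, fun i hi => ?_⟩
  · apply Subtype.ext
    show (N, cutc (suc t) N) = l.1
    have h1 : cutc (suc t) N = l.1.2 := by
      rw [← l.2.2.2, hl]
      funext i
      simp only [cutc]
      by_cases h2 : (i : ℕ) < N
      · simp only [h2, if_true]
        exact ho i h2
      · simp [h2]
    exact Prod.ext hl.symm h1
  · rw [ho i (by omega)]
    exact hr i hi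

theorem fU_ne [Finite α] (g : Ty α N' D → V) (l : FN α N' D N) : (fU g l 0).Nonempty := by
  exact ⟨g (rho D ((∅, l.1.2) : Ty α N' (D + 1))), ((∅, l.1.2) : Ty α N' (D + 1)),
    ⟨exists_type l.2.2.1 l.2.2.2 ∅, fun _ _ => rfl⟩, fun i hi => absurd hi (Nat.not_lt_zero _), rfl⟩

theorem fU_anti (g : Ty α N' D → V) (l : FN α N' D N) (j : ℕ) : fU g l (j + 1) ⊆ fU g l j := by
  rintro v ⟨t, ht, hr, hg⟩
  exact ⟨t, ht, fun i hi => hr i (by omega), hg⟩

theorem fU_sub (g : Ty α N' D → V) (l : FN α N' D N) (hl : l.1.1 = N) (h : N ≤ N') (j : ℕ)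
    (hj : j < N) : fU g l (j + 1) ⊆ fT g (fanc l (j + 1)) := by
  rintro v ⟨t, ht, hr, hg⟩
  refine ⟨⟨j, by omega⟩, ?_, ?_⟩
  · show j + 1 = min (j + 1) l.1.1
    omega
  · show v ∈ g '' cutc l.1.2 (min (j + 1) l.1.1) ⟨j, _⟩
    rw [cutc_apply _ (by show j < min (j + 1) l.1.1; omega)]
    exact ⟨rho D t, hr ⟨j, by omega⟩ (Nat.lt_succ_self j), hg⟩

/-- Children with empty label are equal. -/
theorem f_empty (g : Ty α N' D → V) (h : N ≤ N') (m : ℕ) (x y : FN α N' D N)
    (hx : x.1.1 = m + 1) (hy : y.1.1 = m + 1) (hxy : fanc x m = fanc y m) (h1 : fT g x = ∅)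
    (h2 : fT g y = ∅) : x = y := by
  have hmN : m + 1 ≤ N := by rw [← hx]; exact x.2.1
  have key : ∀ z : FN α N' D N, z.1.1 = m + 1 → fT g z = ∅ → ∀ i : Fin N', ¬ (i : ℕ) < m →
      z.1.2 i = ∅ := by
    intro z hz hzT i hi
    by_cases h3 : (i : ℕ) = m
    · rw [Set.eq_empty_iff_forall_notMem]
      intro u hu
      have h4 : g u ∈ fT g z := ⟨i, by rw [hz, h3], u, hu, rfl⟩
      rw [hzT] at h4
      exact h4
    · rw [← z.2.2.2, hz]
      simp only [cutc]
      rw [if_neg (by omega)]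
  apply Subtype.ext
  apply Prod.ext
  · rw [hx, hy]
  · funext i
    by_cases h3 : (i : ℕ) < m
    · have h4 : cutc x.1.2 (min m x.1.1) = cutc y.1.2 (min m y.1.1) :=
        congrArg (fun z : FN α N' D N => z.1.2) hxy
      have h5 : min m x.1.1 = m := by omega
      have h6 : min m y.1.1 = m := by omega
      rw [h5, h6] at h4
      have h7 := congrFun h4 i
      rw [cutc_apply _ h3, cutc_apply _ h3] at h7
      exact h7
    · rw [key x hx h1 i h3, key y hy h2 i h3]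

end H94G
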