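import Pool.Agent.Lib.H94G.ForwA

/-!
# From a map on types to a certificate: every generated set has a good child (chunk FB)

LEGIT. Let `c` be a node of level `m < N`, `S ⊆ V`, `GenBy True c m S`. For each `w ∈ S` choose
`l_w`, `v_w` and `t_w` over `l_w` (hence over `c` up to `m`), `rho t_w ∈ c i` for `i < m`,
`g (rho t_w) = v_w`, `g '' suc t_w m = T (anc l_w (m+1)) ⊆ S`. Then `L0 = gen m {t_w}` is generated
over `c` and `g '' L0 = S`. Let `L ⊇ L0` be maximal with `GenAt c m L`, `g '' L = S`
(`exists_maximal_set`). The child is `(c, L)`. It is good: let `l` be a leaf below `(c, L)`,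
`v ∈ U l m`, `v ∈ S`: `v = g (rho t)` with `t` over `l` and realized in the levels `< m`; then
`L ∪ {rho t} ∪ suc t m = L ∪ {rho t}` is generated and has `g`-image `S ∪ {v} = S`; by maximality
`rho t ∈ L`, i.e. `t` is realized in level `m` too, `v ∈ U l (m+1)`.
-/

namespace H94G

variable {α : Type} {N N' D : ℕ} {V : Type}

theorem f_legit [Finite α] (g : Ty α N' D → V) (h : N ≤ N') (τ : FN α N' D N → ℕ)
    (s : FN α N' D N) (m : ℕ) (S : Set V) (hs : s.1.1 = m) (hm : m < N)
    (hg : (fcert N g τ).GenBy (fun _ => True) s m S) :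
    ∃ x, (fcert N g τ).Child m s x ∧ (fcert N g τ).T x = S ∧ (fcert N g τ).GoodAt m x := by
  have hfin : Finite (Ty α N' D) := instFiniteTy D
  obtain ⟨⟨m', c⟩, hsN, hctx, hnorm⟩ := s
  have hs' : m' = m := hs
  subst hs'
  have hctx' : Ctx c m' := hctx
  have hnorm' : cutc c m' = c := hnorm
  let k : Fin N' := ⟨m', by omega⟩
  have hk : (k : ℕ) = m' := rfl
  -- types with context `c`
  have hovr : ∀ (t : Ty α N' (D + 1)) (ht : GS D t),
      nodeOf t ht m' hm.le = (⟨(m', c), hsN, hctx, hnorm⟩ : FN α N' D N) →
      ∀ j : Fin N', (j : ℕ) < m' → suc t j = c j := by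
    intro t ht he j hj
    have h1 : cutc (suc t) m' = c := congrArg (fun z : FN α N' D N => z.1.2) he
    rw [← h1, cutc_apply _ hj]
  let A : Set (Ty α N' (D + 1)) := {t | Realz c k t ∧ g (rho D t) ∈ S ∧ g '' suc t k ⊆ S}
  have hP : GenAt c k (gen k A) ∧ g '' gen k A = S := by
    refine ⟨⟨A, fun t ht => ht.1, rfl⟩, ?_⟩
    ext w
    constructor
    · rintro ⟨u, hu, rfl⟩
      rcases hu with ⟨t, ht, rfl⟩ | hu
      · exact ht.2.1
      · simp only [Set.mem_iUnion] at hu
        obtain ⟨t, ht, hu⟩ := hu
        exact ht.2.2 ⟨u, hu, rfl⟩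
    · intro hw
      obtain ⟨l, v, -, hl, hls, hv, hvS, hT, hwv⟩ := hg w hw
      obtain ⟨t, ht, hnode, hgv, hr⟩ := of_mem_fU g l hl m' hm.le v hv
      subst hnode
      have h1 : nodeOf t ht m' hm.le = (⟨(m', c), hsN, hctx, hnorm⟩ : FN α N' D N) := by
        rw [← fanc_nodeOf t ht N (le_refl N) m' hm.le]
        exact hls
      have h2 := hovr t ht h1
      have h3 : fT g (fanc (nodeOf t ht N (le_refl N)) (m' + 1)) = g '' suc t k := by
        rw [fanc_nodeOf t ht N (le_refl N) (m' + 1) hm]
        exact fT_nodeOf g t ht k hm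
      have hT' : g '' suc t k ⊆ S := by
        rw [← h3]
        exact hT
      have hwv' : w = v ∨ w ∈ g '' suc t k := by
        rw [← h3]
        exact hwv
      have htA : t ∈ A := by
        refine ⟨⟨⟨ht, h2⟩, fun j hj => ?_⟩, by rw [hgv]; exact hvS, hT'⟩
        rw [← h2 j hj]
        exact hr j hj
      rcases hwv' with rfl | ⟨u, hu, rfl⟩
      · exact ⟨rho D t, Or.inl ⟨t, htA, rfl⟩, hgv⟩
      · refine ⟨u, Or.inr ?_, rfl⟩
        simp only [Set.mem_iUnion]
        exact ⟨t, htA, hu⟩
  obtain ⟨M, -, ⟨hM1, hM2⟩, hMmax⟩ := exists_maximal_set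
    (P := fun L : Set (Ty α N' D) => GenAt c k L ∧ g '' L = S) hP
  have hup : ∀ j : Fin N', (j : ℕ) < m' → Function.update c k M j = c j := by
    intro j hj
    apply Function.update_of_ne
    intro he
    rw [he] at hj
    omega
  have hupk : Function.update c k M k = M := Function.update_self _ _ _
  have hnormx : cutc (Function.update c k M) (m' + 1) = Function.update c k M := by
    funext j
    simp only [cutc]
    split_ifs with hj
    · rfl
    · have hjk : j ≠ k := by
        intro he
        rw [he] at hj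
        omega
      rw [Function.update_of_ne hjk, ← hnorm']
      simp only [cutc]
      rw [if_neg (by omega)]
  have hcx : Ctx (Function.update c k M) (m' + 1) := Ctx.update hctx' hM1
  let x : FN α N' D N := ⟨(m' + 1, Function.update c k M), hm, hcx, hnormx⟩
  have hxT : fT g x = S := by
    rw [← hM2]
    ext v
    constructor
    · rintro ⟨k', hk', hv⟩
      have h1 : (k' : ℕ) + 1 = m' + 1 := hk'
      have h2 : k' = k := Fin.ext (by omega)
      subst h2
      have h3 : v ∈ g '' Function.update c k M k := hv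
      rw [hupk] at h3
      exact h3
    · intro hv
      refine ⟨k, rfl, ?_⟩
      show v ∈ g '' Function.update c k M k
      rw [hupk]
      exact hv
  refine ⟨x, ⟨rfl, ?_⟩, hxT, ?_⟩
  · apply Subtype.ext
    show (min m' (m' + 1), cutc (Function.update c k M) (min m' (m' + 1))) = (m', c)
    have h1 : min m' (m' + 1) = m' := by omega
    rw [h1]
    refine Prod.ext rfl ?_
    show cutc (Function.update c k M) m' = c
    refine Eq.trans ?_ hnorm'
    funext j
    simp only [cutc]
    split_ifs with hj
    · exact hup j hj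
    · rfl
  · intro l hl hlx v hv hvT
    obtain ⟨t, ht, hnode, hgv, hr⟩ := of_mem_fU g l hl m' hm.le v hv
    subst hnode
    have h1 : cutc (suc t) (m' + 1) = Function.update c k M := by
      have h2 : nodeOf t ht (m' + 1) hm = x := by
        rw [← fanc_nodeOf t ht N (le_refl N) (m' + 1) hm]
        exact hlx
      exact congrArg (fun z : FN α N' D N => z.1.2) h2
    have h2 : ∀ j : Fin N', (j : ℕ) < m' → suc t j = c j := by
      intro j hj
      rw [← hup j hj, ← h1, cutc_apply _ (by omega)]
    have h3 : suc t k = M := by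
      rw [← hupk, ← h1, cutc_apply _ (by omega)]
    have h4 : Realz c k t := by
      refine ⟨⟨ht, h2⟩, fun j hj => ?_⟩
      rw [← h2 j hj]
      exact hr j hj
    have h5 : v ∈ S := by
      rw [← hxT]
      exact hvT
    have h6 : g '' (M ∪ ({rho D t} ∪ suc t k)) = S := by
      rw [h3, Set.image_union, Set.image_union, hM2, Set.image_singleton, hgv]
      ext w
      simp only [Set.mem_union, Set.mem_singleton_iff]
      constructor
      · rintro (hw | rfl | hw)
        · exact hw
        · exact h5
        · exact hw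
      · exact Or.inl
    have h7 := hMmax _ ⟨hM1.insert h4, h6⟩ Set.subset_union_left
    have h8 : rho D t ∈ suc t k := by
      rw [h3, ← h7]
      exact Or.inr (Or.inl rfl)
    have h9 := mem_fU g t ht h (m' + 1) hm (fun i hi => by
      rcases Nat.lt_or_ge (i : ℕ) m' with hi2 | hi2
      · exact hr i hi2
      · have h10 : i = k := Fin.ext (by omega)
        rw [h10]
        exact h8)
    rw [hgv] at h9
    exact h9

end H94G
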