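import Pool.Agent.Lib.H94G.InvA

/-!
# From a certificate to a map on types: the invariants (chunk IB)

Let `t` be a good type of depth `≥ D₀ + 2`; write `s_m(t) = W.node _ t m`, `g` for `W.g`, `ℓ(t)` for
the leaf `s_N(t)`. By `GS.ind` one proves

(I1) `s_{m+1}(t)` is a child of `s_m(t)` and `T s_{m+1}(t) = g '' suc t m` (`m < N`);
(I2) `g t ∈ U ℓ(t) 0`;
(I3) if `rho t ∈ suc t j` then `g t ∈ U ℓ(t) (j+1)`.

Let `A` be the generating set of `suc t m`; the elements `s ∈ A` are over `suc t` up to `m`, realized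
(`rho s ∈ suc s j` for `j < m`) and satisfy (I1)-(I3). Let `S = g '' suc t m`. Note
`{w | (m, inl w) ∈ ϑ} = S`. CLAIM: `GenBy True s_m(t) m S`. An element `w ∈ S` is `g u`,
`u ∈ suc t m = gen m A`: so there is `s ∈ A` with `u = rho s` or `u ∈ suc s m`; take
`l = ℓ(s)`, `v = g s`: `anc l m = s_m(s) = s_m(t)` by (I1) for `s` and `node_congr`
(`suc s j = suc t j` for `j < m`); `v ∈ U l m` by (I3) for `s` (`j = m - 1`; by (I2) if `m = 0`);
`v = g (rho s) ∈ S` as `rho s ∈ suc t m`; `T (anc l (m+1)) = g '' suc s m ⊆ S` as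
`suc s m ⊆ suc t m`; and `w = v` or `w ∈ g '' suc s m`. (Depths: `g` of `s` equals `g` of `rho s`,
`g_rho`.) Hence by `legit` there is a good child with label `S`, so `Sel` returns either a candidate
or a good child with label `S`: (I1). The sets of candidates are finite, so if there is a candidate
there is one with the greatest time.
(I2) holds by the definition of `vl`, as `U ℓ 0` is nonempty.
(I3) Induction on `j`; let `rho t ∈ suc t j`; then `rho t ∈ suc t i` for `i ≤ j` (`GS.nested`), so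
`g t ∈ U ℓ(t) j` (induction, (I2) if `j = 0`). If `s_{j+1}(t)` was selected as a candidate then
`(j, inr (inr s_{j+1}(t))) ∉ ϑ`, i.e. there is no `u ∈ suc t j` with `s_{j+1}(u) = s_{j+1}(t)` and
`g u ∉ U ℓ(u) (j+1)`; apply this to `u = rho t`, `s_i(u) = s_i(t)`, `g u = g t`. If it is a good
child, use `g t = g (rho t) ∈ g '' suc t j = T s_{j+1}(t)`.
-/

namespace H94G

open Classical

variable {N : ℕ} {V : Type} {C : PreCert N V} [Nonempty V] (W : Sol C)


omit [Nonempty V] in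
theorem chain_lev (hC : C.IsCert) (f : ℕ → C.Nd) (h0 : f 0 = C.root) (n : ℕ) (hn : n ≤ N)
    (hch : ∀ m, m < n → C.Child m (f m) (f (m + 1))) : C.lev (f n) = n := by
  cases n with
  | zero => rw [h0, hC.lev_root]
  | succ n => exact (hch n (Nat.lt_succ_self n)).1

omit [Nonempty V] in
theorem chain_anc (hC : C.IsCert) (f : ℕ → C.Nd) (h0 : f 0 = C.root) (n : ℕ) (hn : n ≤ N)
    (hch : ∀ m, m < n → C.Child m (f m) (f (m + 1))) : ∀ m, m ≤ n → C.anc (f n) m = f m := by
  induction n with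
  | zero =>
    intro m hm
    obtain rfl : m = 0 := Nat.le_zero.mp hm
    have h := hC.anc_self (f 0)
    rwa [h0, hC.lev_root, ← h0] at h
  | succ n ih =>
    intro m hm
    have hlev : C.lev (f (n + 1)) = n + 1 := (hch n (Nat.lt_succ_self n)).1
    rcases Nat.lt_or_ge n m with h | h
    · obtain rfl : m = n + 1 := by omega
      have := hC.anc_self (f (n + 1))
      rwa [hlev] at this
    · have h1 := hC.anc_anc (f (n + 1)) m n h (by omega)
      rw [(hch n (Nat.lt_succ_self n)).2] at h1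
      rw [← h1]
      exact ih (by omega) (fun m hm => hch m (by omega)) m h


omit [Nonempty V] in
theorem sel_spec (m : ℕ) (s : C.Nd) (S : Set V) (B E : Set C.Nd)
    (h : ∃ x, C.Child m s x ∧ C.T x = S ∧ C.GoodAt m x) :
    C.Child m s (Sel C m s S B E) ∧ C.T (Sel C m s S B E) = S ∧
      ((Sel C m s S B E ∈ B ∧ Sel C m s S B E ∉ E) ∨ C.GoodAt m (Sel C m s S B E)) := by
  unfold Sel
  by_cases h1 : ∃ x, Cand C m s S B E x ∧ ∀ y, Cand C m s S B E y → C.τ y ≤ C.τ x
  · rw [dif_pos h1]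
    obtain ⟨a, b, c, d⟩ := (choose_spec h1).1
    exact ⟨a, b, Or.inl ⟨c, d⟩⟩
  · rw [dif_neg h1, dif_pos h]
    obtain ⟨a, b, c⟩ := choose_spec h
    exact ⟨a, b, Or.inr c⟩

/-- Marked and not excluded. -/
def MkAt (k : ℕ) (t : Ty (Vr C) N (W.D₀ + (k + 1) + 1)) (m : Fin N) : Prop :=
  (∃ u ∈ suc t m, Sum.inr (W.node (k + 2) t (m + 1)) ∈ val _ u) ∧
    ∀ u ∈ suc t m, W.node (k + 1) u (m + 1) = W.node (k + 2) t (m + 1) →
      W.g (k + 1) u ∈ C.U (W.node (k + 1) u N) (m + 1)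

/-- The invariants with the marking information. -/
def InvP (k : ℕ) (t : Ty (Vr C) N (W.D₀ + (k + 1) + 1)) : Prop :=
  (∀ m : Fin N, C.Child m (W.node (k + 2) t m) (W.node (k + 2) t (m + 1)) ∧
      C.T (W.node (k + 2) t (m + 1)) = W.g (k + 1) '' suc t m ∧
      (MkAt W k t m ∨ C.GoodAt m (W.node (k + 2) t (m + 1)))) ∧
    W.g (k + 2) t ∈ C.U (W.node (k + 2) t N) 0 ∧
    (∀ j : Fin N, rho _ t ∈ suc t j → W.g (k + 2) t ∈ C.U (W.node (k + 2) t N) (j + 1))

theorem node_zero (k : ℕ) (t : Ty (Vr C) N (W.D₀ + k)) : W.node k t 0 = C.root := rfl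

theorem node_sel (k : ℕ) (t : Ty (Vr C) N (W.D₀ + (k + 1) + 1))
    (ht : GS (W.D₀ + (k + 1)) t) (m : Fin N) :
    W.node (k + 2) t (m + 1) = Sel C m (W.node (k + 2) t m) (W.g (k + 1) '' suc t m)
      {s | ∃ u ∈ suc t m, Sum.inr s ∈ val _ u}
      {s | ∃ u ∈ suc t m, W.node (k + 1) u (m + 1) = s ∧
        W.g (k + 1) u ∉ C.U (W.node (k + 1) u N) (m + 1)} := by
  have e0 : W.node (k + 2) t (m + 1) = Sel C m (W.node (k + 2) t m)
      {w | ((m, Sum.inl w) : Ix C) ∈ W.ϑ (cut W.D₀ (k + 1 + 1) t)}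
      {s | ((m, Sum.inr (Sum.inl s)) : Ix C) ∈ W.ϑ (cut W.D₀ (k + 1 + 1) t)}
      {s | ((m, Sum.inr (Sum.inr s)) : Ix C) ∈ W.ϑ (cut W.D₀ (k + 1 + 1) t)} := by
    show nd C (W.ϑ (cut W.D₀ (k + 2) t)) (m + 1) = _
    rw [nd, dif_pos m.2]
    rfl
  rw [e0]
  congr 1
  · ext w; exact mem_val_atom W (k + 1) t ht m w
  · ext s; exact mem_mark_atom W (k + 1) t ht m s
  · ext s; exact mem_excl_atom W (k + 1) t ht m s

theorem g_mem (hC : C.IsCert) (k : ℕ) (t : Ty (Vr C) N (W.D₀ + k))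
    (h : C.lev (W.node k t N) = N) : W.g k t ∈ C.U (W.node k t N) 0 := by
  unfold Sol.g Sol.node vl
  unfold Sol.node at h
  split_ifs with h1
  · exact h1
  · exact Classical.epsilon_spec (hC.U_ne _ h)

theorem invP (hC : C.IsCert) (k : ℕ) :
    ∀ t : Ty (Vr C) N (W.D₀ + (k + 1) + 1), GS (W.D₀ + (k + 1)) t → InvP W k t := by
  apply GS.ind
  intro t ht ih
  -- levels and the selection
  have key : ∀ m : Fin N, C.lev (W.node (k + 2) t m) = m →
      C.Child m (W.node (k + 2) t m) (W.node (k + 2) t (m + 1)) ∧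
      C.T (W.node (k + 2) t (m + 1)) = W.g (k + 1) '' suc t m ∧
      (MkAt W k t m ∨ C.GoodAt m (W.node (k + 2) t (m + 1))) := by
    intro m hlev
    have hgen : C.GenBy (fun _ => True) (W.node (k + 2) t m) m (W.g (k + 1) '' suc t m) := by
      rintro w ⟨u, hu, rfl⟩
      obtain ⟨A, hA, hgenA⟩ := ih m
      have hu' : ∃ s ∈ A, u = rho _ s ∨ u ∈ suc s m := by
        rw [hgenA] at hu
        rcases hu with ⟨s, hs, rfl⟩ | hu
        · exact ⟨s, hs, Or.inl rfl⟩
        · rw [Set.mem_iUnion₂] at hu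
          obtain ⟨s, hs, hu⟩ := hu
          exact ⟨s, hs, Or.inr hu⟩
      obtain ⟨s, hs, hus⟩ := hu'
      obtain ⟨⟨⟨hsg, hsj⟩, hsr⟩, hPs⟩ := hA s hs
      have hch : ∀ i, i < N → C.Child i (W.node (k + 2) s i) (W.node (k + 2) s (i + 1)) :=
        fun i hi => (hPs.1 ⟨i, hi⟩).1
      have hlevN := chain_lev hC (fun i => W.node (k + 2) s i) (node_zero W (k + 2) s) N le_rfl hch
      have hanc := chain_anc hC (fun i => W.node (k + 2) s i) (node_zero W (k + 2) s) N le_rfl hch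
      have hrs : rho _ s ∈ suc t m := by
        rw [hgenA]; exact Or.inl ⟨s, hs, rfl⟩
      have hss : suc s m ⊆ suc t m := by
        intro x hx
        rw [hgenA]
        refine Or.inr ?_
        rw [Set.mem_iUnion₂]
        exact ⟨s, hs, hx⟩
      refine ⟨W.node (k + 2) s N, W.g (k + 2) s, trivial, hlevN, ?_, ?_, ?_, ?_, ?_⟩
      · rw [hanc m (le_of_lt m.2)]
        exact node_congr W (k + 1) s t hsg ht m (fun j hj => hsj j hj)
      · obtain ⟨m, hm⟩ := m
        cases m with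
        | zero => exact hPs.2.1
        | succ j =>
          have hj : j < N := by omega
          have h1 := hPs.2.2 ⟨j, hj⟩
          apply h1
          have h2 := hsr ⟨j, hj⟩ (Nat.lt_succ_self j)
          rw [hsj ⟨j, hj⟩ (Nat.lt_succ_self j)]
          exact h2
      · exact ⟨rho _ s, hrs, (g_rho W (k + 1) s).symm⟩
      · rw [hanc (m + 1) m.2]
        show C.T (W.node (k + 2) s (m + 1)) ⊆ _
        rw [(hPs.1 m).2.1]
        exact Set.image_mono hss
      · rcases hus with rfl | hus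
        · exact Or.inl (g_rho W (k + 1) s).symm
        · refine Or.inr ?_
          rw [hanc (m + 1) m.2]
          show _ ∈ C.T (W.node (k + 2) s (m + 1))
          rw [(hPs.1 m).2.1]
          exact ⟨u, hus, rfl⟩
    have hleg := hC.legit (W.node (k + 2) t m) m _ hlev m.2 hgen
    have hsel := sel_spec m (W.node (k + 2) t m) (W.g (k + 1) '' suc t m)
      {s | ∃ u ∈ suc t m, Sum.inr s ∈ val _ u}
      {s | ∃ u ∈ suc t m, W.node (k + 1) u (m + 1) = s ∧
        W.g (k + 1) u ∉ C.U (W.node (k + 1) u N) (m + 1)} hleg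
    rw [← node_sel W k t ht m] at hsel
    refine ⟨hsel.1, hsel.2.1, ?_⟩
    rcases hsel.2.2 with h | h
    · refine Or.inl ⟨h.1, ?_⟩
      intro u hu he
      by_contra hc
      exact h.2 ⟨u, hu, he, hc⟩
    · exact Or.inr h
  have hlev : ∀ m, m ≤ N → C.lev (W.node (k + 2) t m) = m := by
    intro m
    induction m with
    | zero => intro _; rw [node_zero, hC.lev_root]
    | succ m ihm =>
      intro hm
      exact (key ⟨m, hm⟩ (ihm (by omega))).1.1
  have h1 := fun m : Fin N => key m (hlev m (le_of_lt m.2))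
  have h2 : W.g (k + 2) t ∈ C.U (W.node (k + 2) t N) 0 := g_mem W hC (k + 2) t (hlev N le_rfl)
  refine ⟨h1, h2, ?_⟩
  have hch : ∀ i, i < N → C.Child i (W.node (k + 2) t i) (W.node (k + 2) t (i + 1)) :=
    fun i hi => (h1 ⟨i, hi⟩).1
  have hanc := chain_anc hC (fun i => W.node (k + 2) t i) (node_zero W (k + 2) t) N le_rfl hch
  have main : ∀ (j : ℕ) (hj : j < N), rho _ t ∈ suc t ⟨j, hj⟩ →
      W.g (k + 2) t ∈ C.U (W.node (k + 2) t N) (j + 1) := by
    intro j
    induction j with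
    | zero =>
      intro hj hr
      rcases (h1 ⟨0, hj⟩).2.2 with h | h
      · have := h.2 (rho _ t) hr rfl
        rwa [← g_rho W (k + 1) t] at this
      · refine h _ (hlev N le_rfl) (hanc 1 hj) _ h2 ?_
        show _ ∈ C.T (W.node (k + 2) t (0 + 1))
        rw [(h1 ⟨0, hj⟩).2.1]
        exact ⟨rho _ t, hr, (g_rho W (k + 1) t).symm⟩
    | succ j ihj =>
      intro hj hr
      have hj' : j < N := by omega
      have hr' : rho _ t ∈ suc t ⟨j, hj'⟩ :=
        ht.nested (show (⟨j, hj'⟩ : Fin N) ≤ ⟨j + 1, hj⟩ from Nat.le_succ j) hr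
      have h3 := ihj hj' hr'
      rcases (h1 ⟨j + 1, hj⟩).2.2 with h | h
      · have := h.2 (rho _ t) hr rfl
        rwa [← g_rho W (k + 1) t] at this
      · refine h _ (hlev N le_rfl) (hanc (j + 1 + 1) hj) _ h3 ?_
        show _ ∈ C.T (W.node (k + 2) t (j + 1 + 1))
        rw [(h1 ⟨j + 1, hj⟩).2.1]
        exact ⟨rho _ t, hr, (g_rho W (k + 1) t).symm⟩
  exact fun j hr => main j.1 j.2 hr

/-- The invariants. -/
theorem inv (hC : C.IsCert) (k : ℕ) (t : Ty (Vr C) N (W.D₀ + (k + 1) + 1))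
    (ht : GS (W.D₀ + (k + 1)) t) :
    (∀ m : Fin N, C.Child m (W.node (k + 2) t m) (W.node (k + 2) t (m + 1)) ∧
      C.T (W.node (k + 2) t (m + 1)) = W.g (k + 1) '' suc t m) ∧
    W.g (k + 2) t ∈ C.U (W.node (k + 2) t N) 0 ∧
    (∀ j : Fin N, rho _ t ∈ suc t j → W.g (k + 2) t ∈ C.U (W.node (k + 2) t N) (j + 1)) := by
  obtain ⟨h1, h2, h3⟩ := invP W hC k t ht
  exact ⟨fun m => ⟨(h1 m).1, (h1 m).2.1⟩, h2, h3⟩

/-- The selected node is either marked or good. -/
theorem marked_or_good (hC : C.IsCert) (k : ℕ) (t : Ty (Vr C) N (W.D₀ + (k + 1) + 1))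
    (ht : GS (W.D₀ + (k + 1)) t) (m : Fin N) :
    (∃ u ∈ suc t m, Sum.inr (W.node (k + 2) t (m + 1)) ∈ val _ u) ∨
      C.GoodAt m (W.node (k + 2) t (m + 1)) := by
  rcases ((invP W hC k t ht).1 m).2.2 with h | h
  · exact Or.inl h.1
  · exact Or.inr h

/-- Consequences for the tree structure. -/
theorem anc_node (hC : C.IsCert) (k : ℕ) (t : Ty (Vr C) N (W.D₀ + (k + 1) + 1))
    (ht : GS (W.D₀ + (k + 1)) t) (m : ℕ) (hm : m ≤ N) :
    C.lev (W.node (k + 2) t m) = m ∧ C.anc (W.node (k + 2) t N) m = W.node (k + 2) t m := by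
  have h1 := (invP W hC k t ht).1
  have hch : ∀ i, i < N → C.Child i (W.node (k + 2) t i) (W.node (k + 2) t (i + 1)) :=
    fun i hi => (h1 ⟨i, hi⟩).1
  exact ⟨chain_lev hC (fun i => W.node (k + 2) t i) (node_zero W (k + 2) t) m hm
      (fun i hi => hch i (by omega)),
    chain_anc hC (fun i => W.node (k + 2) t i) (node_zero W (k + 2) t) N le_rfl hch m hm⟩

end H94G
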