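import Pool.Agent.Lib.H94G.Assign

/-!
# From a certificate to a map on types: first facts (chunk IA)

`W.node k t m`, `W.g k t` depend only on the boxed atoms of `cut t` and on `val t`. The membership
of the boxed atoms is `W.eqn` with the definition of `bet`. `node_congr` by induction on `m` (the
boxed atoms with first component `j < m` are the same for `t` and `t'`, as they depend only on
`suc t j = suc t' j`). `node_succ_cand`: under the hypotheses `x` is a candidate with the greatest time,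
and every candidate has time `≤ τ x`; `τ` is injective, so the chosen candidate is `x`.
-/

namespace H94G

open Classical

variable {N : ℕ} {V : Type} {C : PreCert N V} [Nonempty V] (W : Sol C)

theorem node_rho (k : ℕ) (t : Ty (Vr C) N (W.D₀ + k + 1)) (m : ℕ) :
    W.node (k + 1) t m = W.node k (rho _ t) m := rfl

theorem g_rho (k : ℕ) (t : Ty (Vr C) N (W.D₀ + k + 1)) :
    W.g (k + 1) t = W.g k (rho _ t) := by
  show vl C (val (W.D₀ + k + 1) t) (W.ϑ (cut W.D₀ k (rho _ t))) =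
    vl C (val (W.D₀ + k) (rho _ t)) (W.ϑ (cut W.D₀ k (rho _ t)))
  rw [val_rho]

/-- Membership of the boxed atoms. -/
theorem mem_val_atom (k : ℕ) (t : Ty (Vr C) N (W.D₀ + k + 1)) (ht : GS (W.D₀ + k) t) (m : Fin N)
    (w : V) : ((m, Sum.inl w) : Ix C) ∈ W.ϑ (cut W.D₀ (k + 1) t) ↔ w ∈ W.g k '' suc t m :=
  W.eqn k t ht (m, Sum.inl w)

theorem mem_mark_atom (k : ℕ) (t : Ty (Vr C) N (W.D₀ + k + 1)) (ht : GS (W.D₀ + k) t) (m : Fin N)
    (s : C.Nd) : ((m, Sum.inr (Sum.inl s)) : Ix C) ∈ W.ϑ (cut W.D₀ (k + 1) t) ↔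
      ∃ u ∈ suc t m, Sum.inr s ∈ val _ u :=
  W.eqn k t ht (m, Sum.inr (Sum.inl s))

theorem mem_excl_atom (k : ℕ) (t : Ty (Vr C) N (W.D₀ + k + 1)) (ht : GS (W.D₀ + k) t) (m : Fin N)
    (s : C.Nd) : ((m, Sum.inr (Sum.inr s)) : Ix C) ∈ W.ϑ (cut W.D₀ (k + 1) t) ↔
      ∃ u ∈ suc t m, W.node k u (m + 1) = s ∧ W.g k u ∉ C.U (W.node k u N) (m + 1) :=
  W.eqn k t ht (m, Sum.inr (Sum.inr s))

/-- The recursion for the assigned nodes. -/
theorem node_succ (k : ℕ) (t : Ty (Vr C) N (W.D₀ + k + 1)) (ht : GS (W.D₀ + k) t) (m : Fin N) :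
    W.node (k + 1) t (m + 1) = Sel C m (W.node (k + 1) t m) (W.g k '' suc t m)
      {s | ∃ u ∈ suc t m, (Sum.inr s : Vr C) ∈ val _ u}
      {s | ∃ u ∈ suc t m, W.node k u (m + 1) = s ∧ W.g k u ∉ C.U (W.node k u N) (m + 1)} := by
  have h1 : ({w | ((m, Sum.inl w) : Ix C) ∈ W.ϑ (cut W.D₀ (k + 1) t)} : Set V) =
      W.g k '' suc t m := by
    ext w; exact mem_val_atom W k t ht m w
  have h2 : ({s | ((m, Sum.inr (Sum.inl s)) : Ix C) ∈ W.ϑ (cut W.D₀ (k + 1) t)} : Set C.Nd) =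
      {s | ∃ u ∈ suc t m, (Sum.inr s : Vr C) ∈ val _ u} := by
    ext s; exact mem_mark_atom W k t ht m s
  have h3 : ({s | ((m, Sum.inr (Sum.inr s)) : Ix C) ∈ W.ϑ (cut W.D₀ (k + 1) t)} : Set C.Nd) =
      {s | ∃ u ∈ suc t m, W.node k u (m + 1) = s ∧ W.g k u ∉ C.U (W.node k u N) (m + 1)} := by
    ext s; exact mem_excl_atom W k t ht m s
  rw [← h1, ← h2, ← h3]
  have h4 : (m : ℕ) < N := m.2
  show nd C (W.ϑ (cut W.D₀ (k + 1) t)) ((m : ℕ) + 1) = _
  conv_lhs => unfold nd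
  rw [dif_pos h4]
  rfl

/-- The node at level `m` depends only on the successor sets of the levels `< m`. -/
theorem node_congr (k : ℕ) (t t' : Ty (Vr C) N (W.D₀ + k + 1)) (ht : GS (W.D₀ + k) t)
    (ht' : GS (W.D₀ + k) t') (m : ℕ) (h : ∀ j : Fin N, (j : ℕ) < m → suc t j = suc t' j) :
    W.node (k + 1) t m = W.node (k + 1) t' m := by
  induction m with
  | zero => rfl
  | succ m ih =>
    have ih' := ih fun j hj => h j (by omega)
    by_cases hm : m < N
    · have h1 := node_succ W k t ht ⟨m, hm⟩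
      have h2 := node_succ W k t' ht' ⟨m, hm⟩
      simp only at h1 h2
      rw [h1, h2, ih', h ⟨m, hm⟩ (Nat.lt_succ_self m)]
    · have h1 : ∀ t'' : Ty (Vr C) N (W.D₀ + k + 1), W.node (k + 1) t'' (m + 1) =
          W.node (k + 1) t'' m := by
        intro t''
        show nd C (W.ϑ (cut W.D₀ (k + 1) t'')) (m + 1) = nd C (W.ϑ (cut W.D₀ (k + 1) t'')) m
        conv_lhs => unfold nd
        rw [dif_neg hm]
      rw [h1, h1, ih']

/-- The value depends only on the decoded valuation and the leaf. -/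
theorem g_eq (k : ℕ) (t : Ty (Vr C) N (W.D₀ + k)) (h : dec C (val _ t) ∈ C.U (W.node k t N) 0) :
    W.g k t = dec C (val _ t) := by
  show vl C (val (W.D₀ + k) t) (W.ϑ (cut W.D₀ k t)) = _
  unfold vl
  rw [if_pos]
  exact h

/-- The selection rule: the candidate case. -/
theorem node_succ_cand (hC : C.IsCert) (k : ℕ) (t : Ty (Vr C) N (W.D₀ + k + 1))
    (ht : GS (W.D₀ + k) t) (m : Fin N) (x : C.Nd) (hx : C.Child m (W.node (k + 1) t m) x)
    (hT : C.T x = W.g k '' suc t m) (hB : ∃ u ∈ suc t m, Sum.inr x ∈ val _ u)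
    (hE : ∀ u ∈ suc t m, W.node k u (m + 1) = x → W.g k u ∈ C.U (W.node k u N) (m + 1))
    (hmax : ∀ y, C.Child m (W.node (k + 1) t m) y → (∃ u ∈ suc t m, Sum.inr y ∈ val _ u) →
      C.τ y ≤ C.τ x) : W.node (k + 1) t (m + 1) = x := by
  rw [node_succ W k t ht m]
  have hcand : Cand C m (W.node (k + 1) t m) (W.g k '' suc t m)
      {s | ∃ u ∈ suc t m, (Sum.inr s : Vr C) ∈ val _ u}
      {s | ∃ u ∈ suc t m, W.node k u (m + 1) = s ∧ W.g k u ∉ C.U (W.node k u N) (m + 1)} x :=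
    ⟨hx, hT, hB, fun ⟨u, hu, h1, h2⟩ => h2 (hE u hu h1)⟩
  have hex : ∃ x, Cand C m (W.node (k + 1) t m) (W.g k '' suc t m)
      {s | ∃ u ∈ suc t m, (Sum.inr s : Vr C) ∈ val _ u}
      {s | ∃ u ∈ suc t m, W.node k u (m + 1) = s ∧ W.g k u ∉ C.U (W.node k u N) (m + 1)} x ∧
      ∀ y, Cand C m (W.node (k + 1) t m) (W.g k '' suc t m)
      {s | ∃ u ∈ suc t m, (Sum.inr s : Vr C) ∈ val _ u}
      {s | ∃ u ∈ suc t m, W.node k u (m + 1) = s ∧ W.g k u ∉ C.U (W.node k u N) (m + 1)} y →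
        C.τ y ≤ C.τ x :=
    ⟨x, hcand, fun y hy => hmax y hy.1 hy.2.2.1⟩
  unfold Sel
  rw [dif_pos hex]
  have h1 := choose_spec hex
  apply hC.τ_inj
  apply le_antisymm
  · exact hmax _ h1.1.1 h1.1.2.2.1
  · exact h1.2 x hcand

end H94G
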