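import Pool.Agent.Lib.H94G.Basic

/-!
# Lifting (chunk LI)

LIFT. Every good type of depth `D` is the truncation of a good type of depth `D + 1`.
Depth `0`: `v` lifts to `(v; ∅, ..., ∅)`.

Depth `D + 1`. A context `ĉ : Fin N → Set (Ty (D + 1))` is *saturated up to m* if for all `k < m`
the set `ĉ k` is generated over `ĉ` (`GenAt ĉ k (ĉ k)`) and is maximal: `GenAt ĉ k L`, `ĉ k ⊆ L`,
`rho '' L = rho '' ĉ k` imply `L = ĉ k`.

CLAIM. For `t : Ty (D + 1)` with `GS D t`, all `m ≤ N` and all `ĉ` saturated up to `m` with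
`rho '' ĉ j = suc t j` for `j < m`, there is `t' : Ty (D + 2)` with `GS (D + 1) t'`,
`suc t' j = ĉ j` for `j < m` and `rho t' = t`.
Proof by `GS.ind` on `t`. Let `A_k` be the generating sets of `t` (`s ∈ A_k` is over `suc t` up to
`k`, `rho s ∈ suc t j` for `j < k`, and the claim holds for `s`). Construct `ĉ m, ĉ (m+1), ...,
ĉ (N-1)` one after the other: if `ĉ j`, `j < k`, are chosen, saturated and lifting `suc t j`, then
each `s ∈ A_k` has by the claim for `s` a lift `ŝ` over `(ĉ j)_{j<k}` (note `suc s j = suc t j` for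
`j < k`). `ŝ` is realized: `rho ŝ = s ∈ ĉ j` for all `j < k` by induction on `j`: the set
`ĉ j ∪ {s} ∪ suc ŝ j = ĉ j ∪ {s}` is generated at level `j` (`GenAt.insert`, as `ŝ` is `Realz` up to
`j` by induction) and its `rho`-image is `suc t j ∪ {rho s} = suc t j`; by maximality `s ∈ ĉ j`.
So `L0 = gen k {ŝ | s ∈ A_k}` is generated and `rho '' L0 = gen k A_k = suc t k`. Let `ĉ k` be a
maximal generated set containing `L0` with `rho`-image `suc t k` (`exists_maximal_set`).
Finally `t' = (val t, ĉ)`.
-/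

namespace H94G

open Form

variable {α : Type} {N : ℕ}

/-- saturated contexts -/
def LiSat {D : ℕ} (c : Fin N → Set (Ty α N (D + 1))) (m : ℕ) : Prop :=
  ∀ k : Fin N, (k : ℕ) < m → GenAt c k (c k) ∧
    ∀ L, GenAt c k L → c k ⊆ L → rho D '' L = rho D '' c k → L = c k

theorem LiSat.congr {D : ℕ} {c c' : Fin N → Set (Ty α N (D + 1))} {m : ℕ}
    (hc : ∀ j : Fin N, (j : ℕ) < m → c j = c' j) (h : LiSat c m) : LiSat c' m := by
  intro k hk
  obtain ⟨h1, h2⟩ := h k hk
  have hlt : ∀ j, j < k → c j = c' j := fun j hj => hc j (lt_trans hj hk)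
  rw [← hc k hk]
  exact ⟨(GenAt.congr hlt _).1 h1, fun L hL => h2 L ((GenAt.congr hlt _).2 hL)⟩

/-- a lift of a realized type is realized -/
theorem li_realized {D : ℕ} {t : Ty α N (D + 1)} {c : Fin N → Set (Ty α N (D + 1))} {k : Fin N}
    (hc : LiSat c k) (hrho : ∀ j : Fin N, j < k → rho D '' c j = suc t j) {s : Ty α N (D + 1)}
    (hs : Realz (suc t) k s) {s' : Ty α N (D + 2)} (h1 : GS (D + 1) s')
    (h2 : ∀ j : Fin N, j < k → suc s' j = c j) (h3 : rho (D + 1) s' = s) :
    Realz c k s' := by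
  refine ⟨⟨h1, fun j hj => h2 j hj⟩, ?_⟩
  have key : ∀ n : ℕ, ∀ j : Fin N, (j : ℕ) = n → j < k → s ∈ c j := by
    intro n
    induction n using Nat.strong_induction_on with
    | _ n ih =>
      intro j hjn hjk
      obtain ⟨g1, g2⟩ := hc j hjk
      have hr : Realz c j s' := by
        refine ⟨⟨h1, fun i hi => h2 i (lt_trans hi hjk)⟩, fun i hi => ?_⟩
        rw [h3]
        exact ih i (by have : (i : ℕ) < j := hi; omega) i rfl (lt_trans hi hjk)
      have g3 := g1.insert hr
      have g4 := g2 _ g3 Set.subset_union_left (by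
        rw [h3, h2 j hjk, Set.image_union, Set.image_union, Set.image_singleton, hrho j hjk]
        have h5 : rho D s ∈ suc t j := hs.2 j hjk
        ext u
        simp only [Set.mem_union, Set.mem_singleton_iff]
        constructor
        · rintro (h | rfl | h)
          · exact h
          · exact h5
          · exact h
        · intro h
          exact Or.inl h)
      rw [← g4, h3]
      exact Or.inr (Or.inl rfl)
  intro j hj
  rw [h3]
  exact key j j rfl hj

/-- The claim of the header. -/
theorem li_claim [Finite α] {D : ℕ} (t : Ty α N (D + 1)) (ht : GS D t) :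
    ∀ m : ℕ, m ≤ N → ∀ c : Fin N → Set (Ty α N (D + 1)), LiSat c m →
      (∀ j : Fin N, (j : ℕ) < m → rho D '' c j = suc t j) →
      ∃ t' : Ty α N (D + 2), GS (D + 1) t' ∧ (∀ j : Fin N, (j : ℕ) < m → suc t' j = c j) ∧
        rho (D + 1) t' = t := by
  refine GS.ind (P := fun t => ∀ m : ℕ, m ≤ N → ∀ c : Fin N → Set (Ty α N (D + 1)), LiSat c m →
      (∀ j : Fin N, (j : ℕ) < m → rho D '' c j = suc t j) →
      ∃ t' : Ty α N (D + 2), GS (D + 1) t' ∧ (∀ j : Fin N, (j : ℕ) < m → suc t' j = c j) ∧
        rho (D + 1) t' = t) ?_ t ht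
  intro t _ hA m hm c hc hrho
  -- extension to all levels
  have hext : ∀ n : ℕ, m ≤ n → n ≤ N → ∃ c' : Fin N → Set (Ty α N (D + 1)), LiSat c' n ∧
      (∀ j : Fin N, (j : ℕ) < m → c' j = c j) ∧
      (∀ j : Fin N, (j : ℕ) < n → rho D '' c' j = suc t j) := by
    intro n hmn
    induction n, hmn using Nat.le_induction with
    | base => intro _; exact ⟨c, hc, fun _ _ => rfl, hrho⟩
    | succ n hmn ih =>
      intro hnN
      obtain ⟨c', hc', hcc, hr'⟩ := ih (by omega)
      let k : Fin N := ⟨n, hnN⟩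
      obtain ⟨A, hA1, hA2⟩ := hA k
      have hlift : ∀ s ∈ A, ∃ s' : Ty α N (D + 2), Realz c' k s' ∧ rho (D + 1) s' = s := by
        intro s hs
        obtain ⟨hsr, hsP⟩ := hA1 s hs
        obtain ⟨s', g1, g2, g3⟩ := hsP n (by omega) c' hc' (fun j hj => by
          rw [hr' j hj]
          exact (hsr.1.2 j hj).symm)
        exact ⟨s', li_realized (k := k) hc' (fun j hj => hr' j hj) hsr g1 (fun j hj => g2 j hj) g3,
          g3⟩
      choose f hf1 hf2 using hlift
      let A' : Set (Ty α N (D + 2)) := {s' | ∃ (s : Ty α N (D + 1)) (hs : s ∈ A), s' = f s hs}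
      have hA' : rho (D + 1) '' A' = A := by
        ext s
        constructor
        · rintro ⟨_, ⟨s, hs, rfl⟩, rfl⟩
          rw [hf2 s hs]
          exact hs
        · intro hs
          exact ⟨f s hs, ⟨s, hs, rfl⟩, hf2 s hs⟩
      have hL0 : GenAt c' k (gen k A') ∧ rho D '' (gen k A') = suc t k := by
        refine ⟨⟨A', ?_, rfl⟩, ?_⟩
        · rintro _ ⟨s, hs, rfl⟩
          exact hf1 s hs
        · rw [← bb_gen_rho, hA', hA2]
      obtain ⟨M, hM1, ⟨hM2, hM3⟩, hM4⟩ :=
        exists_maximal_set (P := fun L => GenAt c' k L ∧ rho D '' L = suc t k) hL0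
      have hne : ∀ j : Fin N, j < k → c' j = Function.update c' k M j := fun j hj => by
        rw [Function.update_of_ne hj.ne]
      refine ⟨Function.update c' k M, ?_, ?_, ?_⟩
      · intro j hj
        rcases eq_or_ne j k with rfl | hjk
        · rw [Function.update_self]
          refine ⟨(GenAt.congr hne _).1 hM2, fun L hL hsub hrr => ?_⟩
          exact hM4 L ⟨(GenAt.congr hne _).2 hL, by rw [hrr, hM3]⟩ hsub
        · have hjn : (j : ℕ) < n := by
            have h1 : (j : ℕ) ≠ n := fun h => hjk (Fin.ext h)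
            omega
          exact LiSat.congr (c := c') (m := n) (fun i hi => hne i hi) hc' j hjn
      · intro j hj
        rw [← hne j (by show (j : ℕ) < n; omega)]
        exact hcc j hj
      · intro j hj
        rcases eq_or_ne j k with rfl | hjk
        · rw [Function.update_self]
          exact hM3
        · have hjn : (j : ℕ) < n := by
            have h1 : (j : ℕ) ≠ n := fun h => hjk (Fin.ext h)
            omega
          rw [← hne j hjn]
          exact hr' j hjn
  obtain ⟨c', h1, h2, h3⟩ := hext N hm le_rfl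
  refine ⟨(t.1, c'), GS.of_ctx (m := N) le_rfl (fun k hk => (h1 k hk).1) t.1,
    fun j hj => h2 j hj, ?_⟩
  show (t.1, fun k => rho D '' c' k) = t
  have : (fun k => rho D '' c' k) = t.2 := by
    funext k
    exact h3 k k.2
  rw [this]
  rfl

/-- Lifting. -/
theorem exists_lift [Finite α] (D : ℕ) (t : Ty α N D) (ht : Good D t) :
    ∃ t' : Ty α N (D + 1), GS D t' ∧ rho D t' = t := by
  cases D with
  | zero =>
    exact ⟨(t, fun _ => ∅), GS.of_ctx (m := N) le_rfl (fun k _ => GenAt.empty _ k) t, rfl⟩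
  | succ D =>
    obtain ⟨t', h1, -, h3⟩ := li_claim t ht 0 (Nat.zero_le _) (fun _ => ∅)
      (fun k hk => absurd hk (Nat.not_lt_zero _)) (fun k hk => absurd hk (Nat.not_lt_zero _))
    exact ⟨t', h1, h3⟩

end H94G
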