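import Pool.Agent.Lib.H94G.LinkA1
import Pool.Agent.Lib.H94G.Forw
import Pool.Agent.Lib.H94G.Complete
import Pool.Agent.Lib.H94G.Sound
import Pool.Agent.Lib.H94G.Digits

/-!
# From non-admissibility to a certificate (chunk L2)

`cert_of_subst`. Let `N' ≥ M + 1` be such that all modalities of the `σ i`, `i ≤ M`, are `< N'`, and `D`
the maximum of the depths of `subst σ (ofCode n)`, `n ≤ M`. For `u : Ty α N' D` let
`g u : Fin (2 ^ (M + 1))` be the number with `mem (g u) n ↔ Sat (subst σ (ofCode n)) D u` for `n ≤ M`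
(`exists_mem`). Take the certificate of `forw g`. Its profiles are `(g (rho t); g '' suc t k)`, `t` good
of depth `D + 1`. They are coherent: for `n = 3 * pair k y + 3`, `ofCode n = box k (ofCode y)`, and
`Sat (box k χ) D (rho t) ↔ Sat (box k χ) (D + 1) t ↔ ∀ u ∈ suc t k, Sat χ D u` (`sat_rho`), where
`χ = subst σ (ofCode y)`. `mem _ (code φ)`: soundness for `rho t` (`GS.good_rho`). As `⊬ σ ψ`, completeness
gives a good `t₀ : Ty α N' D` refuting `σ ψ` (all modalities of `σ ψ` are `< N'`); lift it to `t`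
(`exists_lift`).
-/

namespace H94G

open Form

/-- A bound for the modalities. -/
def Form.bm {α : Type} : Form α → ℕ
  | var _ => 0
  | bot => 0
  | imp φ ψ => max (Form.bm φ) (Form.bm ψ)
  | box n φ => max (n + 1) (Form.bm φ)

theorem modLT_of_bm {α : Type} {n : ℕ} (φ : Form α) (h : Form.bm φ ≤ n) : Form.ModLT n φ := by
  induction φ with
  | var i => trivial
  | bot => trivial
  | imp φ ψ ih1 ih2 =>
    simp only [Form.bm] at h
    exact ⟨ih1 (by omega), ih2 (by omega)⟩
  | box k φ ih =>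
    simp only [Form.bm] at h
    exact ⟨by omega, ih (by omega)⟩

theorem modLT_subst_code {α : Type} {M N' : ℕ} (hN : M + 1 ≤ N') {σ : ℕ → Form α}
    (hσ : ∀ i ≤ M, Form.ModLT N' (σ i)) (χ : Form ℕ) (hχ : code χ ≤ M) :
    Form.ModLT N' (Form.subst σ χ) := by
  induction χ with
  | var i =>
    simp only [code] at hχ
    exact hσ i (by omega)
  | bot => trivial
  | imp φ ψ ih1 ih2 =>
    simp only [code] at hχ
    have h1 := Nat.left_le_pair (code φ) (code ψ)
    have h2 := Nat.right_le_pair (code φ) (code ψ)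
    exact ⟨ih1 (by omega), ih2 (by omega)⟩
  | box n φ ih =>
    simp only [code] at hχ
    have h1 := Nat.left_le_pair n (code φ)
    have h2 := Nat.right_le_pair n (code φ)
    exact ⟨by omega, ih (by omega)⟩

theorem ofCode_imp (x y : ℕ) : ofCode (3 * Nat.pair x y + 2) = imp (ofCode x) (ofCode y) := by
  have h : code (imp (ofCode x) (ofCode y)) = 3 * Nat.pair x y + 2 := by
    simp only [code, code_ofCode]
  rw [← h, ofCode_code]

theorem ofCode_box (k y : ℕ) : ofCode (3 * Nat.pair k y + 3) = box k (ofCode y) := by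
  have h : code (box k (ofCode y)) = 3 * Nat.pair k y + 3 := by
    simp only [code, code_ofCode]
  rw [← h, ofCode_code]

theorem ofCode_zero : ofCode 0 = bot := by
  have h : code bot = 0 := rfl
  rw [← h, ofCode_code]

theorem cert_of_subst {M : ℕ} {φ ψ : Form ℕ} (hφ : code φ ≤ M) (hψ : code ψ ≤ M) {α : Type}
    [Finite α] (σ : ℕ → Form α) (h1 : GLP (Form.subst σ φ)) (h2 : ¬ GLP (Form.subst σ ψ)) :
    ∃ C, CertFor M (code φ) (code ψ) C := by
  obtain ⟨N', hN, hσ⟩ : ∃ N', M + 1 ≤ N' ∧ ∀ i ≤ M, Form.ModLT N' (σ i) := by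
    refine ⟨max (M + 1) ((Finset.range (M + 1)).sup fun i => Form.bm (σ i)), le_max_left _ _,
      fun i hi => modLT_of_bm _ ?_⟩
    exact (Finset.le_sup (f := fun i => Form.bm (σ i))
      (Finset.mem_range.2 (Nat.lt_succ_of_le hi))).trans (le_max_right _ _)
  obtain ⟨D, hD⟩ : ∃ D, ∀ n ≤ M, Form.depth (Form.subst σ (ofCode n)) ≤ D :=
    ⟨(Finset.range (M + 1)).sup fun n => Form.depth (Form.subst σ (ofCode n)), fun n hn =>
      Finset.le_sup (f := fun n => Form.depth (Form.subst σ (ofCode n)))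
        (Finset.mem_range.2 (Nat.lt_succ_of_le hn))⟩
  choose g0 hg1 hg2 using fun u : Ty α N' D =>
    exists_mem (M + 1) (fun n => Sat (Form.subst σ (ofCode n)) D u)
  set g : Ty α N' D → Fin (2 ^ (M + 1)) := fun u => ⟨g0 u, hg1 u⟩ with hgdef
  have hg : ∀ u n, n ≤ M → (mem (g u) n ↔ Sat (Form.subst σ (ofCode n)) D u) :=
    fun u n hn => hg2 u n (Nat.lt_succ_of_le hn)
  obtain ⟨C, hC, hprof⟩ := forw g hN
  refine ⟨C, hC, ?_, ?_⟩
  · rw [hprof]
    rintro q ⟨t, ht, hq1, hq2⟩
    refine ⟨⟨?_, ?_, ?_⟩, ?_⟩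
    · rw [hq1, hg _ 0 (Nat.zero_le _), ofCode_zero]
      exact fun h => h
    · intro x y hxy
      have h3 := Nat.left_le_pair x y
      have h4 := Nat.right_le_pair x y
      rw [hq1, hg _ _ hxy, hg _ x (by omega), hg _ y (by omega), ofCode_imp]
      exact Iff.rfl
    · intro k y hky
      have h3 := Nat.left_le_pair (k : ℕ) y
      have h4 := Nat.right_le_pair (k : ℕ) y
      have hd := hD _ hky
      rw [hq1, hg _ _ hky, ofCode_box]
      rw [ofCode_box] at hd
      have hd' : Form.depth (box (k : ℕ) (Form.subst σ (ofCode y))) ≤ D := hd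
      show Sat (box (k : ℕ) (Form.subst σ (ofCode y))) D (rho D t) ↔ _
      rw [← sat_rho _ D t hd', hq2 k]
      constructor
      · rintro h _ ⟨u, hu, rfl⟩
        rw [hg _ y (by omega)]
        exact h (by omega) u hu
      · intro h hk u hu
        have h5 := h (g u) ⟨u, hu, rfl⟩
        rwa [hg _ y (by omega)] at h5
    · rw [hq1, hg _ _ hφ, ofCode_code]
      refine sound h1 D (rho D t) ht.good_rho ?_
      have h3 := hD _ hφ
      rwa [ofCode_code] at h3
  · rw [hprof]
    have hd : Form.depth (Form.subst σ ψ) ≤ D := by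
      have h3 := hD _ hψ
      rwa [ofCode_code] at h3
    have h3 : ∃ t₀ : Ty α N' D, Good D t₀ ∧ ¬ Sat (Form.subst σ ψ) D t₀ := by
      by_contra h4
      push Not at h4
      exact h2 (complete (modLT_subst_code hN hσ ψ hψ) D hd h4)
    obtain ⟨t₀, h4, h5⟩ := h3
    obtain ⟨t, ht, rfl⟩ := exists_lift D t₀ h4
    refine ⟨(g (rho D t), fun k => g '' suc t (Fin.castLE hN k)), ⟨t, ht, rfl, fun k => rfl⟩, ?_⟩
    show ¬ mem (g (rho D t)) (code ψ)
    rw [hg _ _ hψ, ofCode_code]
    exact h5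

theorem linkA {M : ℕ} {φ ψ : Form ℕ} (hφ : code φ ≤ M) (hψ : code ψ ≤ M)
    (h : ¬ Admissible φ ψ) : ∃ C, CertFor M (code φ) (code ψ) C := by
  unfold Admissible at h
  push Not at h
  obtain ⟨σ, h1, h2⟩ := h
  obtain ⟨r, σ', hσ⟩ := finite_subst M σ
  exact cert_of_subst hφ hψ σ' ((hσ φ hφ).1 h1) fun h3 => h2 ((hσ ψ hψ).2 h3)

end H94G
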