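import Pool.Agent.Lib.H94G.Derive

/-!
# Substitutions with finitely many variables (chunk L1)

Let `r` be a number greater than the variables of all formulas `σ i`, `i ≤ M`, `α = Fin (r + 1)`; rename
the variables by `ρ i = min i r` : `σ' i = subst (var ∘ ρ) (σ i) : Form (Fin (r + 1))`. The variables of a
formula `χ` with `code χ ≤ M` are `≤ M`. `subst σ' χ = subst (var ∘ ρ) (subst σ χ)`
(`Form.subst_subst`), so `⊢ σχ` implies `⊢ σ'χ` (`GLP.subst`); renaming back by the inclusion of
`Fin (r + 1)` into `ℕ` gives `subst σ χ` again, because the variables of `σ χ` are `≤ r`.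
-/

namespace H94G

open Form

/-- A bound for the variables. -/
def Form.vb : Form ℕ → ℕ
  | var i => i
  | bot => 0
  | imp φ ψ => max (Form.vb φ) (Form.vb ψ)
  | box _ φ => Form.vb φ

theorem subst_min_of_vb {r : ℕ} (φ : Form ℕ) (h : Form.vb φ ≤ r) :
    Form.subst (fun a => Form.var (min a r)) φ = φ := by
  induction φ with
  | var i =>
    simp only [Form.vb] at h
    simp only [Form.subst, Nat.min_eq_left h]
  | bot => rfl
  | imp φ ψ ih1 ih2 =>
    simp only [Form.vb] at h
    simp only [Form.subst]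
    rw [ih1 (by omega), ih2 (by omega)]
  | box k φ ih =>
    simp only [Form.vb] at h
    simp only [Form.subst]
    rw [ih (by omega)]

theorem vb_subst_le {M r : ℕ} {σ : ℕ → Form ℕ} (hσ : ∀ i ≤ M, Form.vb (σ i) ≤ r) (χ : Form ℕ)
    (hχ : code χ ≤ M) : Form.vb (Form.subst σ χ) ≤ r := by
  induction χ with
  | var i =>
    simp only [code] at hχ
    exact hσ i (by omega)
  | bot => exact Nat.zero_le _
  | imp φ ψ ih1 ih2 =>
    simp only [code] at hχ
    have h1 := Nat.left_le_pair (code φ) (code ψ)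
    have h2 := Nat.right_le_pair (code φ) (code ψ)
    exact max_le (ih1 (by omega)) (ih2 (by omega))
  | box n φ ih =>
    simp only [code] at hχ
    have h2 := Nat.right_le_pair n (code φ)
    exact ih (by omega)

theorem finite_subst (M : ℕ) (σ : ℕ → Form ℕ) : ∃ (r : ℕ) (σ' : ℕ → Form (Fin (r + 1))),
    ∀ χ : Form ℕ, code χ ≤ M → (GLP (Form.subst σ χ) ↔ GLP (Form.subst σ' χ)) := by
  obtain ⟨r, hr⟩ : ∃ r, ∀ i ≤ M, Form.vb (σ i) ≤ r :=
    ⟨(Finset.range (M + 1)).sup fun n => Form.vb (σ n), fun n hn =>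
      Finset.le_sup (f := fun n => Form.vb (σ n)) (Finset.mem_range.2 (Nat.lt_succ_of_le hn))⟩
  refine ⟨r, fun i => Form.subst (fun a => Form.var (⟨min a r, by omega⟩ : Fin (r + 1))) (σ i),
    fun χ hχ => ?_⟩
  have h1 : Form.subst (fun i => Form.subst
      (fun a => Form.var (⟨min a r, by omega⟩ : Fin (r + 1))) (σ i)) χ =
      Form.subst (fun a => Form.var (⟨min a r, by omega⟩ : Fin (r + 1))) (Form.subst σ χ) := by
    rw [Form.subst_subst]
  rw [h1]
  constructor
  · intro h
    exact h.subst _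
  · intro h
    have h2 := h.subst (fun a : Fin (r + 1) => Form.var (a : ℕ))
    rw [Form.subst_subst] at h2
    have h3 : (fun a : ℕ => Form.subst (fun a : Fin (r + 1) => Form.var (a : ℕ))
        (Form.var (⟨min a r, by omega⟩ : Fin (r + 1)))) = fun a : ℕ => Form.var (min a r) := by
      funext a; rfl
    rw [h3, subst_min_of_vb _ (vb_subst_le hr χ hχ)] at h2
    exact h2

end H94G
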