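import Pool.Agent.Lib.H94G.LinkB1
import Pool.Agent.Lib.H94G.Back
import Pool.Agent.Lib.H94G.Complete
import Pool.Agent.Lib.H94G.Sound

/-!
# From a certificate to non-admissibility (chunk L4)

`back C` gives `α` finite, `D` and `g : Ty α N D → V` with `realz g = C.prof`; take `δ` from `truth` and
`e = max (depth φ) (depth ψ)`. `⊢ δ φ` by completeness at the depth `D + e + 1` (the modalities of
`subst δ φ` are `< M + 1`, its depth is `≤ D + depth φ`): `cut D (e + 1) t = rho D (cut1 D e t)`,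
`cut1 D e t` is good, so its profile is in `C.prof`. `⊬ δ ψ` by soundness: take
`q ∈ C.prof = realz g` with `¬ mem q.1 (code ψ)`, `q.1 = g (rho t)`, and lift `t` to depth `D + e + 1`
(`exists_lift`). Finally rename the variables: `α` embeds in `ℕ` by an injection `f`;
`σ i = subst (var ∘ f) (δ i)`; `GLP.subst`, `GLP.of_rename`, `Form.subst_subst`.
-/

namespace H94G

open Form

theorem depth_subst_le {α : Type} {D : ℕ} {δ : ℕ → Form α} (h : ∀ i, Form.depth (δ i) ≤ D)
    (χ : Form ℕ) : Form.depth (Form.subst δ χ) ≤ D + Form.depth χ := by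
  induction χ with
  | var i => simpa [Form.subst, Form.depth] using h i
  | bot => simp [Form.subst, Form.depth]
  | imp φ ψ ih1 ih2 => simp only [Form.subst, Form.depth]; omega
  | box n φ ih => simp only [Form.subst, Form.depth]; omega

theorem modLT_subst {α : Type} {N : ℕ} {δ : ℕ → Form α} (h : ∀ i, Form.ModLT N (δ i))
    (χ : Form ℕ) (hχ : Form.ModLT N χ) : Form.ModLT N (Form.subst δ χ) := by
  induction χ with
  | var i => exact h i
  | bot => trivial
  | imp φ ψ ih1 ih2 => exact ⟨ih1 hχ.1, ih2 hχ.2⟩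
  | box n φ ih => exact ⟨hχ.1, ih hχ.2⟩

theorem modLT_of_code {M : ℕ} (χ : Form ℕ) (hχ : code χ ≤ M) : Form.ModLT (M + 1) χ := by
  induction χ with
  | var i => trivial
  | bot => trivial
  | imp φ ψ ih1 ih2 =>
    simp only [code] at hχ
    have h1 := Nat.left_le_pair (code φ) (code ψ)
    have h2 := Nat.right_le_pair (code φ) (code ψ)
    exact ⟨ih1 (by omega), ih2 (by omega)⟩
  | box n φ ih =>
    simp only [code] at hχ
    have h1 := Nat.left_le_pair n (code φ)
    have h2 := Nat.right_le_pair n (code φ)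
    exact ⟨by omega, ih (by omega)⟩

theorem exists_lift_cut1 {α : Type} [Finite α] {N : ℕ} (D : ℕ) (t : Ty α N (D + 1))
    (ht : GS D t) : ∀ e, ∃ t' : Ty α N (D + e + 1), GS (D + e) t' ∧ cut1 D e t' = t := by
  intro e
  induction e with
  | zero => exact ⟨t, ht, rfl⟩
  | succ e ih =>
    obtain ⟨t', h1, h2⟩ := ih
    obtain ⟨t'', h3, h4⟩ := exists_lift (D + e + 1) t' h1
    refine ⟨t'', h3, ?_⟩
    show cut1 D e (rho (D + e + 1) t'') = t
    rw [h4, h2]

theorem linkB {M : ℕ} {φ ψ : Form ℕ} (hφ : code φ ≤ M) (hψ : code ψ ≤ M)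
    (C : PreCert (M + 1) (Fin (2 ^ (M + 1)))) (h : CertFor M (code φ) (code ψ) C) :
    ¬ Admissible φ ψ := by
  obtain ⟨α, hα, D, g, hg⟩ := back C h.1
  have hcoh : ∀ q ∈ realz g (le_refl (M + 1)), Coh M q.1 q.2 := by
    rw [hg]; exact fun q hq => (h.2.1 q hq).1
  obtain ⟨δ, hδ, htr⟩ := truth g hcoh
  have hprof : ∀ (e : ℕ) (t : Ty α (M + 1) (D + e + 1)), GS (D + e) t →
      ((g (cut D (e + 1) t), fun k => g '' suc (cut1 D e t) k) :
        Fin (2 ^ (M + 1)) × (Fin (M + 1) → Set (Fin (2 ^ (M + 1))))) ∈ C.prof := by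
    intro e t ht
    rw [← hg]
    refine ⟨cut1 D e t, GS.cut1 D e t ht, ?_, fun k => rfl⟩
    rw [rho_cut1]
  set e := max (Form.depth φ) (Form.depth ψ) with he
  have h1 : GLP (Form.subst δ φ) := by
    refine complete (N := M + 1) (modLT_subst (fun i => (hδ i).2) φ (modLT_of_code φ hφ))
      (D + e + 1) ?_ ?_
    · have h2 := depth_subst_le (fun i => (hδ i).1) φ
      have h3 : Form.depth φ ≤ e := le_max_left _ _
      omega
    · intro t ht
      rw [htr φ hφ e (le_max_left _ _) t ht]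
      exact (h.2.1 _ (hprof e t ht)).2
  have h2 : ¬ GLP (Form.subst δ ψ) := by
    intro h3
    obtain ⟨q, hq, hqb⟩ := h.2.2
    rw [← hg] at hq
    obtain ⟨t, ht, hq1, hq2⟩ := hq
    obtain ⟨t', ht', rfl⟩ := exists_lift_cut1 D t ht e
    have h4 := sound h3 (D + e + 1) t' ht' (by
      have h5 := depth_subst_le (fun i => (hδ i).1) ψ
      have h6 : Form.depth ψ ≤ e := le_max_right _ _
      omega)
    rw [htr ψ hψ e (le_max_right _ _) t' ht'] at h4
    apply hqb
    rw [hq1, rho_cut1]
    exact h4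
  intro hadm
  obtain ⟨f, hf⟩ := exists_injective_nat α
  have hs : ∀ χ : Form ℕ, Form.subst (fun i => Form.subst (fun a => Form.var (f a)) (δ i)) χ =
      Form.subst (fun a => Form.var (f a)) (Form.subst δ χ) := by
    intro χ
    rw [Form.subst_subst]
  have h5 := hadm (fun i => Form.subst (fun a => Form.var (f a)) (δ i))
  rw [hs, hs] at h5
  exact h2 (GLP.of_rename hf (h5 (h1.subst _)))

end H94G
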