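import Pool.Agent.Lib.H94G.FixSem
import Pool.Agent.Lib.H94G.Digits

/-!
# The truth lemma for the constructed substitution (chunk L3)

Let `N = M + 1`, `V = Fin (2 ^ (M + 1))`, `g : Ty α N D → V` with coherent profiles. For `3 * i + 1 ≤ M`
let `δ i` define the set `{u : Ty α N D | mem (g u) (3 * i + 1)}` (`definable`), otherwise `δ i = bot`.
CLAIM: for all `χ` with `code χ ≤ M`, all `e ≥ depth χ` and `t` of depth `D + e + 1` with `GS (D + e) t`:
`Sat (subst δ χ) (D + e + 1) t ↔ mem (g (cut D (e + 1) t)) (code χ)`.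
Induction on `χ`: `var`: `sat_rho` several times and `definable`; `bot`, `imp`: coherence of the
profile `(g (rho t'), g '' suc t' k)` of the truncation `t'` of `t` to depth `D + 1` (good by
`GS.good_rho`), `rho t' = cut D (e + 1) t`; `box k χ` (`k < N` because `k < code (box k χ)`):
`Sat (box k χδ) t ↔ ∀ u ∈ suc t k, Sat χδ u ↔ ∀ u ∈ suc t k, mem (g (cut u)) (code χ)`; by `suc_rho`
`suc t' k` is the set of the truncations of the elements of `suc t k`, so this is
`∀ w ∈ g '' suc t' k, mem w (code χ)`, and coherence applies. The elements of `suc t k` are good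
(`GS.good_suc`) and of depth `D + e`, `e ≥ 1`.
-/

namespace H94G

open Form

/-- Truncation to depth `D + 1`. -/
def cut1 {α : Type} {N : ℕ} (D : ℕ) : (e : ℕ) → Ty α N (D + e + 1) → Ty α N (D + 1)
  | 0, t => t
  | e + 1, t => cut1 D e (rho (D + e + 1) t)

theorem rho_cut1 {α : Type} {N : ℕ} (D e : ℕ) (t : Ty α N (D + e + 1)) :
    rho D (cut1 D e t) = cut D (e + 1) t := by
  induction e with
  | zero => rfl
  | succ e ih => exact ih (rho (D + e + 1) t)

theorem suc_cut1 {α : Type} {N : ℕ} (D e : ℕ) (t : Ty α N (D + e + 1)) (k : Fin N) :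
    suc (cut1 D e t) k = cut D e '' suc t k := by
  induction e with
  | zero =>
    show suc t k = (fun u => u) '' suc t k
    simp
  | succ e ih =>
    have h1 := ih (rho (D + e + 1) t)
    show suc (cut1 D e (rho (D + e + 1) t)) k = _
    rw [h1]
    have h2 : suc (rho (D + e + 1) t) k = rho (D + e) '' suc t k := suc_rho t k
    rw [h2, Set.image_image]
    rfl

theorem GS.cut1 {α : Type} {N : ℕ} (D e : ℕ) (t : Ty α N (D + e + 1)) (ht : GS (D + e) t) :
    GS D (H94G.cut1 D e t) := by
  induction e with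
  | zero => exact ht
  | succ e ih => exact ih (rho (D + e + 1) t) ht.good_rho

theorem sat_cut {α : Type} {N : ℕ} (φ : Form α) (D : ℕ) (hφ : Form.depth φ ≤ D) (k : ℕ)
    (t : Ty α N (D + k)) : Sat φ (D + k) t ↔ Sat φ D (cut D k t) := by
  induction k with
  | zero => exact Iff.rfl
  | succ k ih =>
    have h1 := ih (rho (D + k) t)
    have h2 := sat_rho φ (D + k) t (by omega)
    exact h2.trans h1

theorem truth {M : ℕ} {α : Type} [Finite α] {D : ℕ} (g : Ty α (M + 1) D → Fin (2 ^ (M + 1)))
    (hg : ∀ q ∈ realz g (le_refl (M + 1)), Coh M q.1 q.2) :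
    ∃ δ : ℕ → Form α, (∀ i, Form.depth (δ i) ≤ D ∧ Form.ModLT (M + 1) (δ i)) ∧
      ∀ χ : Form ℕ, code χ ≤ M → ∀ e, Form.depth χ ≤ e → ∀ t : Ty α (M + 1) (D + e + 1),
        GS (D + e) t → (Sat (Form.subst δ χ) (D + e + 1) t ↔
          mem (g (cut D (e + 1) t)) (code χ)) := by
  choose δ hδ1 hδ2 hδ3 using fun i : ℕ =>
    definable (α := α) (N := M + 1) D {u | mem (g u) (3 * i + 1)}
  refine ⟨δ, fun i => ⟨hδ1 i, hδ2 i⟩, ?_⟩
  have hprof : ∀ (e : ℕ) (t : Ty α (M + 1) (D + e + 1)), GS (D + e) t →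
      Coh M (g (cut D (e + 1) t)) (fun k => g '' (cut D e '' suc t k)) := by
    intro e t ht
    refine hg (g (cut D (e + 1) t), fun k => g '' (cut D e '' suc t k))
      ⟨cut1 D e t, GS.cut1 D e t ht, ?_, fun k => ?_⟩
    · rw [rho_cut1]
    · show g '' (cut D e '' suc t k) = g '' suc (cut1 D e t) k
      rw [suc_cut1]
  intro χ
  induction χ with
  | var i =>
    intro _ e _ t ht
    have h1 := sat_cut (δ i) D (hδ1 i) (e + 1) t
    exact h1.trans (hδ3 i _)
  | bot =>
    intro _ e _ t ht
    constructor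
    · intro h; exact h.elim
    · intro h; exact (hprof e t ht).1 h
  | imp φ ψ ih1 ih2 =>
    intro hc e he t ht
    simp only [code] at hc
    have h1 := Nat.left_le_pair (code φ) (code ψ)
    have h2 := Nat.right_le_pair (code φ) (code ψ)
    simp only [Form.depth] at he
    have h3 := ih1 (by omega) e (by omega) t ht
    have h4 := ih2 (by omega) e (by omega) t ht
    have h5 := (hprof e t ht).2.1 (code φ) (code ψ) hc
    have h6 : code (imp φ ψ) = 3 * Nat.pair (code φ) (code ψ) + 2 := rfl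
    rw [h6, h5, ← h3, ← h4]
    exact Iff.rfl
  | box k χ ih =>
    intro hc e he t ht
    simp only [code] at hc
    have h1 := Nat.left_le_pair k (code χ)
    have h2 := Nat.right_le_pair k (code χ)
    simp only [Form.depth] at he
    obtain ⟨e, rfl⟩ : ∃ e', e = e' + 1 := ⟨e - 1, by omega⟩
    have hk : k < M + 1 := by omega
    have h5 := (hprof (e + 1) t ht).2.2 ⟨k, hk⟩ (code χ) hc
    have h6 : code (box k χ) = 3 * Nat.pair k (code χ) + 3 := rfl
    rw [h6]
    refine Iff.trans ?_ h5.symm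
    constructor
    · intro h
      rintro _ ⟨_, ⟨u, hu, rfl⟩, rfl⟩
      have h7 : Sat (Form.subst δ χ) (D + e + 1) u := h hk u hu
      exact (ih (by omega) e (by omega) u (ht.good_suc hu)).1 h7
    · intro h hk' u hu
      exact (ih (by omega) e (by omega) u (ht.good_suc hu)).2 (h _ ⟨_, ⟨u, hu, rfl⟩, rfl⟩)

end H94G
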