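import Pool.Agent.Lib.H94G.Num

/-!
# A numerical certificate gives a certificate (chunk NA)

For `C = toCert ..` and `Check` true, all axioms of `IsCert` are bounded versions of the conditions
`c1`-`c9` (sets `S ⊆ Fin (2 ^ (M + 1))` correspond to numbers `S < 2 ^ w` by `exists_mem`), the other
two conditions of `CertFor` are `c10`. `lev_le`: the digits of `L` are `≤ M + 1`.
-/

namespace H94G

theorem mem_zero_iff (i : ℕ) : mem 0 i ↔ False := by
  unfold mem dig
  simp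

theorem numA {F M a b : ℕ} (h : Crit F M a b) : ∃ C, CertFor M a b C := by
  obtain ⟨n, _, r, hr, L, _, A, _, T, _, U, _, hch⟩ := h
  set c : Cx := (M, n, r, L, A, T, U) with hc
  obtain ⟨h1, h2, h3, h4, h5, h6, h7, h8, h9, h10⟩ := hch
  have g1 : r < n ∧ c.lev r = 0 ∧ ∀ x < n, c.lev x = 0 → x = r := h1
  have g2 : ∀ x < n, c.anc x (c.lev x) = x := h2
  have g3 : ∀ x < n, ∀ j < M + 1 + 1, j ≤ c.lev x → c.lev (c.anc x j) = j := h3
  have g4 : ∀ x < n, ∀ j < M + 1 + 1, ∀ i < M + 1 + 1, i ≤ j → j ≤ c.lev x →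
    c.anc (c.anc x j) i = c.anc x i := h4
  have g5 : ∀ l < n, c.lev l = M + 1 → ∃ v < 2 ^ (M + 1), c.U l 0 v := h5
  have g6 : ∀ l < n, c.lev l = M + 1 → ∀ j < M + 1, ∀ v < 2 ^ (M + 1), c.U l (j + 1) v →
    c.U l j v ∧ c.T (c.anc l (j + 1)) v := h6
  have g7 : ∀ s < n, ∀ m < M + 1, c.lev s = m → ∀ S < 2 ^ (2 ^ (M + 1)), c.gen n s m S →
    ∃ x < n, c.lev x = m + 1 ∧ c.anc x m = s ∧ c.lab x S ∧ c.good m x := h7
  have g8 : ∀ m < M + 1, ∀ x < n, ∀ y < n, c.lev x = m + 1 → c.lev y = m + 1 →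
    c.anc x m = c.anc y m → c.lab x 0 → c.lab y 0 → x = y := h8
  have g9 : ∀ m < M + 1, ∀ x < n, c.lev x = m + 1 →
    c.anc x m < x ∧ ∃ S < 2 ^ (2 ^ (M + 1)), c.lab x S ∧ c.gen x (c.anc x m) m S := h9
  have g10 : (∀ l < n, c.lev l = M + 1 → ∀ v < 2 ^ (M + 1), c.U l 0 v → c.coh l v ∧ mem v a) ∧
    ∃ l < n, c.lev l = M + 1 ∧ ∃ v < 2 ^ (M + 1), c.U l 0 v ∧ ¬ mem v b := h10
  have hlev : ∀ x, c.lev x < M + 2 := fun x => dig_lt (by omega) _ _
  let C : PreCert (M + 1) (Fin (2 ^ (M + 1))) := toCert M n r L A T U hr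
  have hC : C.IsCert := by
    refine
    { fin := (inferInstance : Finite (Fin n))
      lev_le := fun x => Nat.lt_succ_iff.mp (hlev x.1)
      lev_root := g1.2.1
      root_uniq := fun x hx => Fin.ext (g1.2.2 x.1 x.2 hx)
      anc_self := fun x => Fin.ext (g2 x.1 x.2)
      lev_anc := fun x j hj => g3 x.1 x.2 j (lt_of_le_of_lt hj (hlev x.1)) hj
      anc_anc := fun x i j hij hj => Fin.ext
        (g4 x.1 x.2 j (lt_of_le_of_lt hj (hlev x.1)) i
          (lt_of_le_of_lt (le_trans hij hj) (hlev x.1)) hij hj)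
      U_ne := ?_
      U_anti := ?_
      U_sub := ?_
      legit := ?_
      empty_uniq := ?_
      τ_inj := fun x y hxy => Fin.ext hxy
      τ_anc := ?_
      avail := ?_ }
    · intro l hl
      obtain ⟨v, hv, hU⟩ := g5 l.1 l.2 hl
      exact ⟨⟨v, hv⟩, hU⟩
    · intro l j hl hj v hv
      exact (g6 l.1 l.2 hl j hj v.1 v.2 hv).1
    · intro l j hl hj v hv
      exact (g6 l.1 l.2 hl j hj v.1 v.2 hv).2
    · intro s m S hs hm hgen
      obtain ⟨S', hS', hmem⟩ := exists_mem (2 ^ (M + 1))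
        (fun u => ∃ hu : u < 2 ^ (M + 1), (⟨u, hu⟩ : Fin (2 ^ (M + 1))) ∈ S)
      have hmem' : ∀ u : Fin (2 ^ (M + 1)), mem S' u ↔ u ∈ S := fun u =>
        ⟨fun hu => ((hmem u.1 u.2).1 hu).2, fun hu => (hmem u.1 u.2).2 ⟨u.2, hu⟩⟩
      have hg : c.gen n s.1 m S' := by
        intro u hu hmu
        obtain ⟨l, v, _, hl, hanc, hvU, hvS, hTS, huv⟩ := hgen ⟨u, hu⟩ ((hmem' ⟨u, hu⟩).1 hmu)
        refine ⟨l.1, l.2, v.1, v.2, hl, ?_, hvU, (hmem' v).2 hvS, ?_, ?_⟩
        · exact congrArg Fin.val hanc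
        · intro u' hu' hT
          exact (hmem' ⟨u', hu'⟩).2 (hTS hT)
        · rcases huv with h | h
          · exact Or.inl (congrArg Fin.val h)
          · exact Or.inr h
      obtain ⟨x, hx, hlx, hax, hlab, hgood⟩ := g7 s.1 s.2 m hm hs S' hS' hg
      refine ⟨⟨x, hx⟩, ⟨hlx, Fin.ext hax⟩, ?_, ?_⟩
      · ext v
        exact (hlab v.1 v.2).trans (hmem' v)
      · intro l hl hanc v hvU hvT
        exact hgood l.1 l.2 hl (congrArg Fin.val hanc) v.1 v.2 hvU hvT
    · intro m s x y hx hy hTx hTy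
      have hm : m < M + 1 := by
        have := hlev x.1
        have h' : c.lev x.1 = m + 1 := hx.1
        omega
      have hlab : ∀ z : Fin n, C.T z = ∅ → c.lab z.1 0 := by
        intro z hz v hv
        rw [mem_zero_iff]
        constructor
        · intro hT
          have : (⟨v, hv⟩ : Fin (2 ^ (M + 1))) ∈ C.T z := hT
          rw [hz] at this
          exact this
        · exact False.elim
      exact Fin.ext (g8 m hm x.1 x.2 y.1 y.2 hx.1 hy.1
        (congrArg Fin.val (hx.2.trans hy.2.symm)) (hlab x hTx) (hlab y hTy))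
    · intro x m hx
      have hm : m < M + 1 := by
        have := hlev x.1
        have h' : c.lev x.1 = m + 1 := hx
        omega
      exact (g9 m hm x.1 x.2 hx).1
    · intro x m hx
      have hm : m < M + 1 := by
        have := hlev x.1
        have h' : c.lev x.1 = m + 1 := hx
        omega
      obtain ⟨_, S, hS, hlab, hgen⟩ := g9 m hm x.1 x.2 hx
      intro w hw
      have hwS : mem S w.1 := (hlab w.1 w.2).1 hw
      obtain ⟨l, hl, v, hv, hll, hal, hvU, hvS, hsub, hor⟩ := hgen w.1 w.2 hwS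
      have hln : l < n := lt_trans hl x.2
      refine ⟨⟨l, hln⟩, ⟨v, hv⟩, hl, hll, Fin.ext hal, hvU, (hlab v hv).2 hvS, ?_, ?_⟩
      · intro u hu
        exact (hlab u.1 u.2).2 (hsub u.1 u.2 hu)
      · rcases hor with h | h
        · exact Or.inl (Fin.ext h)
        · exact Or.inr h
  refine ⟨C, hC, ?_, ?_⟩
  · rintro q ⟨l, hl, hq0, hqk⟩
    obtain ⟨⟨hc0, hcc⟩, ha⟩ := g10.1 l.1 l.2 hl q.1.1 q.1.2 hq0
    refine ⟨⟨hc0, ?_, ?_⟩, ha⟩
    · intro x y hxy
      have hx := Nat.left_le_pair x y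
      have hy := Nat.right_le_pair x y
      exact (hcc x (show x < M + 1 by omega) y (show y < M + 1 by omega)).1 hxy
    · intro k y hky
      have hx := Nat.left_le_pair (k : ℕ) y
      have hy := Nat.right_le_pair (k : ℕ) y
      have h0 := (hcc k.1 (show k.1 < M + 1 by omega) y (show y < M + 1 by omega)).2 hky
      rw [h0, hqk k]
      constructor
      · intro h u hu
        exact h u.1 u.2 hu
      · intro h u hu hT
        exact h ⟨u, hu⟩ hT
  · obtain ⟨l, hl, hll, v, hv, hvU, hvb⟩ := g10.2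
    exact ⟨(⟨v, hv⟩, fun k => C.T (C.anc ⟨l, hl⟩ (k + 1))), ⟨⟨l, hl⟩, hll, hvU, fun k => rfl⟩, hvb⟩

end H94G
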