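import Pool.Agent.Lib.H94G.Num

/-!
# A certificate gives a numerical certificate (chunk NB)

Number the nodes of `C` in the order of `τ`: `e : C.Nd ≃ Fin n`, `n = Nat.card C.Nd ≤ F`,
`τ x < τ y ↔ e x < e y` (e.g. `Fintype.orderIsoFinOfCardEq` for the linear order induced by `τ`).
`L`, `A` are given by `exists_dig` (for a level or an ancestor out of range take `0`; levels are
`≤ M + 1`, ancestors are `< n`), `T`, `U` by `exists_mem` applied to predicates of
`Nat.unpair i`; the indices are in range: `Nat.pair x v < Nat.pair n (2 ^ (M + 1))` for `x < n`,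
`v < 2 ^ (M + 1)` (`Nat.pair_lt_pair_left`, `Nat.pair_lt_pair_right`). Then the conditions `c1`-`c10`
are those of `CertFor`.
-/

namespace H94G

theorem NB_pair_lt {a b c d : ℕ} (h1 : a < b) (h2 : c < d) : Nat.pair a c < Nat.pair b d :=
  lt_trans (Nat.pair_lt_pair_left c h1) (Nat.pair_lt_pair_right b h2)

/-- Numbering of a finite set in the order of an injective time. -/
theorem NB_enum {X : Type} [Finite X] (τ : X → ℕ) (hτ : Function.Injective τ) :
    ∃ e : X → ℕ, (∀ x, e x < Nat.card X) ∧ (∀ i < Nat.card X, ∃ x, e x = i) ∧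
      (∀ x y, e x < e y ↔ τ x < τ y) ∧ Function.Injective e := by
  classical
  letI : LinearOrder X := LinearOrder.lift' τ hτ
  letI : Fintype X := Fintype.ofFinite X
  have hcard : Fintype.card X = Nat.card X := Nat.card_eq_fintype_card.symm
  let o := Fintype.orderIsoFinOfCardEq X hcard
  refine ⟨fun x => (o.symm x : ℕ), fun x => (o.symm x).2, fun i hi => ⟨o ⟨i, hi⟩, ?_⟩,
    fun x y => ?_, fun x y h => ?_⟩
  · simp
  · have h1 : ((o.symm x : ℕ) < (o.symm y : ℕ)) ↔ o.symm x < o.symm y := Iff.rfl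
    have h2 : x < y ↔ τ x < τ y := Iff.rfl
    rw [h1, ← h2]
    exact o.symm.lt_iff_lt
  · exact o.symm.injective (Fin.ext h)

theorem NB_zero_iff (i : ℕ) : mem 0 i ↔ False := by
  unfold mem dig
  simp

theorem numB {F M a b : ℕ} (C : PreCert (M + 1) (Fin (2 ^ (M + 1)))) (h : CertFor M a b C)
    (hF : Nat.card C.Nd ≤ F) : Crit F M a b := by
  classical
  obtain ⟨hC, hcoh, hb⟩ := h
  have : Finite C.Nd := hC.fin
  obtain ⟨ι, hιn, hιs, hιlt, hιi⟩ := NB_enum C.τ hC.τ_inj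
  set n := Nat.card C.Nd with hn
  have hn0 : 0 < n := lt_of_le_of_lt (Nat.zero_le _) (hιn C.root)
  -- levels
  obtain ⟨L, hL, hLd⟩ := exists_dig (b := M + 2) (by omega) n
    (fun x => if hx : ∃ y, ι y = x then C.lev hx.choose else 0) (by
      intro i
      by_cases hx : ∃ y, ι y = i
      · simp only [hx, dite_true]
        exact Nat.lt_succ_iff.mpr (hC.lev_le _)
      · simp only [hx, dite_false]
        omega)
  have hLd' : ∀ y : C.Nd, dig (M + 2) L (ι y) = C.lev y := by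
    intro y
    rw [hLd _ (hιn y)]
    have hx : ∃ y', ι y' = ι y := ⟨y, rfl⟩
    rw [dif_pos hx, hιi hx.choose_spec]
  -- ancestors
  obtain ⟨A, hA, hAd⟩ := exists_dig (b := n) hn0 (Nat.pair n (M + 2))
    (fun i => if hx : ∃ y, ι y = i.unpair.1 then ι (C.anc hx.choose i.unpair.2) else 0) (by
      intro i
      by_cases hx : ∃ y, ι y = i.unpair.1
      · simp only [hx, dite_true]
        exact hιn _
      · simp only [hx, dite_false]
        exact hn0)
  have hAd' : ∀ (y : C.Nd) (j : ℕ), j < M + 2 → dig n A (Nat.pair (ι y) j) = ι (C.anc y j) := by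
    intro y j hj
    rw [hAd _ (NB_pair_lt (hιn y) hj)]
    have hx : ∃ y', ι y' = (Nat.pair (ι y) j).unpair.1 := ⟨y, by rw [Nat.unpair_pair]⟩
    rw [dif_pos hx]
    have h1 : hx.choose = y := hιi (by rw [hx.choose_spec, Nat.unpair_pair])
    rw [h1, Nat.unpair_pair]
  -- labels
  obtain ⟨T, hT, hTd⟩ := exists_mem (Nat.pair n (2 ^ (M + 1)))
    (fun i => ∃ y : C.Nd, ∃ v : Fin (2 ^ (M + 1)), i = Nat.pair (ι y) v ∧ v ∈ C.T y)
  have hTd' : ∀ (y : C.Nd) (v : Fin (2 ^ (M + 1))),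
      dig 2 T (Nat.pair (ι y) v) = 1 ↔ v ∈ C.T y := by
    intro y v
    refine (hTd _ (NB_pair_lt (hιn y) v.2)).trans ?_
    constructor
    · rintro ⟨y', v', h1, h2⟩
      obtain ⟨h3, h4⟩ := Nat.pair_eq_pair.mp h1
      rw [hιi h3, Fin.ext h4]
      exact h2
    · intro h
      exact ⟨y, v, rfl, h⟩
  obtain ⟨U, hU, hUd⟩ := exists_mem (Nat.pair n (Nat.pair (M + 2) (2 ^ (M + 1))))
    (fun i => ∃ y : C.Nd, ∃ j : ℕ, ∃ v : Fin (2 ^ (M + 1)),
      i = Nat.pair (ι y) (Nat.pair j v) ∧ v ∈ C.U y j)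
  have hUd' : ∀ (y : C.Nd) (j : ℕ) (v : Fin (2 ^ (M + 1))), j < M + 2 →
      (dig 2 U (Nat.pair (ι y) (Nat.pair j v)) = 1 ↔ v ∈ C.U y j) := by
    intro y j v hj
    refine (hUd _ (NB_pair_lt (hιn y) (NB_pair_lt hj v.2))).trans ?_
    constructor
    · rintro ⟨y', j', v', h1, h2⟩
      obtain ⟨h3, h4⟩ := Nat.pair_eq_pair.mp h1
      obtain ⟨h5, h6⟩ := Nat.pair_eq_pair.mp h4
      rw [hιi h3, Fin.ext h6, h5]
      exact h2
    · intro h
      exact ⟨y, j, v, rfl, h⟩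
  set c : Cx := (M, n, ι C.root, L, A, T, U) with hc
  have kL : ∀ y : C.Nd, c.lev (ι y) = C.lev y := hLd'
  have kA : ∀ (y : C.Nd) (j : ℕ), j < M + 2 → c.anc (ι y) j = ι (C.anc y j) := hAd'
  have kT : ∀ (y : C.Nd) (v : Fin (2 ^ (M + 1))), c.T (ι y) v ↔ v ∈ C.T y := hTd'
  have kU : ∀ (y : C.Nd) (j : ℕ) (v : Fin (2 ^ (M + 1))), j < M + 2 →
      (c.U (ι y) j v ↔ v ∈ C.U y j) := hUd'
  -- labels as sets
  have klab : ∀ (y : C.Nd) (S : ℕ), c.lab (ι y) S ↔ C.T y = {v : Fin (2 ^ (M + 1)) | mem S v} := by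
    intro y S
    constructor
    · intro hl
      ext v
      exact (kT y v).symm.trans (hl v.1 v.2)
    · intro hS v hv
      have := kT y ⟨v, hv⟩
      rw [hS] at this
      exact this
  have kgood : ∀ (m : ℕ) (y : C.Nd), m < M + 1 → C.GoodAt m y → c.good m (ι y) := by
    intro m y hm hg l hl hll hanc v hv hvU hvT
    obtain ⟨l', rfl⟩ := hιs l hl
    have e1 : C.lev l' = M + 1 := (kL l').symm.trans hll
    have e2 : C.anc l' (m + 1) = y := by
      have := kA l' (m + 1) (by omega)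
      rw [this] at hanc
      exact hιi hanc
    exact (kU l' (m + 1) ⟨v, hv⟩ (by omega)).2
      (hg l' e1 e2 ⟨v, hv⟩ ((kU l' m ⟨v, hv⟩ (by omega)).1 hvU) ((kT y ⟨v, hv⟩).1 hvT))
  -- generation
  have kgen1 : ∀ (m : ℕ) (s : C.Nd) (S : ℕ), m < M + 1 → c.gen n (ι s) m S →
      C.GenBy (fun _ => True) s m {v : Fin (2 ^ (M + 1)) | mem S v} := by
    intro m s S hm hg w hw
    obtain ⟨l, hl, v, hv, hll, hal, hvU, hvS, hsub, hor⟩ := hg w.1 w.2 hw
    obtain ⟨l', rfl⟩ := hιs l hl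
    have e1 : C.lev l' = M + 1 := (kL l').symm.trans hll
    have e2 : C.anc l' m = s := by
      have := kA l' m (by omega)
      rw [this] at hal
      exact hιi hal
    have e3 := kA l' (m + 1) (by omega)
    rw [e3] at hsub hor
    refine ⟨l', ⟨v, hv⟩, trivial, e1, e2, (kU l' m ⟨v, hv⟩ (by omega)).1 hvU, hvS, ?_, ?_⟩
    · intro u hu
      exact hsub u.1 u.2 ((kT _ u).2 hu)
    · rcases hor with h | h
      · exact Or.inl (Fin.ext h)
      · exact Or.inr ((kT _ w).1 h)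
  have kgen2 : ∀ (m : ℕ) (x s : C.Nd) (S : ℕ), m < M + 1 →
      C.GenBy (fun l => C.τ l < C.τ x) s m {v : Fin (2 ^ (M + 1)) | mem S v} → c.gen (ι x) (ι s) m S := by
    intro m x s S hm hg u hu hmu
    obtain ⟨l, v, hl, hll, hal, hvU, hvS, hsub, hor⟩ := hg ⟨u, hu⟩ hmu
    have e3 := kA l (m + 1) (by omega)
    refine ⟨ι l, (hιlt l x).2 hl, v.1, v.2, (kL l).trans hll, ?_, ?_, hvS, ?_, ?_⟩
    · rw [kA l m (by omega), hal]
    · exact (kU l m v (by omega)).2 hvU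
    · intro u' hu' hT'
      rw [e3] at hT'
      exact hsub ((kT _ ⟨u', hu'⟩).1 hT')
    · rcases hor with h | h
      · exact Or.inl (congrArg Fin.val h)
      · right
        rw [e3]
        exact (kT _ ⟨u, hu⟩).2 h
  have kset : ∀ S : Set (Fin (2 ^ (M + 1))), ∃ S' < 2 ^ (2 ^ (M + 1)), {v : Fin (2 ^ (M + 1)) |
      mem S' v} = S := by
    intro S
    obtain ⟨S', hS', hmem⟩ := exists_mem (2 ^ (M + 1))
      (fun u => ∃ hu : u < 2 ^ (M + 1), (⟨u, hu⟩ : Fin (2 ^ (M + 1))) ∈ S)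
    refine ⟨S', hS', ?_⟩
    ext u
    exact ⟨fun hu => ((hmem u.1 u.2).1 hu).2, fun hu => (hmem u.1 u.2).2 ⟨u.2, hu⟩⟩
  refine ⟨n, Nat.lt_succ_iff.mpr hF, ι C.root, hιn _, L, hL, A, hA, T, hT, U, hU,
    ?_, ?_, ?_, ?_, ?_, ?_, ?_, ?_, ?_, ?_⟩
  · -- c1
    refine ⟨hιn _, (kL _).trans hC.lev_root, fun x hx h0 => ?_⟩
    obtain ⟨y, rfl⟩ := hιs x hx
    have : C.lev y = 0 := (kL y).symm.trans h0
    rw [hC.root_uniq y this]
    rfl
  · -- c2
    intro x hx
    obtain ⟨y, rfl⟩ := hιs x hx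
    change c.anc (ι y) (c.lev (ι y)) = ι y
    rw [kL y, kA y _ (Nat.lt_succ_iff.mpr (hC.lev_le y)), hC.anc_self y]
  · -- c3
    intro x hx j _ hj
    obtain ⟨y, rfl⟩ := hιs x hx
    have hj' : j ≤ C.lev y := by rw [← kL y]; exact hj
    have hj2 : j < M + 2 := lt_of_le_of_lt hj' (Nat.lt_succ_iff.mpr (hC.lev_le y))
    change c.lev (c.anc (ι y) j) = j
    rw [kA y j hj2, kL, hC.lev_anc y j hj']
  · -- c4
    intro x hx j _ i _ hij hj
    obtain ⟨y, rfl⟩ := hιs x hx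
    have hj' : j ≤ C.lev y := by rw [← kL y]; exact hj
    have hj2 : j < M + 2 := lt_of_le_of_lt hj' (Nat.lt_succ_iff.mpr (hC.lev_le y))
    change c.anc (c.anc (ι y) j) i = c.anc (ι y) i
    rw [kA y j hj2, kA _ i (by omega), kA y i (by omega), hC.anc_anc y i j hij hj']
  · -- c5
    intro l hl hll
    obtain ⟨y, rfl⟩ := hιs l hl
    have e1 : C.lev y = M + 1 := (kL y).symm.trans hll
    obtain ⟨v, hv⟩ := hC.U_ne y e1
    exact ⟨v.1, v.2, (kU y 0 v (by omega)).2 hv⟩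
  · -- c6
    intro l hl hll j hj v hv hvU
    obtain ⟨y, rfl⟩ := hιs l hl
    have e1 : C.lev y = M + 1 := (kL y).symm.trans hll
    have hj' : j < M + 1 := hj
    have hvU' : (⟨v, hv⟩ : Fin (2 ^ (M + 1))) ∈ C.U y (j + 1) :=
      (kU y (j + 1) ⟨v, hv⟩ (by omega)).1 hvU
    refine ⟨(kU y j ⟨v, hv⟩ (by omega)).2 (hC.U_anti y j e1 hj' hvU'), ?_⟩
    change c.T (c.anc (ι y) (j + 1)) v
    rw [kA y (j + 1) (by omega)]
    exact (kT _ ⟨v, hv⟩).2 (hC.U_sub y j e1 hj' hvU')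
  · -- c7
    intro s hs m hm hlev S hS hg
    obtain ⟨y, rfl⟩ := hιs s hs
    have hm' : m < M + 1 := hm
    have e1 : C.lev y = m := (kL y).symm.trans hlev
    obtain ⟨x, ⟨hx1, hx2⟩, hx3, hx4⟩ := hC.legit y m _ e1 hm' (kgen1 m y S hm' hg)
    refine ⟨ι x, hιn x, (kL x).trans hx1, ?_, (klab x S).2 hx3, kgood m x hm' hx4⟩
    change c.anc (ι x) m = ι y
    rw [kA x m (by omega), hx2]
  · -- c8
    intro m hm x hx y hy hlx hly hanc hx0 hy0
    obtain ⟨x', rfl⟩ := hιs x hx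
    obtain ⟨y', rfl⟩ := hιs y hy
    have hm' : m < M + 1 := hm
    have e1 : C.lev x' = m + 1 := (kL x').symm.trans hlx
    have e2 : C.lev y' = m + 1 := (kL y').symm.trans hly
    have e3 : C.anc x' m = C.anc y' m := by
      have h' : c.anc (ι x') m = c.anc (ι y') m := hanc
      rw [kA x' m (by omega), kA y' m (by omega)] at h'
      exact hιi h'
    have e4 : ∀ z : C.Nd, c.lab (ι z) 0 → C.T z = ∅ := by
      intro z hz
      rw [(klab z 0).1 hz]
      ext v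
      simp [NB_zero_iff]
    rw [hC.empty_uniq m (C.anc y' m) x' y' ⟨e1, e3⟩ ⟨e2, rfl⟩ (e4 x' hx0) (e4 y' hy0)]
  · -- c9
    intro m hm x hx hlx
    obtain ⟨x', rfl⟩ := hιs x hx
    have hm' : m < M + 1 := hm
    have e1 : C.lev x' = m + 1 := (kL x').symm.trans hlx
    have e3 := kA x' m (by omega)
    refine ⟨?_, ?_⟩
    · change c.anc (ι x') m < ι x'
      rw [e3]
      exact (hιlt _ _).2 (hC.τ_anc x' m e1)
    · obtain ⟨S', hS', hSeq⟩ := kset (C.T x')
      refine ⟨S', hS', (klab x' S').2 hSeq.symm, ?_⟩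
      change c.gen (ι x') (c.anc (ι x') m) m S'
      rw [e3]
      apply kgen2 m x' _ S' hm'
      rw [hSeq]
      exact hC.avail x' m e1
  · -- c10
    refine ⟨?_, ?_⟩
    · intro l hl hll v hv hvU
      obtain ⟨y, rfl⟩ := hιs l hl
      have e1 : C.lev y = M + 1 := (kL y).symm.trans hll
      have hvU' : (⟨v, hv⟩ : Fin (2 ^ (M + 1))) ∈ C.U y 0 := (kU y 0 ⟨v, hv⟩ (by omega)).1 hvU
      obtain ⟨⟨hc0, hc1, hc2⟩, hc3⟩ :=
        hcoh (⟨v, hv⟩, fun k => C.T (C.anc y (k + 1))) ⟨y, e1, hvU', fun k => rfl⟩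
      refine ⟨⟨hc0, ?_⟩, hc3⟩
      intro x hx z hz
      refine ⟨fun hxz => hc1 x z hxz, fun hxz => ?_⟩
      have hx' : x < M + 1 := hx
      have := hc2 ⟨x, hx'⟩ z hxz
      refine this.trans ?_
      have e3 : c.anc (ι y) (x + 1) = ι (C.anc y (x + 1)) := kA y (x + 1) (by omega)
      constructor
      · intro hu u huw huT
        have huT' : c.T (c.anc (ι y) (x + 1)) u := huT
        rw [e3] at huT'
        exact hu ⟨u, huw⟩ ((kT _ ⟨u, huw⟩).1 huT')
      · intro hu u huT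
        have := hu u.1 u.2
        apply this
        change c.T (c.anc (ι y) (x + 1)) u
        rw [e3]
        exact (kT _ u).2 huT
    · obtain ⟨q, ⟨y, e1, hq0, _⟩, hqb⟩ := hb
      exact ⟨ι y, hιn y, (kL y).trans e1, q.1.1, q.1.2, (kU y 0 q.1 (by omega)).2 hq0, hqb⟩

end H94G
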