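import Pool.Agent.Lib.H94G.PrimA

/-!
# The criterion is primitive recursive (chunk PB)

Mechanical, with the closure properties of `PrimA` (in the style: for `f : α → Cx` primitive recursive
and `g : α → ℕ` primitive recursive, `fun a => (f a).lev (g a)` is primitive recursive, and so on for
`anc`, `T`, `U`, `gen`, `lab`, `good`, `coh`, `c1`, ..., `c10`).
-/

namespace H94G

section pb

open Primrec (fst snd)

variable {α : Type} [Primcodable α] {f : α → Cx} {g h k m : α → ℕ}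

theorem pb_eq (hg : Primrec g) (hh : Primrec h) : PrimrecPred fun a => g a = h a :=
  Primrec.eq.comp hg hh

theorem pb_lt (hg : Primrec g) (hh : Primrec h) : PrimrecPred fun a => g a < h a :=
  Primrec.nat_lt.comp hg hh

theorem pb_le (hg : Primrec g) (hh : Primrec h) : PrimrecPred fun a => g a ≤ h a :=
  Primrec.nat_le.comp hg hh

theorem pb_s (hg : Primrec g) : Primrec fun a => g a + 1 := Primrec.succ.comp hg

theorem pb_M (hf : Primrec f) : Primrec fun a => (f a).M := fst.comp hf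

theorem pb_n (hf : Primrec f) : Primrec fun a => (f a).n := fst.comp (snd.comp hf)

theorem pb_r (hf : Primrec f) : Primrec fun a => (f a).r := fst.comp (snd.comp (snd.comp hf))

theorem pb_Lc (hf : Primrec f) : Primrec fun a => (f a).Lc :=
  fst.comp (snd.comp (snd.comp (snd.comp hf)))

theorem pb_Ac (hf : Primrec f) : Primrec fun a => (f a).Ac :=
  fst.comp (snd.comp (snd.comp (snd.comp (snd.comp hf))))

theorem pb_Tc (hf : Primrec f) : Primrec fun a => (f a).Tc :=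
  fst.comp (snd.comp (snd.comp (snd.comp (snd.comp (snd.comp hf)))))

theorem pb_Uc (hf : Primrec f) : Primrec fun a => (f a).Uc :=
  snd.comp (snd.comp (snd.comp (snd.comp (snd.comp (snd.comp hf)))))

theorem pb_N (hf : Primrec f) : Primrec fun a => (f a).N := pb_s (pb_M hf)

theorem pb_w (hf : Primrec f) : Primrec fun a => (f a).w :=
  prim_pow (Primrec.const 2) (pb_s (pb_M hf))

theorem pb_lev (hf : Primrec f) (hg : Primrec g) : Primrec fun a => (f a).lev (g a) :=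
  prim_dig (pb_s (pb_s (pb_M hf))) (pb_Lc hf) hg

theorem pb_anc (hf : Primrec f) (hg : Primrec g) (hh : Primrec h) :
    Primrec fun a => (f a).anc (g a) (h a) :=
  prim_dig (pb_n hf) (pb_Ac hf) (prim_pair hg hh)

theorem pb_T (hf : Primrec f) (hg : Primrec g) (hh : Primrec h) :
    PrimrecPred fun a => (f a).T (g a) (h a) :=
  pb_eq (prim_dig (Primrec.const 2) (pb_Tc hf) (prim_pair hg hh)) (Primrec.const 1)

theorem pb_U (hf : Primrec f) (hg : Primrec g) (hh : Primrec h) (hk : Primrec k) :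
    PrimrecPred fun a => (f a).U (g a) (h a) (k a) :=
  pb_eq (prim_dig (Primrec.const 2) (pb_Uc hf) (prim_pair hg (prim_pair hh hk)))
    (Primrec.const 1)

theorem pb_gen (hf : Primrec f) (hg : Primrec g) (hh : Primrec h) (hk : Primrec k)
    (hm : Primrec m) : PrimrecPred fun a => (f a).gen (g a) (h a) (k a) (m a) := by
  have d : Primrec fun p : ((α × ℕ) × ℕ) × ℕ => p.1.1.1 := fst.comp (fst.comp fst)
  have hf' := hf.comp d
  have hk' := hk.comp d
  have hu : Primrec fun p : ((α × ℕ) × ℕ) × ℕ => p.1.1.2 := snd.comp (fst.comp fst)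
  have hl : Primrec fun p : ((α × ℕ) × ℕ) × ℕ => p.1.2 := snd.comp fst
  have hv : Primrec fun p : ((α × ℕ) × ℕ) × ℕ => p.2 := snd
  have hanc := pb_anc hf' hl (pb_s hk')
  have e : Primrec fun p : (((α × ℕ) × ℕ) × ℕ) × ℕ => p.1 := fst
  exact ball (pb_w hf) (prim_imp (prim_mem (hm.comp fst) snd)
    (bex (hg.comp fst) (bex (pb_w (hf.comp (fst.comp fst)))
      ((pb_eq (pb_lev hf' hl) (pb_N hf')).and ((pb_eq (pb_anc hf' hl hk') (hh.comp d)).and
        ((pb_U hf' hl hk' hv).and ((prim_mem (hm.comp d) hv).and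
          ((ball (pb_w hf') (prim_imp (pb_T (hf'.comp e) (hanc.comp e) snd)
            (prim_mem ((hm.comp d).comp e) snd))).and
            ((pb_eq hu hv).or (pb_T hf' hanc hu))))))))))

theorem pb_lab (hf : Primrec f) (hg : Primrec g) (hh : Primrec h) :
    PrimrecPred fun a => (f a).lab (g a) (h a) :=
  ball (pb_w hf) (prim_iff (pb_T (hf.comp fst) (hg.comp fst) snd) (prim_mem (hh.comp fst) snd))

theorem pb_good (hf : Primrec f) (hg : Primrec g) (hh : Primrec h) :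
    PrimrecPred fun a => (f a).good (g a) (h a) := by
  have hf1 : Primrec fun p : α × ℕ => f p.1 := hf.comp fst
  have hg1 : Primrec fun p : α × ℕ => g p.1 := hg.comp fst
  have hh1 : Primrec fun p : α × ℕ => h p.1 := hh.comp fst
  have hf2 := hf1.comp (fst (α := α × ℕ) (β := ℕ))
  have hg2 := hg1.comp (fst (α := α × ℕ) (β := ℕ))
  have hh2 := hh1.comp (fst (α := α × ℕ) (β := ℕ))
  have hl : Primrec fun p : (α × ℕ) × ℕ => p.1.2 := snd.comp fst
  have hv : Primrec fun p : (α × ℕ) × ℕ => p.2 := snd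
  exact ball (pb_n hf) (prim_imp (pb_eq (pb_lev hf1 snd) (pb_N hf1))
    (prim_imp (pb_eq (pb_anc hf1 snd (pb_s hg1)) hh1) (ball (pb_w hf1)
      (prim_imp (pb_U hf2 hl hg2 hv) (prim_imp (pb_T hf2 hh2 hv) (pb_U hf2 hl (pb_s hg2) hv))))))

theorem pb_c1 (hf : Primrec f) : PrimrecPred fun a => (f a).c1 :=
  (pb_lt (pb_r hf) (pb_n hf)).and ((pb_eq (pb_lev hf (pb_r hf)) (Primrec.const 0)).and
    (ball (pb_n hf) (prim_imp (pb_eq (pb_lev (hf.comp fst) snd) (Primrec.const 0))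
      (pb_eq snd (pb_r (hf.comp fst))))))

theorem pb_c2 (hf : Primrec f) : PrimrecPred fun a => (f a).c2 :=
  ball (pb_n hf) (pb_eq (pb_anc (hf.comp fst) snd (pb_lev (hf.comp fst) snd)) snd)

theorem pb_c3 (hf : Primrec f) : PrimrecPred fun a => (f a).c3 := by
  have hf1 : Primrec fun p : α × ℕ => f p.1 := hf.comp fst
  have hf2 := hf1.comp (fst (α := α × ℕ) (β := ℕ))
  have hx : Primrec fun p : (α × ℕ) × ℕ => p.1.2 := snd.comp fst
  have hj : Primrec fun p : (α × ℕ) × ℕ => p.2 := snd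
  exact ball (pb_n hf) (ball (pb_s (pb_N hf1)) (prim_imp (pb_le hj (pb_lev hf2 hx))
    (pb_eq (pb_lev hf2 (pb_anc hf2 hx hj)) hj)))

theorem pb_c4 (hf : Primrec f) : PrimrecPred fun a => (f a).c4 := by
  have hf1 : Primrec fun p : α × ℕ => f p.1 := hf.comp fst
  have hf2 := hf1.comp (fst (α := α × ℕ) (β := ℕ))
  have hf3 := hf2.comp (fst (α := (α × ℕ) × ℕ) (β := ℕ))
  have hx : Primrec fun p : ((α × ℕ) × ℕ) × ℕ => p.1.1.2 := snd.comp (fst.comp fst)
  have hj : Primrec fun p : ((α × ℕ) × ℕ) × ℕ => p.1.2 := snd.comp fst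
  have hi : Primrec fun p : ((α × ℕ) × ℕ) × ℕ => p.2 := snd
  exact ball (pb_n hf) (ball (pb_s (pb_N hf1)) (ball (pb_s (pb_N hf2))
    (prim_imp (pb_le hi hj) (prim_imp (pb_le hj (pb_lev hf3 hx))
      (pb_eq (pb_anc hf3 (pb_anc hf3 hx hj) hi) (pb_anc hf3 hx hi))))))

theorem pb_c5 (hf : Primrec f) : PrimrecPred fun a => (f a).c5 := by
  have hf1 : Primrec fun p : α × ℕ => f p.1 := hf.comp fst
  have hf2 := hf1.comp (fst (α := α × ℕ) (β := ℕ))
  have hl : Primrec fun p : (α × ℕ) × ℕ => p.1.2 := snd.comp fst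
  exact ball (pb_n hf) (prim_imp (pb_eq (pb_lev hf1 snd) (pb_N hf1))
    (bex (pb_w hf1) (pb_U hf2 hl (Primrec.const 0) snd)))

theorem pb_c6 (hf : Primrec f) : PrimrecPred fun a => (f a).c6 := by
  have hf1 : Primrec fun p : α × ℕ => f p.1 := hf.comp fst
  have hf2 := hf1.comp (fst (α := α × ℕ) (β := ℕ))
  have hf3 := hf2.comp (fst (α := (α × ℕ) × ℕ) (β := ℕ))
  have hl : Primrec fun p : ((α × ℕ) × ℕ) × ℕ => p.1.1.2 := snd.comp (fst.comp fst)
  have hj : Primrec fun p : ((α × ℕ) × ℕ) × ℕ => p.1.2 := snd.comp fst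
  have hv : Primrec fun p : ((α × ℕ) × ℕ) × ℕ => p.2 := snd
  exact ball (pb_n hf) (prim_imp (pb_eq (pb_lev hf1 snd) (pb_N hf1))
    (ball (pb_N hf1) (ball (pb_w hf2) (prim_imp (pb_U hf3 hl (pb_s hj) hv)
      ((pb_U hf3 hl hj hv).and (pb_T hf3 (pb_anc hf3 hl (pb_s hj)) hv))))))

theorem pb_c7 (hf : Primrec f) : PrimrecPred fun a => (f a).c7 := by
  have hf1 : Primrec fun p : α × ℕ => f p.1 := hf.comp fst
  have hf2 := hf1.comp (fst (α := α × ℕ) (β := ℕ))
  have hf3 := hf2.comp (fst (α := (α × ℕ) × ℕ) (β := ℕ))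
  have hf4 := hf3.comp (fst (α := ((α × ℕ) × ℕ) × ℕ) (β := ℕ))
  have hs3 : Primrec fun p : ((α × ℕ) × ℕ) × ℕ => p.1.1.2 := snd.comp (fst.comp fst)
  have hm3 : Primrec fun p : ((α × ℕ) × ℕ) × ℕ => p.1.2 := snd.comp fst
  have hs4 := hs3.comp (fst (α := ((α × ℕ) × ℕ) × ℕ) (β := ℕ))
  have hm4 := hm3.comp (fst (α := ((α × ℕ) × ℕ) × ℕ) (β := ℕ))
  have hS4 : Primrec fun p : (((α × ℕ) × ℕ) × ℕ) × ℕ => p.1.2 := snd.comp fst
  have hx4 : Primrec fun p : (((α × ℕ) × ℕ) × ℕ) × ℕ => p.2 := snd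
  exact ball (pb_n hf) (ball (pb_N hf1) (prim_imp
    (pb_eq (pb_lev hf2 (snd.comp fst)) snd)
    (ball (prim_pow (Primrec.const 2) (pb_w hf2)) (prim_imp
      (pb_gen hf3 (pb_n hf3) hs3 hm3 snd)
      (bex (pb_n hf3) ((pb_eq (pb_lev hf4 hx4) (pb_s hm4)).and
        ((pb_eq (pb_anc hf4 hx4 hm4) hs4).and ((pb_lab hf4 hx4 hS4).and
          (pb_good hf4 hm4 hx4)))))))))

theorem pb_c8 (hf : Primrec f) : PrimrecPred fun a => (f a).c8 := by
  have hf1 : Primrec fun p : α × ℕ => f p.1 := hf.comp fst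
  have hf2 := hf1.comp (fst (α := α × ℕ) (β := ℕ))
  have hf3 := hf2.comp (fst (α := (α × ℕ) × ℕ) (β := ℕ))
  have hm : Primrec fun p : ((α × ℕ) × ℕ) × ℕ => p.1.1.2 := snd.comp (fst.comp fst)
  have hx : Primrec fun p : ((α × ℕ) × ℕ) × ℕ => p.1.2 := snd.comp fst
  have hy : Primrec fun p : ((α × ℕ) × ℕ) × ℕ => p.2 := snd
  exact ball (pb_N hf) (ball (pb_n hf1) (ball (pb_n hf2)
    (prim_imp (pb_eq (pb_lev hf3 hx) (pb_s hm)) (prim_imp (pb_eq (pb_lev hf3 hy) (pb_s hm))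
      (prim_imp (pb_eq (pb_anc hf3 hx hm) (pb_anc hf3 hy hm))
        (prim_imp (pb_lab hf3 hx (Primrec.const 0)) (prim_imp (pb_lab hf3 hy (Primrec.const 0))
          (pb_eq hx hy))))))))

theorem pb_c9 (hf : Primrec f) : PrimrecPred fun a => (f a).c9 := by
  have hf1 : Primrec fun p : α × ℕ => f p.1 := hf.comp fst
  have hf2 := hf1.comp (fst (α := α × ℕ) (β := ℕ))
  have hf3 := hf2.comp (fst (α := (α × ℕ) × ℕ) (β := ℕ))
  have hm2 : Primrec fun p : (α × ℕ) × ℕ => p.1.2 := snd.comp fst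
  have hx2 : Primrec fun p : (α × ℕ) × ℕ => p.2 := snd
  have hm3 := hm2.comp (fst (α := (α × ℕ) × ℕ) (β := ℕ))
  have hx3 := hx2.comp (fst (α := (α × ℕ) × ℕ) (β := ℕ))
  have hS : Primrec fun p : ((α × ℕ) × ℕ) × ℕ => p.2 := snd
  exact ball (pb_N hf) (ball (pb_n hf1) (prim_imp (pb_eq (pb_lev hf2 hx2) (pb_s hm2))
    ((pb_lt (pb_anc hf2 hx2 hm2) hx2).and (bex (prim_pow (Primrec.const 2) (pb_w hf2))
      ((pb_lab hf3 hx3 hS).and (pb_gen hf3 hx3 (pb_anc hf3 hx3 hm3) hm3 hS))))))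

theorem pb_coh (hf : Primrec f) (hg : Primrec g) (hh : Primrec h) :
    PrimrecPred fun a => (f a).coh (g a) (h a) := by
  have hf1 : Primrec fun p : α × ℕ => f p.1 := hf.comp fst
  have hf2 := hf1.comp (fst (α := α × ℕ) (β := ℕ))
  have hf3 := hf2.comp (fst (α := (α × ℕ) × ℕ) (β := ℕ))
  have hg1 : Primrec fun p : α × ℕ => g p.1 := hg.comp fst
  have hg2 := hg1.comp (fst (α := α × ℕ) (β := ℕ))
  have hg3 := hg2.comp (fst (α := (α × ℕ) × ℕ) (β := ℕ))
  have hh1 : Primrec fun p : α × ℕ => h p.1 := hh.comp fst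
  have hh2 := hh1.comp (fst (α := α × ℕ) (β := ℕ))
  have hx : Primrec fun p : (α × ℕ) × ℕ => p.1.2 := snd.comp fst
  have hy : Primrec fun p : (α × ℕ) × ℕ => p.2 := snd
  have hx3 := hx.comp (fst (α := (α × ℕ) × ℕ) (β := ℕ))
  have hy3 := hy.comp (fst (α := (α × ℕ) × ℕ) (β := ℕ))
  have hq : Primrec fun p : (α × ℕ) × ℕ => 3 * Nat.pair p.1.2 p.2 :=
    Primrec.nat_mul.comp (Primrec.const 3) (prim_pair hx hy)
  have hq2 : Primrec fun p : (α × ℕ) × ℕ => 3 * Nat.pair p.1.2 p.2 + 2 := pb_s (pb_s hq)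
  have hq3 : Primrec fun p : (α × ℕ) × ℕ => 3 * Nat.pair p.1.2 p.2 + 3 := pb_s hq2
  exact (prim_mem hh (Primrec.const 0)).not.and (ball (pb_s (pb_M hf)) (ball (pb_s (pb_M hf1))
    ((prim_imp (pb_le hq2 (pb_M hf2)) (prim_iff (prim_mem hh2 hq2)
      (prim_imp (prim_mem hh2 hx) (prim_mem hh2 hy)))).and
      (prim_imp (pb_le hq3 (pb_M hf2)) (prim_iff (prim_mem hh2 hq3)
        (ball (pb_w hf2) (prim_imp (pb_T hf3 (pb_anc hf3 hg3 (pb_s hx3)) snd)
          (prim_mem snd hy3))))))))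

theorem pb_c10 (hf : Primrec f) (hg : Primrec g) (hh : Primrec h) :
    PrimrecPred fun a => (f a).c10 (g a) (h a) := by
  have hf1 : Primrec fun p : α × ℕ => f p.1 := hf.comp fst
  have hf2 := hf1.comp (fst (α := α × ℕ) (β := ℕ))
  have hl : Primrec fun p : (α × ℕ) × ℕ => p.1.2 := snd.comp fst
  have hv : Primrec fun p : (α × ℕ) × ℕ => p.2 := snd
  have hg2 : Primrec fun p : (α × ℕ) × ℕ => g p.1.1 := hg.comp (fst.comp fst)
  have hh2 : Primrec fun p : (α × ℕ) × ℕ => h p.1.1 := hh.comp (fst.comp fst)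
  exact (ball (pb_n hf) (prim_imp (pb_eq (pb_lev hf1 snd) (pb_N hf1)) (ball (pb_w hf1)
    (prim_imp (pb_U hf2 hl (Primrec.const 0) hv) ((pb_coh hf2 hl hv).and
      (prim_mem hv hg2)))))).and
    (bex (pb_n hf) ((pb_eq (pb_lev hf1 snd) (pb_N hf1)).and (bex (pb_w hf1)
      ((pb_U hf2 hl (Primrec.const 0) hv).and (prim_mem hv hh2).not))))

end pb

theorem prim_check {α : Type} [Primcodable α] {f : α → Cx} {g h : α → ℕ} (hf : Primrec f)
    (hg : Primrec g) (hh : Primrec h) : PrimrecPred fun a => Cx.Check (f a) (g a) (h a) :=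
  (pb_c1 hf).and ((pb_c2 hf).and ((pb_c3 hf).and ((pb_c4 hf).and ((pb_c5 hf).and
    ((pb_c6 hf).and ((pb_c7 hf).and ((pb_c8 hf).and ((pb_c9 hf).and (pb_c10 hf hg hh)))))))))

theorem prim_crit {α : Type} [Primcodable α] {f g h k : α → ℕ} (hf : Primrec f)
    (hg : Primrec g) (hh : Primrec h) (hk : Primrec k) :
    PrimrecPred fun a => Crit (f a) (g a) (h a) (k a) := by
  have e1 : Primrec fun p : α × ℕ => p.1 := Primrec.fst
  have e2 : Primrec fun p : (α × ℕ) × ℕ => p.1 := Primrec.fst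
  have e3 : Primrec fun p : ((α × ℕ) × ℕ) × ℕ => p.1 := Primrec.fst
  have e4 : Primrec fun p : (((α × ℕ) × ℕ) × ℕ) × ℕ => p.1 := Primrec.fst
  have e5 : Primrec fun p : ((((α × ℕ) × ℕ) × ℕ) × ℕ) × ℕ => p.1 := Primrec.fst
  have e6 : Primrec fun p : (((((α × ℕ) × ℕ) × ℕ) × ℕ) × ℕ) × ℕ => p.1 := Primrec.fst
  have n1 : Primrec fun p : α × ℕ => p.2 := Primrec.snd
  have n2 := n1.comp e2
  have n3 := n2.comp e3
  have n4 := n3.comp e4
  have n5 := n4.comp e5
  have n6 := n5.comp e6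
  have r2 : Primrec fun p : (α × ℕ) × ℕ => p.2 := Primrec.snd
  have r6 := ((r2.comp e3).comp e4).comp (e5.comp e6)
  have L3 : Primrec fun p : ((α × ℕ) × ℕ) × ℕ => p.2 := Primrec.snd
  have L6 := (L3.comp e4).comp (e5.comp e6)
  have A4 : Primrec fun p : (((α × ℕ) × ℕ) × ℕ) × ℕ => p.2 := Primrec.snd
  have A6 := A4.comp (e5.comp e6)
  have T5 : Primrec fun p : ((((α × ℕ) × ℕ) × ℕ) × ℕ) × ℕ => p.2 := Primrec.snd
  have T6 := T5.comp e6
  have U6 : Primrec fun p : (((((α × ℕ) × ℕ) × ℕ) × ℕ) × ℕ) × ℕ => p.2 := Primrec.snd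
  have g1 := hg.comp e1
  have g2 := g1.comp e2
  have g3 := g2.comp e3
  have g4 := g3.comp e4
  have g5 := g4.comp e5
  have g6 := g5.comp e6
  have h6 := (((((hh.comp e1).comp e2).comp e3).comp e4).comp e5).comp e6
  have k6 := (((((hk.comp e1).comp e2).comp e3).comp e4).comp e5).comp e6
  have c2 : Primrec fun _ : ((α × ℕ) × ℕ) × ℕ => 2 := Primrec.const 2
  have c4 : Primrec fun _ : (((α × ℕ) × ℕ) × ℕ) × ℕ => 2 := Primrec.const 2
  exact bex (pb_s hf) (bex n1 (bex (prim_pow (pb_s (pb_s g2)) n2)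
    (bex (prim_pow n3 (prim_pair n3 (pb_s (pb_s g3))))
      (bex (prim_pow c4 (prim_pair n4 (prim_pow c4 (pb_s g4))))
        (bex (prim_pow (Primrec.const 2) (prim_pair n5 (prim_pair (pb_s (pb_s g5))
          (prim_pow (Primrec.const 2) (pb_s g5)))))
          (prim_check (g6.pair (n6.pair (r6.pair (L6.pair (A6.pair (T6.pair U6)))))) h6 k6))))))

end H94G
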