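import Pool.Agent.Lib.H94G.LinkA
import Pool.Agent.Lib.H94G.LinkB
import Pool.Agent.Lib.H94G.NumA
import Pool.Agent.Lib.H94G.NumB
import Pool.Agent.Lib.H94G.PrimB

/-!
# Decidability of the admissible rules of GLP: assembly
-/

namespace H94G

open Form

/-- The criterion for admissibility. -/
theorem admissible_iff (a b : ℕ) : Admissible (ofCode a) (ofCode b) ↔
    ¬ Crit (bnd (max a b + 1) (2 ^ (max a b + 1))) (max a b) a b := by
  have ha : code (ofCode a) = a := code_ofCode a
  have hb : code (ofCode b) = b := code_ofCode b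
  constructor
  · intro h hc
    obtain ⟨C, hC⟩ := numA hc
    have hC' : CertFor (max a b) (code (ofCode a)) (code (ofCode b)) C := by
      rw [ha, hb]; exact hC
    exact linkB (by rw [ha]; exact le_max_left a b) (by rw [hb]; exact le_max_right a b) C hC' h
  · intro h
    by_contra hn
    apply h
    obtain ⟨C, hC⟩ := linkA (M := max a b) (by rw [ha]; exact le_max_left a b)
      (by rw [hb]; exact le_max_right a b) hn
    rw [ha, hb] at hC
    obtain ⟨C', hC1, hC2, hC3⟩ := collapse C hC.1
    have h' : CertFor (max a b) a b C' := by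
      refine ⟨hC1, ?_, ?_⟩
      · rw [hC2]; exact hC.2.1
      · rw [hC2]; exact hC.2.2
    refine numB C' h' ?_
    simpa using hC3

theorem admissible_computable :
    ComputablePred (fun p : ℕ × ℕ => Admissible (ofCode p.1) (ofCode p.2)) := by
  have hm : Primrec fun p : ℕ × ℕ => max p.1 p.2 := Primrec.nat_max.comp Primrec.fst Primrec.snd
  have hs : Primrec fun p : ℕ × ℕ => max p.1 p.2 + 1 := Primrec.succ.comp hm
  have hp : PrimrecPred fun p : ℕ × ℕ =>
      Crit (bnd (max p.1 p.2 + 1) (2 ^ (max p.1 p.2 + 1))) (max p.1 p.2) p.1 p.2 :=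
    prim_crit (prim_bnd hs (prim_pow (Primrec.const 2) hs)) hm Primrec.fst Primrec.snd
  have hq : PrimrecPred fun p : ℕ × ℕ => Admissible (ofCode p.1) (ofCode p.2) :=
    hp.not.of_eq fun p => (admissible_iff p.1 p.2).symm
  exact hq.computablePred

end H94G
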