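import Pool.Agent.Lib.H94G.Digits
import Pool.Agent.Lib.H94G.Collapse

/-!
# Numerical certificates (definitions)

A certificate with `n` nodes and the values `v < 2 ^ (M + 1)` is given by numbers
`c = (M, n, r, L, A, T, U)`: the nodes are the numbers `< n`, in the order of their times, `r` is the
root, the digits of `L` (base `M + 2`) are the levels, those of `A` (base `n`) the ancestors, the binary
digits of `T` and `U` give the labels. All quantifiers are bounded.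
-/

namespace H94G

/-- Codes of certificates. -/
abbrev Cx : Type := ℕ × ℕ × ℕ × ℕ × ℕ × ℕ × ℕ

namespace Cx

variable (c : Cx)

/-- Bound for the codes of the formulas. -/
def M : ℕ := c.1
/-- Number of nodes. -/
def n : ℕ := c.2.1
/-- The root. -/
def r : ℕ := c.2.2.1
/-- Code of the levels. -/
def Lc : ℕ := c.2.2.2.1
/-- Code of the ancestors. -/
def Ac : ℕ := c.2.2.2.2.1
/-- Code of the labels `T`. -/
def Tc : ℕ := c.2.2.2.2.2.1
/-- Code of the labels `U`. -/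
def Uc : ℕ := c.2.2.2.2.2.2
/-- The number of modalities. -/
def N : ℕ := c.M + 1
/-- The number of values. -/
def w : ℕ := 2 ^ (c.M + 1)
/-- Level of a node. -/
def lev (x : ℕ) : ℕ := dig (c.M + 2) c.Lc x
/-- Ancestor of `x` at level `j`. -/
def anc (x j : ℕ) : ℕ := dig c.n c.Ac (Nat.pair x j)
/-- `v ∈ T x`. -/
def T (x v : ℕ) : Prop := dig 2 c.Tc (Nat.pair x v) = 1
/-- `v ∈ U l j`. -/
def U (l j v : ℕ) : Prop := dig 2 c.Uc (Nat.pair l (Nat.pair j v)) = 1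

/-- The set `S` is generated at `s` (level `m`) by leaves `l < t`. -/
def gen (t s m S : ℕ) : Prop :=
  ∀ u < c.w, mem S u → ∃ l < t, ∃ v < c.w, c.lev l = c.N ∧ c.anc l m = s ∧ c.U l m v ∧ mem S v ∧
    (∀ u' < c.w, c.T (c.anc l (m + 1)) u' → mem S u') ∧ (u = v ∨ c.T (c.anc l (m + 1)) u)

/-- The label of `x` is `S`. -/
def lab (x S : ℕ) : Prop := ∀ v < c.w, (c.T x v ↔ mem S v)

/-- `x` is a good node of level `m + 1`. -/
def good (m x : ℕ) : Prop :=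
  ∀ l < c.n, c.lev l = c.N → c.anc l (m + 1) = x → ∀ v < c.w, c.U l m v → c.T x v →
    c.U l (m + 1) v

/-- Conditions for the root. -/
def c1 : Prop := c.r < c.n ∧ c.lev c.r = 0 ∧ ∀ x < c.n, c.lev x = 0 → x = c.r
/-- `anc_self`. -/
def c2 : Prop := ∀ x < c.n, c.anc x (c.lev x) = x
/-- `lev_anc`. -/
def c3 : Prop := ∀ x < c.n, ∀ j < c.N + 1, j ≤ c.lev x → c.lev (c.anc x j) = j
/-- `anc_anc`. -/
def c4 : Prop := ∀ x < c.n, ∀ j < c.N + 1, ∀ i < c.N + 1, i ≤ j → j ≤ c.lev x →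
  c.anc (c.anc x j) i = c.anc x i
/-- `U_ne`. -/
def c5 : Prop := ∀ l < c.n, c.lev l = c.N → ∃ v < c.w, c.U l 0 v
/-- `U_anti` and `U_sub`. -/
def c6 : Prop := ∀ l < c.n, c.lev l = c.N → ∀ j < c.N, ∀ v < c.w, c.U l (j + 1) v →
  c.U l j v ∧ c.T (c.anc l (j + 1)) v
/-- `legit`. -/
def c7 : Prop := ∀ s < c.n, ∀ m < c.N, c.lev s = m → ∀ S < 2 ^ c.w, c.gen c.n s m S →
  ∃ x < c.n, c.lev x = m + 1 ∧ c.anc x m = s ∧ c.lab x S ∧ c.good m x
/-- `empty_uniq`. -/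
def c8 : Prop := ∀ m < c.N, ∀ x < c.n, ∀ y < c.n, c.lev x = m + 1 → c.lev y = m + 1 →
  c.anc x m = c.anc y m → c.lab x 0 → c.lab y 0 → x = y
/-- `τ_anc` and `avail`. -/
def c9 : Prop := ∀ m < c.N, ∀ x < c.n, c.lev x = m + 1 →
  c.anc x m < x ∧ ∃ S < 2 ^ c.w, c.lab x S ∧ c.gen x (c.anc x m) m S

/-- Coherence of the value `v` at the leaf `l`. -/
def coh (l v : ℕ) : Prop :=
  ¬ mem v 0 ∧ ∀ x < c.M + 1, ∀ y < c.M + 1,
    (3 * Nat.pair x y + 2 ≤ c.M →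
      (mem v (3 * Nat.pair x y + 2) ↔ (mem v x → mem v y))) ∧
    (3 * Nat.pair x y + 3 ≤ c.M →
      (mem v (3 * Nat.pair x y + 3) ↔ ∀ u < c.w, c.T (c.anc l (x + 1)) u → mem u y))

/-- The profiles are coherent, contain `a`, and one of them does not contain `b`. -/
def c10 (a b : ℕ) : Prop :=
  (∀ l < c.n, c.lev l = c.N → ∀ v < c.w, c.U l 0 v → c.coh l v ∧ mem v a) ∧
    ∃ l < c.n, c.lev l = c.N ∧ ∃ v < c.w, c.U l 0 v ∧ ¬ mem v b

/-- All conditions. -/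
def Check (a b : ℕ) : Prop :=
  c.c1 ∧ c.c2 ∧ c.c3 ∧ c.c4 ∧ c.c5 ∧ c.c6 ∧ c.c7 ∧ c.c8 ∧ c.c9 ∧ c.c10 a b

end Cx

/-- There is a numerical certificate with at most `F` nodes. -/
def Crit (F M a b : ℕ) : Prop :=
  ∃ n < F + 1, ∃ r < n, ∃ L < (M + 2) ^ n, ∃ A < n ^ Nat.pair n (M + 2),
    ∃ T < 2 ^ Nat.pair n (2 ^ (M + 1)), ∃ U < 2 ^ Nat.pair n (Nat.pair (M + 2) (2 ^ (M + 1))),
      Cx.Check (M, n, r, L, A, T, U) a b

/-- The certificate given by numbers. -/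
def toCert (M n r L A T U : ℕ) (hr : r < n) : PreCert (M + 1) (Fin (2 ^ (M + 1))) where
  Nd := Fin n
  lev x := Cx.lev (M, n, r, L, A, T, U) x
  anc x j := ⟨Cx.anc (M, n, r, L, A, T, U) x j, Nat.mod_lt _ (Nat.lt_of_le_of_lt (Nat.zero_le r) hr)⟩
  root := ⟨r, hr⟩
  T x := {v | Cx.T (M, n, r, L, A, T, U) x v}
  U l j := {v | Cx.U (M, n, r, L, A, T, U) l j v}
  τ x := x

end H94G
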