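import Pool.Agent.Lib.H94G.Num

/-!
# Closure properties of primitive recursive predicates (chunk PA)

`ball` and `bex` from `PrimrecRel.forall_lt`, `PrimrecRel.exists_lt` (Mathlib, Computability/Primrec/List).
`pow`: from `Primrec.nat_rec` and `Primrec.nat_mul` (Mathlib has no lemma).
-/

namespace H94G

variable {α : Type} [Primcodable α]

theorem ball {f : α → ℕ} {Q : α → ℕ → Prop} (hf : Primrec f)
    (hQ : PrimrecPred fun p : α × ℕ => Q p.1 p.2) : PrimrecPred fun a => ∀ x < f a, Q a x := by
  have h : PrimrecRel fun (x : ℕ) (a : α) => Q a x :=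
    hQ.comp (Primrec.snd.pair Primrec.fst)
  exact (h.forall_mem_list.comp (Primrec.list_range.comp hf) Primrec.id).of_eq (by simp)

theorem bex {f : α → ℕ} {Q : α → ℕ → Prop} (hf : Primrec f)
    (hQ : PrimrecPred fun p : α × ℕ => Q p.1 p.2) : PrimrecPred fun a => ∃ x < f a, Q a x := by
  have h : PrimrecRel fun (x : ℕ) (a : α) => Q a x :=
    hQ.comp (Primrec.snd.pair Primrec.fst)
  exact (h.exists_mem_list.comp (Primrec.list_range.comp hf) Primrec.id).of_eq (by simp)

theorem prim_imp {P Q : α → Prop} (hP : PrimrecPred P) (hQ : PrimrecPred Q) :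
    PrimrecPred fun a => P a → Q a :=
  (hP.not.or hQ).of_eq fun a => by tauto

theorem prim_iff {P Q : α → Prop} (hP : PrimrecPred P) (hQ : PrimrecPred Q) :
    PrimrecPred fun a => P a ↔ Q a :=
  ((prim_imp hP hQ).and (prim_imp hQ hP)).of_eq fun a => by tauto

theorem prim_pow {f g : α → ℕ} (hf : Primrec f) (hg : Primrec g) :
    Primrec fun a => f a ^ g a := by
  have h := Primrec.nat_rec' (f := g) (g := fun _ : α => 1)
    (h := fun (a : α) (p : ℕ × ℕ) => p.2 * f a) hg (Primrec.const 1)
    (Primrec.nat_mul.comp (Primrec.snd.comp Primrec.snd) (hf.comp Primrec.fst))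
  refine h.of_eq fun a => ?_
  generalize g a = n
  induction n with
  | zero => simp
  | succ n ih => rw [pow_succ, ← ih]

theorem prim_pair {f g : α → ℕ} (hf : Primrec f) (hg : Primrec g) :
    Primrec fun a => Nat.pair (f a) (g a) :=
  Primrec₂.natPair.comp hf hg

theorem prim_dig {f g h : α → ℕ} (hf : Primrec f) (hg : Primrec g) (hh : Primrec h) :
    Primrec fun a => dig (f a) (g a) (h a) :=
  Primrec.nat_mod.comp (Primrec.nat_div.comp hg (prim_pow hf hh)) hf

theorem prim_mem {f g : α → ℕ} (hf : Primrec f) (hg : Primrec g) :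
    PrimrecPred fun a => mem (f a) (g a) :=
  Primrec.eq.comp (prim_dig (Primrec.const 2) hf hg) (Primrec.const 1)

theorem prim_nt {f g h : α → ℕ} (hf : Primrec f) (hg : Primrec g) (hh : Primrec h) :
    Primrec fun a => nt (f a) (g a) (h a) := by
  have h1 := Primrec.nat_rec' (f := h) (g := fun a => 2 ^ f a * (2 ^ f a) ^ (g a + 1))
    (h := fun (a : α) (p : ℕ × ℕ) => 2 ^ f a * 2 ^ p.2) hh
    (Primrec.nat_mul.comp (prim_pow (Primrec.const 2) hf)
      (prim_pow (prim_pow (Primrec.const 2) hf) (Primrec.succ.comp hg)))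
    (Primrec.nat_mul.comp (prim_pow (Primrec.const 2) (hf.comp Primrec.fst))
      (prim_pow (Primrec.const 2) (Primrec.snd.comp Primrec.snd)))
  refine h1.of_eq fun a => ?_
  generalize h a = n
  induction n with
  | zero => rfl
  | succ n ih => rw [nt, ← ih]

theorem prim_bnd {f g : α → ℕ} (hf : Primrec f) (hg : Primrec g) :
    Primrec fun a => bnd (f a) (g a) :=
  Primrec.nat_mul.comp (Primrec.succ.comp hf)
    (prim_pow (prim_nt hg hf hf) (Primrec.succ.comp hf))

end H94G
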