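import Pool.Agent.Lib.H94G.Step

/-!
# From a certificate to a map on types: realization (chunk RE)

MAIN CLAIM, by strong induction on `τ l` (leaf `l`): for all `m ≤ N`, all `c` with
`Nice c m (anc l m)` and `v ∈ U l 0` there is `x` over `c` with `val x = {inl v}`, leaf `l`, value `v`
and (if `m < N`) all child-of-`anc l m` markers `y` in `suc x m` satisfy `τ y ≤ τ (anc l (m+1))`.
Inner induction on `N - m`: if `m = N` take `x = ({inl v}, c)`. If `m < N` apply STEP with
`s' = anc l (m+1)` (leaves `l'` with `τ l' < τ s' ≤ τ l` are covered by the outer induction; the time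
bound: `τ (anc l' (m+1)) ≤ τ l' < τ s'`) and the inner induction for `update c m L`; the type `x`
obtained is over `update c m L`, so `suc x m = L`.
Start: `Nice (fun _ => ∅) 0 root` holds trivially (`root_uniq`: `anc l 0 = root`).
-/

namespace H94G

open Classical

variable {N : ℕ} {V : Type} {C : PreCert N V} [Nonempty V] (W : Sol C)

omit [Nonempty V] in
theorem tau_anc_le (hC : C.IsCert) (l : C.Nd) : ∀ d j, j + d = C.lev l →
    C.τ (C.anc l j) ≤ C.τ l := by
  intro d
  induction d with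
  | zero =>
    intro j hj
    have : j = C.lev l := by omega
    rw [this, hC.anc_self]
  | succ d ih =>
    intro j hj
    have h1 := ih (j + 1) (by omega)
    have h2 := hC.τ_anc (C.anc l (j + 1)) j (hC.lev_anc l (j + 1) (by omega))
    rw [hC.anc_anc l j (j + 1) (Nat.le_succ _) (by omega)] at h2
    omega

theorem real_aux [Finite V] (hC : C.IsCert) : ∀ (n : ℕ) (l : C.Nd), C.τ l = n → C.lev l = N →
    ∀ (d m : ℕ), m + d = N → ∀ c : Fin N → Set (Ty (Vr C) N (W.D₀ + 1)),
    Nice W c m (C.anc l m) → ∀ v ∈ C.U l 0, ∃ x : Ty (Vr C) N (W.D₀ + 1 + 1), Over c m x ∧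
      val (W.D₀ + 1 + 1) x = {Sum.inl v} ∧ W.node 2 x N = l ∧ W.g 2 x = v ∧
      ∀ (hm : m < N), ∀ u ∈ suc x ⟨m, hm⟩, ∀ y, C.Child m (C.anc l m) y →
        Sum.inr y ∈ val _ u → C.τ y ≤ C.τ (C.anc l (m + 1)) := by
  intro n
  induction n using Nat.strong_induction_on with
  | _ n ihn =>
  intro l hln hl d
  induction d with
  | zero =>
    intro m hm c hc v hv
    have hmN : m = N := by omega
    subst hmN
    have hanc : C.anc l m = l := by
      have := hC.anc_self l
      rwa [hl] at this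
    have hGS : GS (W.D₀ + 1) ((({Sum.inl v} : Set (Vr C)), c) : Ty (Vr C) m (W.D₀ + 1 + 1)) :=
      GS.of_ctx le_rfl hc.1 _
    have hover : Over c m ((({Sum.inl v} : Set (Vr C)), c) : Ty (Vr C) m (W.D₀ + 1 + 1)) :=
      ⟨hGS, fun j _ => rfl⟩
    have hnode := hc.2.1 _ hover
    rw [hanc] at hnode
    refine ⟨((({Sum.inl v} : Set (Vr C)), c) : Ty (Vr C) m (W.D₀ + 1 + 1)), hover, rfl,
      hnode, ?_, fun hm => absurd hm (lt_irrefl _)⟩
    have hdec : dec C ({Sum.inl v} : Set (Vr C)) = v := by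
      unfold dec
      have h1 : ∃ v' : V, Sum.inl v' ∈ ({Sum.inl v} : Set (Vr C)) := ⟨v, by simp⟩
      have h2 := Classical.epsilon_spec h1
      simpa using h2
    have h1 : dec C (val (W.D₀ + 2)
        ((({Sum.inl v} : Set (Vr C)), c) : Ty (Vr C) m (W.D₀ + 1 + 1))) ∈
        C.U (W.node 2 ((({Sum.inl v} : Set (Vr C)), c) : Ty (Vr C) m (W.D₀ + 1 + 1)) m) 0 := by
      rw [hnode]
      have : dec C (val (W.D₀ + 2)
        ((({Sum.inl v} : Set (Vr C)), c) : Ty (Vr C) m (W.D₀ + 1 + 1))) = v := hdec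
      rw [this]
      exact hv
    rw [g_eq W 2 _ h1]
    exact hdec
  | succ d ihd =>
    intro m hm c hc v hv
    have hmN : m < N := by omega
    have hls : C.lev (C.anc l m) = m := hC.lev_anc l m (by omega)
    have hls' : C.lev (C.anc l (m + 1)) = m + 1 := hC.lev_anc l (m + 1) (by omega)
    have hchild : C.Child m (C.anc l m) (C.anc l (m + 1)) :=
      ⟨hls', hC.anc_anc l m (m + 1) (Nat.le_succ _) (by omega)⟩
    obtain ⟨L, hL1, hL2, hL3⟩ := nice_step W hC c ⟨m, hmN⟩ (C.anc l m) (C.anc l (m + 1)) hls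
      hchild hc (by
        intro l' v' hl' hls2 hτ hv'
        have h1 : C.τ l' < n := by
          have := tau_anc_le hC l (N - (m + 1)) (m + 1) (by omega)
          omega
        obtain ⟨x, hx1, hx2, hx3, hx4, hx5⟩ := ihn (C.τ l') h1 l' rfl hl' (d + 1) m hm c
          (by
            have h2 : C.anc l' m = C.anc l m := hls2
            rw [h2]; exact hc) v' hv'
        refine ⟨x, hx1, hx2, hx3, hx4, fun u hu y hy hyu => ?_⟩
        have h2 : C.anc l' m = C.anc l m := hls2
        have h3 := hx5 hmN u hu y (by rw [h2]; exact hy) hyu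
        have h4 := tau_anc_le hC l' (N - (m + 1)) (m + 1) (by omega)
        omega)
    obtain ⟨x, hx1, hx2, hx3, hx4, -⟩ := ihd (m + 1) (by omega) _ hL2 v hv
    obtain ⟨h1, h2⟩ := (over_update W (m := ⟨m, hmN⟩)).1 hx1
    refine ⟨x, h1, hx2, hx3, hx4, fun hm' u hu y hy hyu => ?_⟩
    rw [h2] at hu
    exact hL3 u hu y hy hyu

/-- Every leaf with every allowed value is realized. -/
theorem real [Finite V] (hC : C.IsCert) (l : C.Nd) (hl : C.lev l = N) (v : V)
    (hv : v ∈ C.U l 0) : ∃ t : Ty (Vr C) N (W.D₀ + 1 + 1), GS (W.D₀ + 1) t ∧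
      W.node 2 t N = l ∧ W.g 2 t = v := by
  have h0 : C.anc l 0 = C.root := hC.root_uniq _ (hC.lev_anc l 0 (Nat.zero_le _))
  obtain ⟨x, hx1, _, hx3, hx4, _⟩ := real_aux W hC (C.τ l) l rfl hl N 0 (Nat.zero_add N)
    (fun _ => ∅) ⟨fun k hk => absurd hk (Nat.not_lt_zero _), fun x _ => by rw [h0]; rfl,
      fun x _ _ _ j hj => absurd hj (Nat.not_lt_zero _)⟩ v hv
  exact ⟨x, hx1.1, hx3, hx4⟩

end H94G
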