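import Pool.Agent.Lib.H94G.Inv

/-!
# From a certificate to a map on types: one step (chunk ST)

Aim: every leaf `l` and `v ∈ U l 0` are realized by a good type of depth `D₀ + 2`.
Contexts are of depth `D₀ + 1`: `c : Fin N → Set (Ty (D₀ + 1))`; points over them are good types of
depth `D₀ + 2` (index `2`), the elements of the contexts have index `1`. `s < y` means: `y` is a
strict descendant of `s` (`SDesc s y`).

`Nice c m s` (level `m`, node `s` of level `m`):
 (N0) `Ctx c m`;
 (N1) every `x` over `c` (up to `m`) is assigned `s` at level `m`;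
 (N2) if `x` is over `c`, all markers at `x` itself are strict descendants of `s`, and
      `g x ∈ U ℓ(x) m`, then `rho x ∈ c j` for all `j < m`.

STEP. Let `m < N`, `Nice c m s`, `s'` a child of `s` (level `m + 1`) and suppose that for every leaf
`l'` below `s` with `τ l' < τ s'` and `v ∈ U l' 0` there is `x` over `c` with `val x = {inl v}`,
leaf `l'`, value `v` and such that the markers `y` with `Child m s y` occurring at elements of
`suc x m` satisfy `τ y < τ s'`. Then there is `L` with `GenAt c m L`,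
`Nice (update c m L) (m+1) s'` and all markers `y` with `Child m s y` occurring in `L` satisfy
`τ y ≤ τ s'`.
Proof. If `T s' = ∅` take `L = ∅`: (N1) by `empty_uniq` and (I1); (N2) is void since
`U ℓ(x) (m+1) ⊆ T s_{m+1}(x) = ∅`.
Let `T s' ≠ ∅`. By `avail` choose for every `w ∈ T s'` a leaf `l_w` and `v_w`, and `x_w` as in the
hypothesis; let `x'_w` be `x_w` with the marker `s'` added to its valuation `{inl v_w}`. It has the
same node sequence (`node_congr`) and value `v_w` (`g_eq`), so by (N2) it is realized over `c`. Let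
`L0 = gen m {x'_w}`. Consider the sets `L` with
 `GenAt c m L`, (i) `g '' L = T s'`, (iii) `∀ u ∈ L, node u (m+1) = s' → g u ∈ U ℓ(u) (m+1)`,
 (iv) markers `y` with `Child m s y` in `L` have `τ y ≤ τ s'`.
`L0` is such a set. (i) and (iv) are clear. (iii): let `u ∈ L0`; it is `rho z` for a realized `z` over
`c` with `suc z m ⊆ suc x_w m` for some `w` (`GenAt.exists_rep` for `suc x'_w m`, or `z = x'_w`).
Suppose `node z (m+1) = s'`. By `marked_or_good` either `s'` occurs as a marker in `suc z m`, which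
is impossible because the child-of-`s` markers there have time `< τ s'`, or `s'` is good; in this case
`g z ∈ U ℓ(z) m` by (I3) (`z` is realized in the levels `< m`; (I2) if `m = 0`) and
`g z ∈ g '' L0 = T s'`, hence `g z ∈ U ℓ(z) (m+1)`.
Let `L ⊇ L0` be maximal with these properties, `c' = update c m L`.
(N1): `node_succ_cand` with `x = s'` (the marker `s'` occurs in `L0 ⊆ L`).
(N2): let `x` be over `c'` (up to `m + 1`), markers strictly below `s'`, `g x ∈ U ℓ(x) (m+1)`. Then
`g x ∈ U ℓ(x) m`, so by (N2) for `c`, `rho x ∈ c j` for `j < m`. The set `L ∪ {rho x}` =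
`L ∪ ({rho x} ∪ suc x m)` is generated (`GenAt.insert`), satisfies (i) (`U_sub`), (iii), (iv) (the
markers of `x` have level `> m + 1`); so `rho x ∈ L` by maximality.
-/

namespace H94G

open Classical

variable {N : ℕ} {V : Type} {C : PreCert N V} [Nonempty V] (W : Sol C)

/-- `y` is a strict descendant of `s`. -/
def SDesc (C : PreCert N V) (s y : C.Nd) : Prop := C.lev s < C.lev y ∧ C.anc y (C.lev s) = s

/-- Nice contexts. -/
def Nice (c : Fin N → Set (Ty (Vr C) N (W.D₀ + 1))) (m : ℕ) (s : C.Nd) : Prop :=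
  Ctx c m ∧ (∀ x : Ty (Vr C) N (W.D₀ + 1 + 1), Over c m x → W.node 2 x m = s) ∧
  ∀ x : Ty (Vr C) N (W.D₀ + 1 + 1), Over c m x →
    (∀ y, Sum.inr y ∈ val (W.D₀ + 1 + 1) x → SDesc C s y) →
    W.g 2 x ∈ C.U (W.node 2 x N) m → ∀ j : Fin N, (j : ℕ) < m → rho _ x ∈ c j

omit [Nonempty V] in
theorem U_mono (hC : C.IsCert) {l : C.Nd} (hl : C.lev l = N) {i j : ℕ} (hij : i ≤ j)
    (hj : j ≤ N) : C.U l j ⊆ C.U l i := by
  induction j, hij using Nat.le_induction with
  | base => exact subset_rfl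
  | succ j hij ih => exact (hC.U_anti l j hl (by omega)).trans (ih (by omega))

theorem over_update {c : Fin N → Set (Ty (Vr C) N (W.D₀ + 1))} {m : Fin N}
    {L : Set (Ty (Vr C) N (W.D₀ + 1))} {x : Ty (Vr C) N (W.D₀ + 1 + 1)} :
    Over (Function.update c m L) (m + 1) x ↔ Over c m x ∧ suc x m = L := by
  constructor
  · intro h
    refine ⟨⟨h.1, fun j hj => ?_⟩, ?_⟩
    · rw [h.2 j (by omega), Function.update_of_ne]
      rintro rfl
      exact lt_irrefl _ hj
    · rw [h.2 m (by omega), Function.update_self]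
  · rintro ⟨h, h2⟩
    refine ⟨h.1, fun j hj => ?_⟩
    by_cases hjm : j = m
    · subst hjm
      rw [Function.update_self, h2]
    · rw [Function.update_of_ne hjm]
      exact h.2 j (by
        have : (j : ℕ) ≠ m := fun h => hjm (Fin.ext h)
        omega)

theorem U_of_realz (hC : C.IsCert) {c : Fin N → Set (Ty (Vr C) N (W.D₀ + 1))} {m : ℕ}
    (hm : m ≤ N) {z : Ty (Vr C) N (W.D₀ + 1 + 1)} (hz : Realz c m z) :
    W.g 2 z ∈ C.U (W.node 2 z N) m := by
  have hI := inv W hC 0 z hz.1.1
  rcases m with _ | m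
  · exact hI.2.1
  · refine hI.2.2 ⟨m, by omega⟩ ?_
    rw [hz.1.2 ⟨m, by omega⟩ (Nat.lt_succ_self m)]
    exact hz.2 ⟨m, by omega⟩ (Nat.lt_succ_self m)

theorem nice_step [Finite V] (hC : C.IsCert) (c : Fin N → Set (Ty (Vr C) N (W.D₀ + 1)))
    (m : Fin N) (s s' : C.Nd) (hs : C.lev s = m) (hs' : C.Child m s s') (hc : Nice W c m s)
    (hx : ∀ l v, C.lev l = N → C.anc l m = s → C.τ l < C.τ s' → v ∈ C.U l 0 →
      ∃ x : Ty (Vr C) N (W.D₀ + 1 + 1), Over c m x ∧ val (W.D₀ + 1 + 1) x = {Sum.inl v} ∧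
        W.node 2 x N = l ∧ W.g 2 x = v ∧
        ∀ u ∈ suc x m, ∀ y, C.Child m s y → Sum.inr y ∈ val _ u → C.τ y < C.τ s') :
    ∃ L : Set (Ty (Vr C) N (W.D₀ + 1)), GenAt c m L ∧ Nice W (Function.update c m L) (m + 1) s' ∧
      ∀ u ∈ L, ∀ y, C.Child m s y → Sum.inr y ∈ val _ u → C.τ y ≤ C.τ s' := by
  haveI := hC.fin
  have hmN : (m : ℕ) + 1 ≤ N := m.2
  obtain ⟨hc0, hc1, hc2⟩ := hc
  by_cases hT : C.T s' = ∅
  · refine ⟨∅, GenAt.empty c m, ⟨Ctx.update hc0 (GenAt.empty c m), ?_, ?_⟩, ?_⟩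
    · intro x hx'
      obtain ⟨h1, h2⟩ := (over_update W).1 hx'
      have hI := (inv W hC 0 x h1.1).1 m
      rw [h2, Set.image_empty] at hI
      refine hC.empty_uniq m s _ s' ?_ hs' hI.2 hT
      have h3 := hI.1
      have h4 : W.node (0 + 2) x m = s := hc1 x h1
      rw [h4] at h3
      exact h3
    · intro x hx' _ hU
      exfalso
      obtain ⟨h1, h2⟩ := (over_update W).1 hx'
      have hI := (inv W hC 0 x h1.1).1 m
      rw [h2, Set.image_empty] at hI
      have hA := anc_node W hC 0 x h1.1 (m + 1) hmN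
      have hl := (anc_node W hC 0 x h1.1 N le_rfl).1
      have h5 := hC.U_sub _ m hl m.2 hU
      have h6 : C.T (C.anc (W.node (0 + 2) x N) (m + 1)) = ∅ := by
        rw [hA.2]; exact hI.2
      have h7 : W.g 2 x ∈ C.T (C.anc (W.node (0 + 2) x N) (m + 1)) := h5
      rw [h6] at h7
      exact h7
    · intro u hu
      exact absurd hu (Set.notMem_empty u)
  · have hne : (C.T s').Nonempty := Set.nonempty_iff_ne_empty.2 hT
    have hav := hC.avail s' m hs'.1
    rw [hs'.2] at hav
    -- the set of the chosen points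
    set A : Set (Ty (Vr C) N (W.D₀ + 1 + 1)) := {x' | ∃ (l : C.Nd) (v : V)
      (x : Ty (Vr C) N (W.D₀ + 1 + 1)), C.lev l = N ∧ C.anc l m = s ∧ v ∈ C.U l m ∧ v ∈ C.T s' ∧
        C.T (C.anc l (m + 1)) ⊆ C.T s' ∧ Over c m x ∧ W.node 2 x N = l ∧
        (∀ u ∈ suc x m, ∀ y, C.Child m s y → Sum.inr y ∈ val _ u → C.τ y < C.τ s') ∧
        x' = ((({Sum.inl v, Sum.inr s'} : Set (Vr C)), suc x) : Ty (Vr C) N (W.D₀ + 1 + 1))}
      with hAdef
    have hex : ∀ w ∈ C.T s', ∃ l v x, C.lev l = N ∧ C.anc l m = s ∧ v ∈ C.U l m ∧ v ∈ C.T s' ∧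
        C.T (C.anc l (m + 1)) ⊆ C.T s' ∧ Over c m x ∧ W.node 2 x N = l ∧
        (∀ u ∈ suc x m, ∀ y, C.Child m s y → Sum.inr y ∈ val _ u → C.τ y < C.τ s') ∧
        (w = v ∨ w ∈ C.T (C.anc l (m + 1))) := by
      intro w hw
      obtain ⟨l, v, hτ, hl, hls, hvU, hvT, hsub, hw'⟩ := hav w hw
      obtain ⟨x, hx1, _, hx3, _, hx5⟩ := hx l v hl hls hτ (U_mono hC hl (Nat.zero_le _)
        (by omega) hvU)
      exact ⟨l, v, x, hl, hls, hvU, hvT, hsub, hx1, hx3, hx5, hw'⟩
    -- facts on the chosen points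
    have hfact : ∀ (l : C.Nd) (v : V) (x : Ty (Vr C) N (W.D₀ + 1 + 1)), C.lev l = N →
        C.anc l m = s → v ∈ C.U l m → Over c m x → W.node 2 x N = l →
        ∀ x' : Ty (Vr C) N (W.D₀ + 1 + 1), x' = ((({Sum.inl v, Sum.inr s'} : Set (Vr C)), suc x) :
          Ty (Vr C) N (W.D₀ + 1 + 1)) →
        Realz c m x' ∧ W.g 2 x' = v ∧ (∀ k, W.node 2 x' k = W.node 2 x k) ∧
          W.g 1 '' suc x m = C.T (C.anc l (m + 1)) := by
      intro l v x hl hls hvU hox hxl x' hx'
      have hsuc : ∀ j, suc x' j = suc x j := by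
        intro j; rw [hx']; rfl
      have hval : val (W.D₀ + 1 + 1) x' = {Sum.inl v, Sum.inr s'} := by
        rw [hx']; rfl
      have hGS : GS (W.D₀ + 1) x' := by
        rw [hx']
        exact GS.of_ctx le_rfl (hox.1.ctx N) _
      have hnode : ∀ k, W.node 2 x' k = W.node 2 x k := by
        intro k
        exact node_congr W 1 x' x hGS hox.1 k fun j _ => hsuc j
      have hdec : dec C (val (W.D₀ + 1 + 1) x') = v := by
        rw [hval]
        unfold dec
        have h1 : ∃ v' : V, Sum.inl v' ∈ ({Sum.inl v, Sum.inr s'} : Set (Vr C)) := ⟨v, by simp⟩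
        have h2 := Classical.epsilon_spec h1
        simpa using h2
      have hg : W.g 2 x' = v := by
        have h1 : dec C (val (W.D₀ + 2) x') ∈ C.U (W.node 2 x' N) 0 := by
          rw [hnode N, hxl]
          have : dec C (val (W.D₀ + 2) x') = v := hdec
          rw [this]
          exact U_mono hC hl (Nat.zero_le _) (by omega) hvU
        rw [g_eq W 2 x' h1]
        exact hdec
      have hover : Over c m x' := ⟨hGS, fun j hj => by rw [hsuc j]; exact hox.2 j hj⟩
      refine ⟨⟨hover, ?_⟩, hg, hnode, ?_⟩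
      · refine hc2 x' hover ?_ ?_
        · intro y hy
          rw [hval] at hy
          have : y = s' := by simpa using hy
          subst this
          refine ⟨by rw [hs, hs'.1]; omega, by rw [hs]; exact hs'.2⟩
        · rw [hg, hnode N, hxl]
          exact hvU
      · have hI := ((inv W hC 0 x hox.1).1 m).2
        have hA := (anc_node W hC 0 x hox.1 (m + 1) hmN).2
        have hxl' : W.node (0 + 2) x N = l := hxl
        rw [hxl'] at hA
        rw [hA]
        exact hI.symm
    -- the first generated set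
    have hArel : ∀ x' ∈ A, Realz c m x' := by
      rintro x' ⟨l, v, x, hl, hls, hvU, hvT, hsub, hox, hxl, hmk, hx'⟩
      exact (hfact l v x hl hls hvU hox hxl x' hx').1
    have hL0gen : GenAt c m (gen m A) := ⟨A, hArel, rfl⟩
    have hL0i : W.g 1 '' gen m A = C.T s' := by
      apply Set.Subset.antisymm
      · rintro _ ⟨u, hu, rfl⟩
        rcases hu with ⟨x', hx'A, rfl⟩ | hu
        · obtain ⟨l, v, x, hl, hls, hvU, hvT, hsub, hox, hxl, hmk, hx'⟩ := hx'A
          have h1 := (hfact l v x hl hls hvU hox hxl x' hx').2.1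
          have h2 : W.g 1 (rho _ x') = W.g 2 x' := (g_rho W 1 x').symm
          rw [h2, h1]
          exact hvT
        · simp only [Set.mem_iUnion] at hu
          obtain ⟨x', hx'A, hu⟩ := hu
          obtain ⟨l, v, x, hl, hls, hvU, hvT, hsub, hox, hxl, hmk, hx'⟩ := hx'A
          have h1 := (hfact l v x hl hls hvU hox hxl x' hx').2.2.2
          apply hsub
          rw [← h1]
          refine ⟨u, ?_, rfl⟩
          rw [hx'] at hu
          exact hu
      · intro w hw
        obtain ⟨l, v, x, hl, hls, hvU, hvT, hsub, hox, hxl, hmk, hw'⟩ := hex w hw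
        have hf := hfact l v x hl hls hvU hox hxl _ rfl
        have hmem : ((({Sum.inl v, Sum.inr s'} : Set (Vr C)), suc x) :
            Ty (Vr C) N (W.D₀ + 1 + 1)) ∈ A :=
          ⟨l, v, x, hl, hls, hvU, hvT, hsub, hox, hxl, hmk, rfl⟩
        rcases hw' with rfl | hw'
        · refine ⟨rho _ _, Or.inl ⟨_, hmem, rfl⟩, ?_⟩
          exact (g_rho W 1 _).symm.trans hf.2.1
        · rw [← hf.2.2.2] at hw'
          obtain ⟨u, hu, rfl⟩ := hw'
          refine ⟨u, Or.inr ?_, rfl⟩
          simp only [Set.mem_iUnion]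
          exact ⟨_, hmem, hu⟩
    have hL0iv : ∀ u ∈ gen m A, ∀ y, C.Child m s y → Sum.inr y ∈ val _ u → C.τ y ≤ C.τ s' := by
      intro u hu y hy hyu
      rcases hu with ⟨x', hx'A, rfl⟩ | hu
      · obtain ⟨l, v, x, hl, hls, hvU, hvT, hsub, hox, hxl, hmk, hx'⟩ := hx'A
        rw [val_rho, hx'] at hyu
        have h1 : (Sum.inr y : Vr C) ∈ ({Sum.inl v, Sum.inr s'} : Set (Vr C)) := hyu
        have : y = s' := by simpa using h1
        rw [this]
      · simp only [Set.mem_iUnion] at hu
        obtain ⟨x', hx'A, hu⟩ := hu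
        obtain ⟨l, v, x, hl, hls, hvU, hvT, hsub, hox, hxl, hmk, hx'⟩ := hx'A
        rw [hx'] at hu
        exact (hmk u hu y hy hyu).le
    have hL0iii : ∀ u ∈ gen m A, W.node 1 u (m + 1) = s' →
        W.g 1 u ∈ C.U (W.node 1 u N) (m + 1) := by
      intro u hu hus
      have hz : ∃ z : Ty (Vr C) N (W.D₀ + 1 + 1), Realz c m z ∧ rho _ z = u ∧
          ∀ u' ∈ suc z m, ∀ y, C.Child m s y → Sum.inr y ∈ val _ u' → C.τ y < C.τ s' := by
        rcases hu with ⟨x', hx'A, rfl⟩ | hu
        · refine ⟨x', hArel x' hx'A, rfl, ?_⟩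
          obtain ⟨l, v, x, hl, hls, hvU, hvT, hsub, hox, hxl, hmk, hx'⟩ := hx'A
          intro u' hu'
          rw [hx'] at hu'
          exact hmk u' hu'
        · simp only [Set.mem_iUnion] at hu
          obtain ⟨x', hx'A, hu⟩ := hu
          obtain ⟨l, v, x, hl, hls, hvU, hvT, hsub, hox, hxl, hmk, hx'⟩ := hx'A
          rw [hx'] at hu
          have hgen : GenAt c m (suc x m) := by
            have h1 := hox.1.ctx (m + 1) m (Nat.lt_succ_self _)
            exact (GenAt.congr (fun j hj => hox.2 j hj) _).1 h1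
          obtain ⟨z, hz1, hz2, hz3⟩ := hgen.exists_rep hu
          exact ⟨z, hz1, hz2, fun u' hu' => hmk u' (hz3 hu')⟩
      obtain ⟨z, hz1, rfl, hz3⟩ := hz
      have hzs : W.node 2 z (m + 1) = s' := hus
      have hU := U_of_realz W hC m.2.le hz1
      have hgz : W.g 2 z = W.g 1 (rho _ z) := g_rho W 1 z
      rcases marked_or_good W hC 0 z hz1.1.1 m with ⟨u', hu', hmark⟩ | hgood
      · exfalso
        have h1 : (Sum.inr s' : Vr C) ∈ val _ u' := by
          have h2 : W.node (0 + 2) z (m + 1) = s' := hzs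
          rw [h2] at hmark
          exact hmark
        exact lt_irrefl _ (hz3 u' hu' s' hs' h1)
      · have h2 : W.node (0 + 2) z (m + 1) = s' := hzs
        rw [h2] at hgood
        have hA := (anc_node W hC 0 z hz1.1.1 (m + 1) hmN).2
        have hl := (anc_node W hC 0 z hz1.1.1 N le_rfl).1
        rw [h2] at hA
        have h3 : W.g 2 z ∈ C.T s' := by
          rw [hgz, ← hL0i]
          exact ⟨_, hu, rfl⟩
        have h4 := hgood _ hl hA _ hU h3
        rw [← hgz]
        exact h4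
    obtain ⟨L, hL0L, ⟨hLgen, hLi, hLiii, hLiv⟩, hLmax⟩ := exists_maximal_set
      (P := fun L : Set (Ty (Vr C) N (W.D₀ + 1)) => GenAt c m L ∧ W.g 1 '' L = C.T s' ∧
        (∀ u ∈ L, W.node 1 u (m + 1) = s' → W.g 1 u ∈ C.U (W.node 1 u N) (m + 1)) ∧
        ∀ u ∈ L, ∀ y, C.Child m s y → Sum.inr y ∈ val _ u → C.τ y ≤ C.τ s')
      ⟨hL0gen, hL0i, hL0iii, hL0iv⟩
    have hmarkL : ∃ u ∈ L, (Sum.inr s' : Vr C) ∈ val _ u := by
      obtain ⟨w, hw⟩ := hne
      obtain ⟨l, v, x, hl, hls, hvU, hvT, hsub, hox, hxl, hmk, hw'⟩ := hex w hw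
      have hmem : ((({Sum.inl v, Sum.inr s'} : Set (Vr C)), suc x) :
          Ty (Vr C) N (W.D₀ + 1 + 1)) ∈ A :=
        ⟨l, v, x, hl, hls, hvU, hvT, hsub, hox, hxl, hmk, rfl⟩
      refine ⟨rho _ _, hL0L (Or.inl ⟨_, hmem, rfl⟩), ?_⟩
      rw [val_rho]
      show (Sum.inr s' : Vr C) ∈ ({Sum.inl v, Sum.inr s'} : Set (Vr C))
      simp
    have hN1 : ∀ x : Ty (Vr C) N (W.D₀ + 1 + 1), Over (Function.update c m L) (m + 1) x →
        W.node 2 x (m + 1) = s' := by
      intro x hx'
      obtain ⟨h1, h2⟩ := (over_update W).1 hx'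
      have h3 : W.node (1 + 1) x m = s := hc1 x h1
      refine node_succ_cand W hC 1 x h1.1 m s' ?_ ?_ ?_ ?_ ?_
      · rw [h3]; exact hs'
      · rw [h2, hLi]
      · rw [h2]; exact hmarkL
      · rw [h2]; exact hLiii
      · intro y hy hym
        rw [h3] at hy
        rw [h2] at hym
        obtain ⟨u, hu, hyu⟩ := hym
        exact hLiv u hu y hy hyu
    refine ⟨L, hLgen, ⟨Ctx.update hc0 hLgen, hN1, ?_⟩, hLiv⟩
    intro x hx' hmk hU j hj
    obtain ⟨h1, h2⟩ := (over_update W).1 hx'
    have hnx := hN1 x hx'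
    have hA := (anc_node W hC 0 x h1.1 (m + 1) hmN).2
    have hl := (anc_node W hC 0 x h1.1 N le_rfl).1
    have hnx' : W.node (0 + 2) x (m + 1) = s' := hnx
    rw [hnx'] at hA
    have hgx : W.g 2 x = W.g 1 (rho _ x) := g_rho W 1 x
    have hgT : W.g 2 x ∈ C.T s' := by
      have h3 := hC.U_sub _ m hl m.2 hU
      rw [hA] at h3
      exact h3
    have hUm : W.g 2 x ∈ C.U (W.node 2 x N) m := U_mono hC hl (Nat.le_succ _) hmN hU
    have hreal : ∀ j : Fin N, (j : ℕ) < m → rho _ x ∈ c j := by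
      refine hc2 x h1 ?_ hUm
      intro y hy
      obtain ⟨h3, h4⟩ := hmk y hy
      rw [hs'.1] at h3 h4
      refine ⟨by rw [hs]; omega, ?_⟩
      rw [hs, ← hs'.2, ← h4]
      exact (hC.anc_anc y m (m + 1) (Nat.le_succ _) (by omega)).symm
    have hrhoL : rho _ x ∈ L := by
      have hP : GenAt c m (L ∪ ({rho _ x} ∪ suc x m)) := hLgen.insert ⟨h1, hreal⟩
      have heq : L ∪ ({rho _ x} ∪ suc x m) = insert (rho _ x) L := by
        rw [h2]
        ext u
        simp only [Set.mem_union, Set.mem_singleton_iff, Set.mem_insert_iff]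
        tauto
      rw [heq] at hP
      have h5 : insert (rho _ x) L = L := by
        refine hLmax _ ⟨hP, ?_, ?_, ?_⟩ (Set.subset_insert _ _)
        · rw [Set.image_insert_eq, hLi, ← hgx]
          exact Set.insert_eq_of_mem hgT
        · intro u hu hus
          rcases hu with rfl | hu
          · rw [← hgx]
            exact hU
          · exact hLiii u hu hus
        · intro u hu y hy hyu
          rcases hu with rfl | hu
          · exfalso
            rw [val_rho] at hyu
            have h3 := (hmk y hyu).1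
            rw [hs'.1, hy.1] at h3
            exact lt_irrefl _ h3
          · exact hLiv u hu y hy hyu
      rw [← h5]
      exact Set.mem_insert _ _
    by_cases hjm : j = m
    · subst hjm
      rw [Function.update_self]
      exact hrhoL
    · rw [Function.update_of_ne hjm]
      refine hreal j ?_
      have : (j : ℕ) ≠ m := fun h => hjm (Fin.ext h)
      omega

end H94G
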